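import Pool.Agent.Lib.MJump.GenLem

/-!
# Module Gamma: a Borel choice of generic reals  (about 150 lines)

PROOFS.
`measurable_jump`: `measurable_pi_iff`; `{A | jump A n = true} = ⋃ s, {A | res A n.unpair.1 n.unpair.2 s = 0}ᶜ`
(`jump_iff`) is measurable by `measurable_res` (Cont.lean); a `Bool`-valued function is measurable if the preimage
of `{true}` is (`measurable_to_bool`). `measurable_jmp`: induction (`jmp_succ`, composition).
`exists_gamma`: for `t` define strings `σ_i(t)` by recursion: `σ_0 = []`; let `Z = jmp M t` and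
`E i σ τ t := σ <+: τ ∧ σ.length < τ.length ∧ Dec Z i τ` where `Dec (jmp M t) i τ`. For all `t, i, σ` there is a `τ`
with `E i σ τ t` (`dec_dense`, then append `false`, `Dec_mono`). Let `σ_(i+1)(t)` be the `τ = dl c` with the least `c : ℕ` such that
`E i (σ_i(t)) (dl c) t` (`Nat.find`). Put `Γ t = lim (fun i => σ_i(t))` (Table.lean). By `Ext_lim` it extends
all `σ_i(t)`, so it is generic over `jmp M t` by `gen_of_dec` (`m = (σ_(i+1)(t)).length`).
Measurability: for each string `τ` and `i` the set `{t | Dec (jmp M t) i τ}` is measurable: `{t | Wset (jmp M t) i τ}` is a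
finite union of sets `{t | res (jmp M t) i (encode (τ.take k)) s = 0}ᶜ` (`measurable_res`, `measurable_jmp`), and the second
alternative of `Dec` is a countable intersection over `τ' : List Bool` of complements of such sets. By induction on `i`
the sets `{t | σ_i(t) = σ}` are measurable (`σ_(i+1)(t) = τ` iff for some `σ` (countable union) and `c` with
`dl c = τ`: `σ_i(t) = σ`, `E i σ (dl c) t`, and `¬ E i σ (dl c') t` for all `c' < c`). Finally
`{t | Γ t n = true}` is the countable union over the `σ` with `(σ[n]?).getD false = true` of the sets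
`{t | σ_(n+1)(t) = σ}`.
-/

set_option autoImplicit false

namespace Pool.Agent.Mart

open Pool.Agent.GammaZero Encodable

theorem measurable_jump : Measurable jump := by
  rw [measurable_pi_iff]
  intro n
  refine measurable_to_bool ?_
  have h : (fun A => jump A n) ⁻¹' {true} = ⋃ s, {A : ℕ → Bool | res A n.unpair.1 n.unpair.2 s = 0}ᶜ := by
    ext A
    rw [Set.mem_preimage, Set.mem_singleton_iff, Set.mem_iUnion]
    exact jump_iff A n
  rw [h]
  exact MeasurableSet.iUnion fun s => (measurable_res _ _ _ _).compl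

theorem measurable_jmp (k : ℕ) : Measurable (jmp k) := by
  induction k with
  | zero =>
    have h : jmp 0 = id := by
      funext A
      exact jmp_zero A
    rw [h]
    exact measurable_id
  | succ k ih =>
    have h : jmp (k + 1) = jump ∘ jmp k := by
      funext A
      exact jmp_succ k A
    rw [h]
    exact measurable_jump.comp ih

private theorem ga_wset (i : ℕ) (ρ : List Bool) : MeasurableSet {Z : ℕ → Bool | Wset Z i ρ} := by
  have h : {Z : ℕ → Bool | Wset Z i ρ} = ⋃ k ∈ Finset.range (ρ.length + 1), ⋃ s ∈ Finset.range ρ.length,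
      {Z : ℕ → Bool | res Z i (encode (ρ.take k)) s = 0}ᶜ := by
    ext Z
    simp only [Set.mem_iUnion, Finset.mem_range, exists_prop]
    exact Iff.rfl
  rw [h]
  exact Finset.measurableSet_biUnion _ fun k _ => Finset.measurableSet_biUnion _ fun s _ =>
    (measurable_res _ _ _ _).compl

private theorem ga_dec (i : ℕ) (ρ : List Bool) : MeasurableSet {Z : ℕ → Bool | Dec Z i ρ} := by
  have h : {Z : ℕ → Bool | Dec Z i ρ} = {Z : ℕ → Bool | Wset Z i ρ} ∪
      ⋂ τ : List Bool, {Z : ℕ → Bool | ρ <+: τ → ¬ Wset Z i τ} := by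
    ext Z
    rw [Set.mem_union, Set.mem_iInter]
    exact Iff.rfl
  rw [h]
  refine (ga_wset i ρ).union (MeasurableSet.iInter fun τ => ?_)
  by_cases hτ : ρ <+: τ
  · have h1 : {Z : ℕ → Bool | ρ <+: τ → ¬ Wset Z i τ} = {Z : ℕ → Bool | Wset Z i τ}ᶜ := by
      ext Z
      exact ⟨fun h2 => h2 hτ, fun h2 _ => h2⟩
    rw [h1]
    exact (ga_wset i τ).compl
  · have h1 : {Z : ℕ → Bool | ρ <+: τ → ¬ Wset Z i τ} = Set.univ := by
      ext Z
      exact ⟨fun _ => trivial, fun _ h2 => absurd h2 hτ⟩
    rw [h1]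
    exact MeasurableSet.univ

private def GaQ (Z : ℕ → Bool) (i : ℕ) (σ : List Bool) (c : ℕ) : Prop :=
  (σ <+: dl c ∧ σ.length < (dl c).length) ∧ Dec Z i (dl c)

private theorem ga_q (i : ℕ) (σ : List Bool) (c : ℕ) : MeasurableSet {Z : ℕ → Bool | GaQ Z i σ c} := by
  by_cases hc : σ <+: dl c ∧ σ.length < (dl c).length
  · have h1 : {Z : ℕ → Bool | GaQ Z i σ c} = {Z : ℕ → Bool | Dec Z i (dl c)} := by
      ext Z
      exact ⟨fun h2 => h2.2, fun h2 => ⟨hc, h2⟩⟩
    rw [h1]
    exact ga_dec i _
  · have h1 : {Z : ℕ → Bool | GaQ Z i σ c} = ∅ := by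
      ext Z
      exact ⟨fun h2 => absurd h2.1 hc, fun h2 => h2.elim⟩
    rw [h1]
    exact MeasurableSet.empty

private theorem ga_ex (Z : ℕ → Bool) (i : ℕ) (σ : List Bool) : ∃ c, GaQ Z i σ c := by
  obtain ⟨τ, h1, h2⟩ := dec_dense Z i σ
  refine ⟨encode (τ ++ [false]), ?_⟩
  unfold GaQ
  rw [dl_encode]
  refine ⟨⟨h1.trans (List.prefix_append _ _), ?_⟩, Dec_mono (List.prefix_append _ _) h2⟩
  rw [List.length_append]
  have := h1.length_le
  simp only [List.length_cons, List.length_nil]
  omega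

open Classical in
private noncomputable def gaS (Z : ℕ → Bool) : ℕ → List Bool
  | 0 => []
  | i + 1 => dl (Nat.find (ga_ex Z i (gaS Z i)))

open Classical in
private theorem gaS_succ (Z : ℕ → Bool) (i : ℕ) : gaS Z (i + 1) = dl (Nat.find (ga_ex Z i (gaS Z i))) := rfl

private theorem gaS_spec (Z : ℕ → Bool) (i : ℕ) :
    (gaS Z i <+: gaS Z (i + 1) ∧ (gaS Z i).length < (gaS Z (i + 1)).length) ∧ Dec Z i (gaS Z (i + 1)) := by
  classical
  rw [gaS_succ]
  exact Nat.find_spec (ga_ex Z i (gaS Z i))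

private theorem gaS_meas (i : ℕ) : ∀ τ : List Bool, MeasurableSet {Z : ℕ → Bool | gaS Z i = τ} := by
  classical
  induction i with
  | zero =>
    intro τ
    by_cases h : [] = τ
    · have h1 : {Z : ℕ → Bool | gaS Z 0 = τ} = Set.univ := by
        ext Z
        exact ⟨fun _ => trivial, fun _ => h⟩
      rw [h1]
      exact MeasurableSet.univ
    · have h1 : {Z : ℕ → Bool | gaS Z 0 = τ} = ∅ := by
        ext Z
        exact ⟨fun h2 => absurd h2 h, fun h2 => h2.elim⟩
      rw [h1]
      exact MeasurableSet.empty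
  | succ i ih =>
    intro τ
    have hm : ∀ c, MeasurableSet {Z : ℕ → Bool | GaQ Z i (gaS Z i) c} := by
      intro c
      have h1 : {Z : ℕ → Bool | GaQ Z i (gaS Z i) c} = ⋃ σ : List Bool,
          ({Z : ℕ → Bool | gaS Z i = σ} ∩ {Z : ℕ → Bool | GaQ Z i σ c}) := by
        ext Z
        rw [Set.mem_iUnion]
        constructor
        · intro h
          exact ⟨gaS Z i, rfl, h⟩
        · rintro ⟨σ, h2, h3⟩
          have h2' : gaS Z i = σ := h2
          subst h2'
          exact h3
      rw [h1]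
      exact MeasurableSet.iUnion fun σ => (ih σ).inter (ga_q i σ c)
    have h2 : Measurable fun Z : ℕ → Bool => Nat.find (ga_ex Z i (gaS Z i)) :=
      measurable_find (p := fun Z c => GaQ Z i (gaS Z i) c) (fun Z => ga_ex Z i (gaS Z i)) hm
    have h3 : {Z : ℕ → Bool | gaS Z (i + 1) = τ} =
        (fun Z : ℕ → Bool => Nat.find (ga_ex Z i (gaS Z i))) ⁻¹' {c | dl c = τ} := by
      ext Z
      rw [Set.mem_preimage]
      exact Iff.rfl
    rw [h3]
    exact h2 (MeasurableSet.of_discrete)

private theorem ga_lim_meas : Measurable fun Z : ℕ → Bool => lim (gaS Z) := by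
  rw [measurable_pi_iff]
  intro n
  refine measurable_to_bool ?_
  have h : (fun Z => lim (gaS Z) n) ⁻¹' {true} = ⋃ σ : List Bool,
      ({Z : ℕ → Bool | gaS Z (n + 1) = σ} ∩ {_Z : ℕ → Bool | (σ[n]?).getD false = true}) := by
    ext Z
    rw [Set.mem_preimage, Set.mem_singleton_iff, Set.mem_iUnion]
    constructor
    · intro h
      exact ⟨gaS Z (n + 1), rfl, h⟩
    · rintro ⟨σ, h2, h3⟩
      have h2' : gaS Z (n + 1) = σ := h2
      subst h2'
      exact h3
  rw [h]
  exact MeasurableSet.iUnion fun σ => (gaS_meas (n + 1) σ).inter (MeasurableSet.const _)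

theorem exists_gamma (M : ℕ) : ∃ Γ : (ℕ → Bool) → (ℕ → Bool), Measurable Γ ∧
    ∀ t, Gen (jmp M t) (Γ t) := by
  refine ⟨fun t => lim (gaS (jmp M t)), ga_lim_meas.comp (measurable_jmp M), fun t => ?_⟩
  refine gen_of_dec fun i => ⟨(gaS (jmp M t) (i + 1)).length, ?_⟩
  have h := Ext_lim (gaS (jmp M t)) (fun i => (gaS_spec _ i).1.1) (fun i => (gaS_spec _ i).1.2) (i + 1)
  have h1 : pre (lim (gaS (jmp M t))) (gaS (jmp M t) (i + 1)).length = gaS (jmp M t) (i + 1) := h
  rw [h1]
  exact (gaS_spec _ i).2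

end Pool.Agent.Mart
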