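import Pool.Agent.Lib.MJump.GenLem

/-!
# Module GenProd: products of generic reals  (about 170 lines)

PROOF of `gen_prod`. Let `S` be decidable in `Z`; suppose `¬ S (pre (bjoin G H) m)` for all `m`; we look for `m`
such that no extension of `pre (bjoin G H) m` is in `S`.
Step 1. `S' η := ∃ k < 2 * η.length + 1, S (pre (bjoin G (ext η)) k)` is decidable in `bjoin Z G`
(`(η, k) ↦ encode (pre (bjoin G (ext η)) k)` is computable in `G`, primitive recursion as in `ci_pre`; `DI.bex`).
If `Ext η H` and `k ≤ 2 * η.length` then `pre (bjoin G (ext η)) k = pre (bjoin G H) k` (bit `j < k` of the join reads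
`H` at `j / 2 < η.length`). So `S' (pre H m)` never holds, and the genericity of `H` over `bjoin Z G` gives `m₀` with
(*) `∀ η, pre H m₀ <+: η → ¬ S' η`.
Step 2. `R (σ, s) := pre H m₀ <+: dl s ∧ ∃ k < 2 * min σ.length (dl s).length + 1,
S (pre (bjoin (ext σ) (ext (dl s))) k)` is decidable in `Z` (`<+:` with the fixed string `pre H m₀` is decidable:
`List.isPrefixOf`, or `(dl s).take m₀ = pre H m₀`). By `gen_sigma` for `G` over `Z` either some
`R (pre G m, s)` holds: then with `η = dl s` and `k ≤ 2 * min m η.length` we have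
`pre (bjoin (ext (pre G m)) (ext η)) k = pre (bjoin G (ext η)) k` (bits `j < k` read `G` at `j / 2 < m`), so `S' η`
with `pre H m₀ <+: η`, contradicting (*). Or there is `m₁` with (**) `∀ σ, pre G m₁ <+: σ → ∀ s, ¬ R (σ, s)`.
Step 3. `m := 2 * max m₀ m₁` works. Let `τ` extend `pre (bjoin G H) m` and suppose `S τ`. Let `l = τ.length ≥ m`,
`σ = pre (fun i => ext τ (2 * i)) l`, `η = pre (fun i => ext τ (2 * i + 1)) l`. Then
`pre (bjoin (ext σ) (ext η)) l = τ` (bit `j < l` is `ext τ j`; `j / 2 < l`; `Ext_ext`), `pre G m₁ <+: σ` (for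
`i < m₁`, `2 * i < m`, `ext τ (2 * i) = bjoin G H (2 * i) = G i`) and `pre H m₀ <+: η` (for `i < m₀`,
`2 * i + 1 < m`). As `l ≤ 2 * min l l`, `R (σ, encode η)` holds, contradicting (**).
-/

set_option autoImplicit false

namespace Pool.Agent.Mart

open Pool.Agent.GammaZero Encodable

/-- initial segments of a computable family of reals -/
private theorem fampre {O : Set (ℕ →. ℕ)} {α : Type} [Primcodable α] {R : α → ℕ → Bool}
    (hR : CI O (fun p : α × ℕ => (R p.1 p.2).toNat)) :
    CI O (fun p : α × ℕ => encode (pre (R p.1) p.2)) := by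
  have h1 : CI O (fun p : α × ℕ × ℕ =>
      encode (dl p.2.2 ++ [decide ((R p.1 p.2.1).toNat = 1)])) := by
    have h2 : Computable₂ fun (c b : ℕ) => encode (dl c ++ [decide (b = 1)]) := by
      have h3 : Computable fun p : ℕ × ℕ => decide (p.2 = 1) :=
        ((Primrec.eq.comp Primrec.snd (Primrec.const 1)).decide).to_comp
      have h4 : Computable fun p : ℕ × ℕ => dl p.1 := dl_computable.comp Computable.fst
      exact Computable.encode.comp (Computable.list_append.comp h4
        (Computable.list_cons.comp h3 (Computable.const [])))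
    have h5 : CI O (fun p : α × ℕ × ℕ => (R p.1 p.2.1).toNat) :=
      hR.comp_computable (g := fun p : α × ℕ × ℕ => (p.1, p.2.1))
        (Computable.fst.pair (Computable.fst.comp Computable.snd))
    exact CI.comp₂ (h := fun c b => encode (dl c ++ [decide (b = 1)]))
      h2 (CI.of_computable (Computable.snd.comp Computable.snd)) h5
  have h2 := CI.natRec (CI.const (O := O) (α := α) (encode ([] : List Bool))) h1
  refine h2.congr fun p => ?_
  obtain ⟨a, n⟩ := p
  show encode (pre (R a) n) = Nat.rec (encode ([] : List Bool)) (fun y ih =>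
      encode (dl ih ++ [decide ((R a y).toNat = 1)])) n
  induction n with
  | zero => rfl
  | succ n ih =>
    rw [pre_succ]
    show _ = encode (dl (Nat.rec (encode ([] : List Bool)) (fun y ih =>
      encode (dl ih ++ [decide ((R a y).toNat = 1)])) n) ++ [decide ((R a n).toNat = 1)])
    rw [← ih, dl_encode]
    cases R a n <;> rfl

/-- bits of the eventually zero real, as numbers -/
private def extn (p : List Bool × ℕ) : ℕ := (ext p.1 p.2).toNat

private theorem ext_comp : Computable extn := by
  have h1 : Computable fun p : List Bool × ℕ => (p.1[p.2]? : Option Bool) :=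
    Computable.list_getElem?
  have h2 : Computable fun p : List Bool × ℕ => ext p.1 p.2 :=
    Computable.option_getD h1 (Computable.const false)
  exact (Primrec.dom_finite Bool.toNat).to_comp.comp h2

private theorem ext_agree {ρ : List Bool} {G : ℕ → Bool} (h : Ext ρ G) {k : ℕ}
    (hk : k < ρ.length) : ext ρ k = G k := by
  unfold ext
  rw [(Ext_iff ρ G).1 h k hk]
  rfl

/-- the join of two families of reals computable from `O` -/
private theorem ci_join {O : Set (ℕ →. ℕ)} {α : Type} [Primcodable α] {A B : α → ℕ → Bool}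
    (hA : CI O (fun p : α × ℕ => (A p.1 (p.2 / 2)).toNat))
    (hB : CI O (fun p : α × ℕ => (B p.1 (p.2 / 2)).toNat)) :
    CI O (fun p : α × ℕ => (bjoin (A p.1) (B p.1) p.2).toNat) := by
  have h2 : DI O (fun p : α × ℕ => p.2 % 2 = 0) :=
    DI.eq (CI.mod (CI.of_computable Computable.snd) (CI.const 2)) (CI.const 0)
  refine (CI.ite h2 hA hB).congr fun p => ?_
  unfold bjoin
  split_ifs <;> rfl

private theorem hdiv {α : Type} [Primcodable α] : Computable (fun p : α × ℕ => p.2 / 2) :=
  Primrec.nat_div.to_comp.comp Computable.snd (Computable.const 2)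

/-- composition of a predicate on strings with computed strings -/
private theorem di_str {O : Set (ℕ →. ℕ)} {α : Type} [Primcodable α] {S : List Bool → Prop}
    (hS : DI O S) {f : α → List Bool} (hf : CI O (fun a => encode (f a))) :
    DI O (fun a => S (f a)) := by
  obtain ⟨g, hg, h1, h2⟩ := hS
  have h3 : CI O (fun c : ℕ => g (dl c)) := hg.comp_computable dl_computable
  refine ⟨fun a => g (f a), ?_, fun a => h1 _, fun a => h2 _⟩
  refine (CI.comp h3 hf).congr fun a => ?_
  rw [dl_encode]

private theorem pre_join {A B A' B' : ℕ → Bool} {n k : ℕ} (hk : k ≤ 2 * n)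
    (hA : ∀ i < n, A i = A' i) (hB : ∀ i < n, B i = B' i) :
    pre (bjoin A B) k = pre (bjoin A' B') k := by
  rw [pre_eq_iff]
  intro j hj
  unfold bjoin
  rw [hA _ (by omega), hB _ (by omega)]

theorem gen_prod {Z G H : ℕ → Bool} (hG : Gen Z G) (hH : Gen (bjoin Z G) H) :
    Gen Z (bjoin G H) := by
  intro S hS
  by_cases hm : ∃ m, S (pre (bjoin G H) m)
  · exact Or.inl hm
  right
  push Not at hm
  have hZ : TR Z (bjoin Z G) := tr_bjoin_left _ _
  have hGj : TR G (bjoin Z G) := tr_bjoin_right _ _
  -- Step 1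
  have c1 : CI {orc (bjoin Z G)} (fun p : List Bool × ℕ =>
      (bjoin G (ext p.1) p.2).toNat) := by
    refine ci_join (A := fun _ : List Bool => G) (B := fun η => ext η) ?_ ?_
    · exact ci_orc_comp hGj (CI.of_computable hdiv)
    · have hp : Computable (fun p : List Bool × ℕ => (p.1, p.2 / 2)) :=
        Computable.fst.pair hdiv
      have he : Computable (fun p : List Bool × ℕ => extn (p.1, p.2 / 2)) := ext_comp.comp hp
      exact CI.of_computable he
  have c2 := fampre (R := fun η : List Bool => bjoin G (ext η)) c1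
  have d1 : DI {orc (bjoin Z G)} (fun η : List Bool =>
      ∃ k < 2 * η.length + 1, S (pre (bjoin G (ext η)) k)) := by
    refine DI.bex (p := fun p : List Bool × ℕ => S (pre (bjoin G (ext p.1)) p.2))
      (b := fun η : List Bool => 2 * η.length + 1) ?_ ?_
    · exact di_str (di_tr hS hZ) c2
    · exact CI.add (CI.mul (CI.const 2) (CI.of_computable Computable.list_length)) (CI.const 1)
  have h1 : ∀ m, ¬ ∃ k < 2 * (pre H m).length + 1, S (pre (bjoin G (ext (pre H m))) k) := by
    rintro m ⟨k, hk, hS'⟩
    apply hm k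
    rw [pre_length] at hk
    have h2 : pre (bjoin G (ext (pre H m))) k = pre (bjoin G H) k :=
      pre_join (n := m) (by omega) (fun _ _ => rfl)
        (fun i hi => ext_agree (Ext_pre H m) (by rw [pre_length]; exact hi))
    rw [← h2]
    exact hS'
  obtain ⟨m₀, hm₀⟩ : ∃ m, ∀ τ, pre H m <+: τ →
      ¬ ∃ k < 2 * τ.length + 1, S (pre (bjoin G (ext τ)) k) := by
    rcases hH _ d1 with ⟨m, h⟩ | h
    · exact absurd h (h1 m)
    · exact h
  -- Step 2
  have happ : Computable (fun p : List Bool × ℕ => pre H m₀ ++ dl p.2) :=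
    Computable.list_append.comp (Computable.const _) (dl_computable.comp Computable.snd)
  have c3 : CI {orc Z} (fun q : (List Bool × ℕ) × ℕ =>
      (bjoin (ext q.1.1) (ext (pre H m₀ ++ dl q.1.2)) q.2).toNat) := by
    refine ci_join (A := fun p : List Bool × ℕ => ext p.1)
      (B := fun p : List Bool × ℕ => ext (pre H m₀ ++ dl p.2)) ?_ ?_
    · have hp : Computable (fun q : (List Bool × ℕ) × ℕ => (q.1.1, q.2 / 2)) :=
        (Computable.fst.comp Computable.fst).pair hdiv
      have he : Computable (fun q : (List Bool × ℕ) × ℕ => extn (q.1.1, q.2 / 2)) :=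
        ext_comp.comp hp
      exact CI.of_computable he
    · have hp : Computable (fun q : (List Bool × ℕ) × ℕ => (pre H m₀ ++ dl q.1.2, q.2 / 2)) :=
        (happ.comp Computable.fst).pair hdiv
      have he : Computable (fun q : (List Bool × ℕ) × ℕ =>
          extn (pre H m₀ ++ dl q.1.2, q.2 / 2)) := ext_comp.comp hp
      exact CI.of_computable he
  have c4 := fampre (R := fun p : List Bool × ℕ => bjoin (ext p.1) (ext (pre H m₀ ++ dl p.2))) c3
  have d2 : DI {orc Z} (fun p : List Bool × ℕ =>
      ∃ k < 2 * min p.1.length (pre H m₀ ++ dl p.2).length + 1,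
        S (pre (bjoin (ext p.1) (ext (pre H m₀ ++ dl p.2))) k)) := by
    refine DI.bex (p := fun q : (List Bool × ℕ) × ℕ =>
        S (pre (bjoin (ext q.1.1) (ext (pre H m₀ ++ dl q.1.2))) q.2))
      (b := fun p : List Bool × ℕ => 2 * min p.1.length (pre H m₀ ++ dl p.2).length + 1) ?_ ?_
    · exact di_str hS c4
    · refine CI.add (CI.mul (CI.const 2) (CI.comp₂ (h := fun a b => min a b)
        Primrec.nat_min.to_comp (CI.of_computable ?_) (CI.of_computable ?_))) (CI.const 1)
      · exact Computable.list_length.comp Computable.fst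
      · exact Computable.list_length.comp happ
  rcases gen_sigma hG d2 with ⟨m, s, k, hk, hS'⟩ | ⟨m₁, hm₁⟩
  · exfalso
    simp only [pre_length] at hk
    have h2 : pre (bjoin (ext (pre G m)) (ext (pre H m₀ ++ dl s))) k =
        pre (bjoin G (ext (pre H m₀ ++ dl s))) k :=
      pre_join (n := m) (by omega)
        (fun i hi => ext_agree (Ext_pre G m) (by rw [pre_length]; exact hi)) (fun _ _ => rfl)
    apply hm₀ _ (List.prefix_append (pre H m₀) (dl s))
    refine ⟨k, by omega, ?_⟩
    rw [← h2]
    exact hS'
  -- Step 3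
  refine ⟨2 * max m₀ m₁, fun τ hτ hSτ => ?_⟩
  have hE : Ext (pre (bjoin G H) (2 * max m₀ m₁)) (ext τ) := Ext_mono hτ (Ext_ext τ)
  rw [Ext_iff_pre] at hE
  have hl : 2 * max m₀ m₁ ≤ τ.length := by
    have := hτ.length_le
    rwa [pre_length] at this
  have e1 : ∀ i < max m₀ m₁, ext τ (2 * i) = G i := by
    intro i hi
    rw [hE _ (by omega)]
    unfold bjoin
    rw [if_pos (by omega), show 2 * i / 2 = i by omega]
  have e2 : ∀ i < max m₀ m₁, ext τ (2 * i + 1) = H i := by
    intro i hi
    rw [hE _ (by omega)]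
    unfold bjoin
    rw [if_neg (by omega), show (2 * i + 1) / 2 = i by omega]
  have p1 : pre G m₁ <+: pre (fun i => ext τ (2 * i)) τ.length := by
    have h3 : pre G m₁ = pre (fun i => ext τ (2 * i)) m₁ := by
      rw [pre_eq_iff]
      intro i hi
      exact (e1 i (lt_of_lt_of_le hi (le_max_right _ _))).symm
    rw [h3]
    exact pre_prefix _ (by have := le_max_right m₀ m₁; omega)
  have p2 : pre H m₀ <+: pre (fun i => ext τ (2 * i + 1)) τ.length := by
    have h3 : pre H m₀ = pre (fun i => ext τ (2 * i + 1)) m₀ := by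
      rw [pre_eq_iff]
      intro i hi
      exact (e2 i (lt_of_lt_of_le hi (le_max_left _ _))).symm
    rw [h3]
    exact pre_prefix _ (by have := le_max_left m₀ m₁; omega)
  obtain ⟨r, hr⟩ := p2
  apply hm₁ _ p1 (encode r)
  refine ⟨τ.length, ?_, ?_⟩
  · simp only [dl_encode, hr, pre_length]
    omega
  · show S (pre (bjoin (ext (pre (fun i => ext τ (2 * i)) τ.length))
      (ext (pre H m₀ ++ dl (encode r)))) τ.length)
    rw [dl_encode, hr]
    have h4 : pre (bjoin (ext (pre (fun i => ext τ (2 * i)) τ.length))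
      (ext (pre (fun i => ext τ (2 * i + 1)) τ.length))) τ.length = τ := by
      have h5 : pre (ext τ) τ.length = τ := Ext_ext τ
      refine Eq.trans ?_ h5
      rw [pre_eq_iff]
      intro j hj
      have h6 : ∀ i < τ.length, ext (pre (fun i => ext τ (2 * i)) τ.length) i =
          ext τ (2 * i) := fun i hi =>
        ext_agree (Ext_pre (fun i => ext τ (2 * i)) τ.length) (by rw [pre_length]; exact hi)
      have h7 : ∀ i < τ.length, ext (pre (fun i => ext τ (2 * i + 1)) τ.length) i =
          ext τ (2 * i + 1) := fun i hi =>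
        ext_agree (Ext_pre (fun i => ext τ (2 * i + 1)) τ.length) (by rw [pre_length]; exact hi)
      unfold bjoin
      by_cases h8 : j % 2 = 0
      · rw [if_pos h8, h6 _ (by omega), show 2 * (j / 2) = j by omega]
      · rw [if_neg h8, h7 _ (by omega), show 2 * (j / 2) + 1 = j by omega]
    rw [h4]
    exact hSτ

end Pool.Agent.Mart
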