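import Pool.Agent.Lib.MJump.Inv
import Pool.Agent.Lib.MJump.Gamma
import Pool.Agent.Lib.MJump.GenProd

/-!
# Module Case1: the case constant on generic reals  (about 170 lines)

PROOFS.
`iter_jmp`: induction on `K` (`jmp (m * (K + 1)) A = jmp m (jmp (m * K) A)` by `jmp_add`, and `C ≤ A ≤ jmp (m * K) A`, `tr_jmp`).
`bjoin_jmp_eqv`: `i = 0`: `jmp 0 = id`. `i = j + 1`: `jmp_bjoin` (from `h j`) and `bjoin_jmp`.
`case_const`. Let `M' = m * (N + 1) - 1`, so `M' + 1 = m * (N + 1)` and `N ≤ M'`. Let `Γ` be the Borel map of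
`exists_gamma M'` and `F t = φ (bjoin t (Γ t))`; `F` is Borel (`t ↦ bjoin t (Γ t)` is Borel coordinatewise).
(1) For `t ≥ C` and `G` generic over `jmp M' t`: `φ (bjoin t G) ≡ F t` (`hconst` both ways, `Gen.mono` with
`jmp_tr_jmp`).
(2) For `t ≥ C` and `c ≥ jmp (M' + 1) t`: `F t ≤ φ c`. By `jump_inv` there is `G` generic over `jmp M' t` with
`jmp (M' + 1) (bjoin t G) ≡ c`; `F t ≤ φ (bjoin t G) ≤ φ (jmp (M' + 1) (bjoin t G)) ≤ φ c` by (1), `iter_jmp`
(`C ≤ t ≤ bjoin t G`) and `hinv`.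
(3) For `A ≥ C` and `B ≥ jmp (M' + 1) A`: `F A ≤ φ (bjoin B (Γ B)) = F B` by (2) with `c = bjoin B (Γ B)`.
By (3), `martin_of_modulus` (T1.lean) applies to `F` with `h = jmp (M' + 1)` (Borel by `measurable_jmp`, so
`Measurable.aemeasurable`). Two cases.
(4) There are `C'' D` with `F A ≡ D` for all `A ≥ C''`. Put `C' = bjoin C (jmp (M' + 1) (bjoin C C''))`. Let `B ≥ C'`. Then
`D ≤ F (bjoin C C'') ≤ φ B` by (2). Let `G` be generic over all `jmp i B`. `jmp i (bjoin B G) ≡ bjoin (jmp i B) G`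
(`bjoin_jmp_eqv`), so `φ (jmp i (bjoin B G)) ≤ φ (bjoin (jmp i B) G) ≤ F (jmp i B) ≤ D` by `hinv`, (1) with `t = jmp i B`
(`G` is generic over `jmp M' (jmp i B) = jmp (M' + i) B`, `jmp_add`; `jmp i B ≥ B ≥ C`) and `jmp i B ≥ C''`.
(5) There is `C''` with `A ≤ F A` for all `A ≥ C''`: impossible. Let `t = bjoin C C''`, `X = bjoin (jmp (M' + 1) t) (F t)`,
`c₀` with `¬ TR c₀ X` (`exists_not_tr`), `c = bjoin (jmp (M' + 1) t) c₀`. By `jump_inv` there is `G`, generic over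
`jmp M' t`, with `c ≤ bjoin (jmp (M' + 1) t) G`. Let `s = bjoin t G`. `Γ s` is generic over `jmp M' s`, so over
`bjoin (jmp M' t) G` (`bjoin_jmp`, `Gen.mono`), so by `gen_prod` `bjoin G (Γ s)` is generic over `jmp M' t`. Hence
`G ≤ s ≤ F s = φ (bjoin (bjoin t G) (Γ s)) ≤ φ (bjoin t (bjoin G (Γ s))) ≤ F t ≤ X` (associativity of the join up to
`Eqv`: `bjoin_tr`, `hinv`; (1)). So `c₀ ≤ c ≤ bjoin (jmp (M' + 1) t) G ≤ X`, contradiction.
-/

set_option autoImplicit false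

namespace Pool.Agent.Mart

open Pool.Agent.GammaZero Encodable

theorem iter_jmp {φ : (ℕ → Bool) → (ℕ → Bool)} {C : ℕ → Bool} {m : ℕ}
    (hC : ∀ A, TR C A → TR (φ A) (φ (jmp m A))) (K : ℕ) {A : ℕ → Bool} (hA : TR C A) :
    TR (φ A) (φ (jmp (m * K) A)) := by
  induction K with
  | zero => exact TR.refl _
  | succ K ih =>
    have h1 := hC (jmp (m * K) A) (hA.trans (tr_jmp A (m * K)))
    rw [← jmp_add, Nat.add_comm m (m * K), ← Nat.mul_succ] at h1
    exact ih.trans h1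

theorem bjoin_jmp_eqv {B G : ℕ → Bool} (h : ∀ i, Gen (jmp i B) G) (i : ℕ) :
    Eqv (jmp i (bjoin B G)) (bjoin (jmp i B) G) := by
  cases i with
  | zero => exact Eqv.refl _
  | succ j => exact ⟨jmp_bjoin (h j), bjoin_jmp B G (j + 1)⟩

private theorem case1_assoc (A B C : ℕ → Bool) :
    Eqv (bjoin (bjoin A B) C) (bjoin A (bjoin B C)) := by
  constructor
  · exact bjoin_tr (bjoin_tr (tr_bjoin_left _ _)
      ((tr_bjoin_left B C).trans (tr_bjoin_right _ _)))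
      ((tr_bjoin_right B C).trans (tr_bjoin_right _ _))
  · exact bjoin_tr ((tr_bjoin_left A B).trans (tr_bjoin_left _ _))
      (bjoin_tr ((tr_bjoin_right A B).trans (tr_bjoin_left _ _)) (tr_bjoin_right _ _))

private theorem case1_meas {Γ : (ℕ → Bool) → (ℕ → Bool)} (hΓ : Measurable Γ) :
    Measurable (fun t => bjoin t (Γ t)) := by
  rw [measurable_pi_iff]
  intro n
  unfold bjoin
  by_cases h : n % 2 = 0
  · simp only [h, if_true]
    exact measurable_pi_apply _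
  · simp only [h, if_false]
    exact (measurable_pi_apply _).comp hΓ

theorem case_const {φ : (ℕ → Bool) → (ℕ → Bool)} {N m : ℕ} {C : ℕ → Bool} (hφ : Measurable φ)
    (hinv : ∀ A B, Eqv A B → TR (φ A) (φ B)) (hm : 1 ≤ m)
    (hC : ∀ A, TR C A → TR (φ A) (φ (jmp m A)))
    (hconst : ∀ t, TR C t → ∀ G H, Gen (jmp N t) G → Gen (jmp N t) H →
      TR (φ (bjoin t G)) (φ (bjoin t H))) :
    ∃ C' D : ℕ → Bool, ∀ B, TR C' B → TR D (φ B) ∧
      ∀ G, (∀ i, Gen (jmp i B) G) → ∀ i, TR (φ (jmp i (bjoin B G))) D := by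
  have hmN : 1 * (N + 1) ≤ m * (N + 1) := Nat.mul_le_mul_right _ hm
  obtain ⟨M', hM'⟩ : ∃ M', M' + 1 = m * (N + 1) := ⟨m * (N + 1) - 1, by omega⟩
  have hNM : N ≤ M' := by omega
  obtain ⟨Γ, hΓm, hΓ⟩ := exists_gamma M'
  obtain ⟨F, hF⟩ : ∃ F : (ℕ → Bool) → (ℕ → Bool), F = fun t => φ (bjoin t (Γ t)) := ⟨_, rfl⟩
  have hFt : ∀ t, F t = φ (bjoin t (Γ t)) := fun t => by rw [hF]
  have hFm : Measurable F := by
    rw [hF]
    exact hφ.comp (case1_meas hΓm)
  have h1 : ∀ t, TR C t → ∀ G, Gen (jmp M' t) G →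
      TR (φ (bjoin t G)) (F t) ∧ TR (F t) (φ (bjoin t G)) := by
    intro t ht G hG
    rw [hFt]
    have g1 := hG.mono (jmp_tr_jmp t hNM)
    have g2 := (hΓ t).mono (jmp_tr_jmp t hNM)
    exact ⟨hconst t ht G (Γ t) g1 g2, hconst t ht (Γ t) G g2 g1⟩
  have h2 : ∀ t c, TR C t → TR (jmp (M' + 1) t) c → TR (F t) (φ c) := by
    intro t c ht hc
    obtain ⟨G, hG, hE, -⟩ := jump_inv hc
    have h3 := iter_jmp hC (N + 1) (A := bjoin t G) (ht.trans (tr_bjoin_left t G))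
    rw [← hM'] at h3
    exact ((h1 t ht G hG).2.trans h3).trans (hinv _ _ hE)
  have h3 : ∀ A B, TR C A → TR (jmp (M' + 1) A) B → TR (F A) (F B) := by
    intro A B hA hB
    rw [hFt B]
    exact h2 A (bjoin B (Γ B)) hA (hB.trans (tr_bjoin_left _ _))
  rcases martin_of_modulus hFm (h := jmp (M' + 1))
    (fun μ _ => (measurable_jmp (M' + 1)).aemeasurable) (C := C) h3 with ⟨C'', D, hD⟩ | ⟨C'', hC''⟩
  · refine ⟨bjoin C (jmp (M' + 1) (bjoin C C'')), D, fun B hB => ?_⟩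
    have hCB : TR C B := (tr_bjoin_left C _).trans hB
    have hB2 : TR (jmp (M' + 1) (bjoin C C'')) B := (tr_bjoin_right _ _).trans hB
    have hCB'' : TR C'' B :=
      ((tr_bjoin_right C C'').trans (tr_jmp (bjoin C C'') (M' + 1))).trans hB2
    refine ⟨(hD (bjoin C C'') (tr_bjoin_right C C'')).2.trans
      (h2 (bjoin C C'') B (tr_bjoin_left C C'') hB2), ?_⟩
    intro G hG i
    have hG' : Gen (jmp M' (jmp i B)) G := by
      rw [← jmp_add]
      exact hG (M' + i)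
    exact ((hinv _ _ (bjoin_jmp_eqv hG i)).trans
      (h1 (jmp i B) (hCB.trans (tr_jmp B i)) G hG').1).trans
      (hD (jmp i B) (hCB''.trans (tr_jmp B i))).1
  · exfalso
    obtain ⟨t, ht⟩ : ∃ t, t = bjoin C C'' := ⟨_, rfl⟩
    have hCt : TR C t := by rw [ht]; exact tr_bjoin_left _ _
    have hCt'' : TR C'' t := by rw [ht]; exact tr_bjoin_right _ _
    obtain ⟨c₀, hc₀⟩ := exists_not_tr (bjoin (jmp (M' + 1) t) (F t))
    obtain ⟨G, hG, -, hcG⟩ := jump_inv (t := t) (c := bjoin (jmp (M' + 1) t) c₀) (M := M')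
      (tr_bjoin_left _ _)
    have hΓs : Gen (bjoin (jmp M' t) G) (Γ (bjoin t G)) := (hΓ (bjoin t G)).mono (bjoin_jmp t G M')
    have hgp := gen_prod hG hΓs
    have hs : TR (bjoin t G) (F (bjoin t G)) := hC'' _ (hCt''.trans (tr_bjoin_left t G))
    have hFs : TR (F (bjoin t G)) (F t) := by
      rw [hFt (bjoin t G)]
      exact (hinv _ _ (case1_assoc t G (Γ (bjoin t G)))).trans (h1 t hCt _ hgp).1
    have hGX : TR G (bjoin (jmp (M' + 1) t) (F t)) :=
      (((tr_bjoin_right t G).trans hs).trans hFs).trans (tr_bjoin_right _ _)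
    exact hc₀ (((tr_bjoin_right (jmp (M' + 1) t) c₀).trans hcG).trans
      (bjoin_tr (tr_bjoin_left _ _) hGX))

end Pool.Agent.Mart
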