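import Pool.Agent.Lib.MJump.GenLem

/-!
# Module ConstGen: a name which is not nowhere constant gives a function constant (up to Turing
equivalence) on generic reals  (about 80 lines)

PROOF. `¬ NC Y` gives `σ` such that for all `ρ₀ ρ₁` extending `σ` and all `n` not both `Y ρ₀ n true` and `Y ρ₁ n false`.
Let `G' = patch σ G`, `H' = patch σ H`, generic over `Z` (`Gen.patch`). Claim `f G' = f H'`: let `n` be given; take `m, m'`
from `ht` for `G'`, `H'` and enlarge them to be `≥ σ.length` (`hY.mono`, `pre_prefix`), so that both `pre G' m` and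
`pre H' m'` extend `σ` (`prefix_pre (Ext_patch ..)`). If `f G' n ≠ f H' n` one value is `true` and the other
`false`, contradiction with the choice of `σ`. By `hinv` (`patch_tr`, `tr_patch`) `f G ≤ f G'` and `f H' ≤ f H`.
-/

set_option autoImplicit false

namespace Pool.Agent.Mart

open Pool.Agent.GammaZero Encodable

private theorem pre_pre {G : ℕ → Bool} {m m' : ℕ} (h : m ≤ m') : pre G m <+: pre G m' := by
  refine prefix_pre (σ := pre G m) (α := G) ?_ ?_
  · unfold Ext
    rw [pre_length]
  · rw [pre_length]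
    exact h

theorem const_of_not_nc {Z : ℕ → Bool} {Y : List Bool → ℕ → Bool → Prop} (hY : Name Y)
    {f : (ℕ → Bool) → (ℕ → Bool)} (ht : ∀ G, Gen Z G → ∀ i, ∃ m, Y (pre G m) i (f G i))
    (hinv : ∀ (σ : List Bool) (G : ℕ → Bool), Eqv (f (patch σ G)) (f G)) (hNC : ¬ NC Y)
    {G H : ℕ → Bool} (hG : Gen Z G) (hH : Gen Z H) : TR (f G) (f H) := by
  unfold NC at hNC
  push Not at hNC
  obtain ⟨σ, hσ⟩ := hNC
  have hG' : Gen Z (patch σ G) := hG.patch σ
  have hH' : Gen Z (patch σ H) := hH.patch σ
  have claim : f (patch σ G) = f (patch σ H) := by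
    funext n
    obtain ⟨m, hm⟩ := ht _ hG' n
    obtain ⟨m', hm'⟩ := ht _ hH' n
    have h1 := hY.mono _ (pre (patch σ G) (max m σ.length)) n _ (pre_pre (le_max_left _ _)) hm
    have h2 := hY.mono _ (pre (patch σ H) (max m' σ.length)) n _ (pre_pre (le_max_left _ _)) hm'
    have h3 : σ <+: pre (patch σ G) (max m σ.length) :=
      prefix_pre (Ext_patch σ G) (le_max_right _ _)
    have h4 : σ <+: pre (patch σ H) (max m' σ.length) :=
      prefix_pre (Ext_patch σ H) (le_max_right _ _)
    cases hg : f (patch σ G) n <;> cases hh : f (patch σ H) n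
    · rfl
    · rw [hg] at h1
      rw [hh] at h2
      exact absurd h1 (hσ _ _ n h4 h3 h2)
    · rw [hg] at h1
      rw [hh] at h2
      exact absurd h2 (hσ _ _ n h3 h4 h1)
    · rfl
  have h5 := (hinv σ G).2
  have h6 := (hinv σ H).1
  rw [claim] at h5
  exact h5.trans h6

end Pool.Agent.Mart
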