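import Pool.Agent.Lib.MJump.JEx

/-!
# Module GenLem: basic facts on 1-generic reals  (about 200 lines)

PROOFS.
`Gen.mono`: `di_tr`.
`Wset` is closed under extensions: `Wset_mono`: with `k ≤ ρ.length`, `(τ.take k) = ρ.take k` when
`ρ <+: τ`. `Dec_mono`: from `Wset_mono`; second alternative clear.
`gen_of_dec`: let `S` be decidable in `Z`. Apply `halt_index` to `R (ρ, s) := S ρ`: there is `e` with
`S ρ ↔ ∃ s, res Z e (encode ρ) s ≠ 0`. Take `m` with `Dec Z e (pre G m)`. If `Wset Z e (pre G m)`, then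
`(pre G m).take k = pre G (min k m)` is in `S`. If no extension `τ` of `pre G m` is in `Wset Z e`, then no
extension `τ` of `pre G m` is in `S`: otherwise `res Z e (encode τ) s ≠ 0` for some `s`, and
`τ' = τ ++ List.replicate (s + 1) false` is in `Wset Z e` with `k = τ.length`
(`List.take_left`), contradiction.
`gen_sigma`: the set `S ρ := ∃ k < ρ.length + 1, ∃ s < ρ.length, R (ρ.take k, s)` is decidable in `Z`
(`DI.bex` twice, `List.take` is computable: `Primrec.list_take`? or write `ρ.take k` through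
`pre (ext ρ) k` if easier; any proof is fine). Apply `Gen` to `S`; same padding argument.
`patch_tr`, `tr_patch`: the two reals agree from `σ.length` on: `(patch σ G n).toNat` is, by cases on
`n < σ.length`, a computable function of `n` or `G n` (`CI.ite`, `ci_orc_comp`); for `tr_patch` use the
finite table `pre G σ.length` (`G = patch (pre G σ.length) (patch σ G)`).
`Gen.patch`: let `S` be decidable in `Z` and `S' ρ := σ.length ≤ ρ.length ∧ S (σ ++ ρ.drop σ.length)`, decidable
in `Z`. Apply `Gen Z G` to `S'`. If `S' (pre G m)`, then `σ ++ (pre G m).drop σ.length = pre (patch σ G) m`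
(`m ≥ σ.length`), so `S (pre (patch σ G) m)`. Otherwise `∀ τ ⊇ pre G m, ¬ S' τ`; take
`m' = max m σ.length`; every extension `τ` of `pre (patch σ G) m'` is `σ ++ τ.drop σ.length`, and
`pre G σ.length ++ τ.drop σ.length` extends `pre G m`, so `¬ S τ`.
`dec_dense`: for every `ρ` there is `τ ⊇ ρ` with `Dec Z i τ` (excluded middle).
`gen_residual`: for each `i` the set `{G | ∃ m, Dec Z i (pre G m)}` is open (union of the cylinders
`{G | pre G m = ρ}`, see `isOpen_cyl` in Cont.lean) and dense (`dec_dense`: a nonempty open set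
contains a cylinder `{α | Ext (pre A m) α}`; take `τ ⊇ pre A m` with `Dec Z i τ` and `G = ext τ`), so it is
in `residual` (`residual_of_dense_open`); conclude by `eventually_countable_forall` and `gen_of_dec`.
-/

set_option autoImplicit false

namespace Pool.Agent.Mart

open Pool.Agent.GammaZero Encodable

private theorem gl_take_pre (G : ℕ → Bool) {k m : ℕ} (h : k ≤ m) : (pre G m).take k = pre G k := by
  have h1 := pre_prefix G h
  rw [List.prefix_iff_eq_take, pre_length] at h1
  exact h1.symm

private theorem gl_take_prefix {ρ τ : List Bool} (h : ρ <+: τ) {k : ℕ} (hk : k ≤ ρ.length) :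
    τ.take k = ρ.take k := by
  obtain ⟨r, rfl⟩ := h
  exact List.take_append_of_le_length hk

private theorem gl_open {S : Set (ℕ → Bool)} (hS : IsOpen S) {A : ℕ → Bool} (hA : A ∈ S) :
    ∃ m, ∀ α : ℕ → Bool, (∀ k < m, α k = A k) → α ∈ S := by
  rw [isOpen_pi_iff] at hS
  obtain ⟨I, w, hI, hw⟩ := hS A hA
  refine ⟨I.sup (fun i => i + 1), fun α hα => ?_⟩
  apply hw
  intro i hi
  have : i < I.sup (fun i => i + 1) :=
    lt_of_lt_of_le (Nat.lt_succ_self i) (Finset.le_sup (f := fun i => i + 1) hi)
  rw [hα i this]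
  exact (hI i hi).2

theorem Gen.mono {Z Z' G : ℕ → Bool} (h : Gen Z G) (h' : TR Z' Z) : Gen Z' G :=
  fun S hS => h S (di_tr hS h')

theorem Wset_mono {Z : ℕ → Bool} {i : ℕ} {ρ τ : List Bool} (h : ρ <+: τ) (hW : Wset Z i ρ) :
    Wset Z i τ := by
  obtain ⟨k, hk, s, hs, hr⟩ := hW
  refine ⟨k, lt_of_lt_of_le hk (Nat.succ_le_succ h.length_le), s,
    lt_of_lt_of_le hs h.length_le, ?_⟩
  rw [gl_take_prefix h (Nat.lt_succ_iff.1 hk)]
  exact hr

theorem Dec_mono {Z : ℕ → Bool} {i : ℕ} {ρ τ : List Bool} (h : ρ <+: τ) (hW : Dec Z i ρ) :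
    Dec Z i τ := by
  rcases hW with hW | hW
  · exact Or.inl (Wset_mono h hW)
  · exact Or.inr fun σ hσ => hW σ (h.trans hσ)

theorem dec_dense (Z : ℕ → Bool) (i : ℕ) (ρ : List Bool) : ∃ τ, ρ <+: τ ∧ Dec Z i τ := by
  by_cases h : ∃ τ, ρ <+: τ ∧ Wset Z i τ
  · obtain ⟨τ, h1, h2⟩ := h
    exact ⟨τ, h1, Or.inl h2⟩
  · push Not at h
    exact ⟨ρ, List.prefix_refl ρ, Or.inr h⟩

theorem gen_of_dec {Z G : ℕ → Bool} (h : ∀ i, ∃ m, Dec Z i (pre G m)) : Gen Z G := by
  intro S hS
  have h1 : DI {orc Z} (fun q : List Bool × ℕ => S q.1) := hS.comp_computable Computable.fst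
  obtain ⟨e, he⟩ := halt_index h1
  have he' : ∀ ρ : List Bool, S ρ ↔ ∃ s, res Z e (encode ρ) s ≠ 0 := fun ρ => by
    rw [← he ρ]
    simp
  obtain ⟨m, hm⟩ := h e
  rcases hm with ⟨k, hk, s, _, hr⟩ | hm
  · left
    rw [pre_length] at hk
    rw [gl_take_pre G (Nat.lt_succ_iff.1 hk)] at hr
    exact ⟨k, (he' _).2 ⟨s, hr⟩⟩
  · right
    refine ⟨m, fun τ hτ hSτ => ?_⟩
    obtain ⟨s, hs⟩ := (he' τ).1 hSτ
    apply hm (τ ++ List.replicate (s + 1) false) (hτ.trans (List.prefix_append _ _))
    refine ⟨τ.length, ?_, s, ?_, ?_⟩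
    · rw [List.length_append, List.length_replicate]
      omega
    · rw [List.length_append, List.length_replicate]
      omega
    · rw [List.take_left']
      · exact hs
      · rfl

theorem gen_sigma {Z G : ℕ → Bool} (h : Gen Z G) {R : List Bool × ℕ → Prop}
    (hR : DI {orc Z} R) :
    (∃ m s, R (pre G m, s)) ∨ ∃ m, ∀ τ, pre G m <+: τ → ∀ s, ¬ R (τ, s) := by
  have h1 : DI {orc Z} (fun r : (List Bool × ℕ) × ℕ => R (r.1.1.take r.1.2, r.2)) := by
    refine hR.comp_computable (g := fun r : (List Bool × ℕ) × ℕ => (r.1.1.take r.1.2, r.2)) ?_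
    exact (Primrec.list_take.to_comp.comp (Computable.snd.comp Computable.fst)
      (Computable.fst.comp Computable.fst)).pair Computable.snd
  have h2 : DI {orc Z} (fun q : List Bool × ℕ => ∃ s < q.1.length, R (q.1.take q.2, s)) :=
    DI.bex h1 (CI.of_computable (Computable.list_length.comp Computable.fst))
  have h3 : DI {orc Z} (fun ρ : List Bool =>
      ∃ k < ρ.length + 1, ∃ s < ρ.length, R (ρ.take k, s)) :=
    DI.bex h2 (CI.add (CI.of_computable Computable.list_length) (CI.const 1))
  rcases h _ h3 with ⟨m, k, hk, s, _, hr⟩ | ⟨m, hm⟩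
  · left
    rw [pre_length] at hk
    rw [gl_take_pre G (Nat.lt_succ_iff.1 hk)] at hr
    exact ⟨k, s, hr⟩
  · right
    refine ⟨m, fun τ hτ s hs => ?_⟩
    apply hm (τ ++ List.replicate (s + 1) false) (hτ.trans (List.prefix_append _ _))
    refine ⟨τ.length, ?_, s, ?_, ?_⟩
    · rw [List.length_append, List.length_replicate]
      omega
    · rw [List.length_append, List.length_replicate]
      omega
    · rw [List.take_left']
      · exact hs
      · rfl

theorem patch_tr (σ : List Bool) (G : ℕ → Bool) : TR (patch σ G) G := by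
  rw [tr_iff_ci]
  have h1 : Computable fun n : ℕ => ((σ[n]?).getD false).toNat :=
    (Primrec.dom_finite Bool.toNat).to_comp.comp (Computable.option_getD
      (Computable.list_getElem?.comp (Computable.const σ) Computable.id) (Computable.const false))
  have h2 : CI {orc G} (fun n : ℕ => n) := CI.of_computable Computable.id
  refine (CI.ite (DI.lt h2 (CI.const σ.length)) (CI.of_computable h1)
    (ci_orc_comp (TR.refl G) h2)).congr fun n => ?_
  split_ifs with hn
  · rw [patch_lt hn, List.getElem?_eq_getElem hn]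
    rfl
  · rw [patch_ge (not_lt.1 hn)]

theorem tr_patch (σ : List Bool) (G : ℕ → Bool) : TR G (patch σ G) := by
  have h1 := patch_tr (pre G σ.length) (patch σ G)
  have h2 : patch (pre G σ.length) (patch σ G) = G := by
    funext n
    rcases Nat.lt_or_ge n σ.length with hn | hn
    · show ((pre G σ.length)[n]?).getD _ = _
      rw [pre_getElem? G _ _ hn]
      rfl
    · rw [patch_ge (by rw [pre_length]; exact hn), patch_ge hn]
  rw [h2] at h1
  exact h1

private theorem gl_pre_patch (σ : List Bool) (G : ℕ → Bool) {m : ℕ} (hm : σ.length ≤ m) :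
    σ ++ (pre G m).drop σ.length = pre (patch σ G) m := by
  have h1 : Ext σ (Pool.Agent.Mart.patch σ G) := Ext_patch σ G
  refine List.ext_getElem? fun k => ?_
  rcases Nat.lt_or_ge k σ.length with hk | hk
  · rw [List.getElem?_append_left hk, pre_getElem? _ _ _ (lt_of_lt_of_le hk hm)]
    exact (Ext_iff _ _).1 h1 k hk
  · rw [List.getElem?_append_right hk, List.getElem?_drop]
    have h2 : σ.length + (k - σ.length) = k := by omega
    rw [h2]
    rcases Nat.lt_or_ge k m with hkm | hkm
    · rw [pre_getElem? _ _ _ hkm, pre_getElem? _ _ _ hkm, patch_ge hk]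
    · rw [pre_getElem?_none _ _ _ hkm, pre_getElem?_none _ _ _ hkm]

theorem Gen.patch {Z G : ℕ → Bool} (h : Gen Z G) (σ : List Bool) : Gen Z (patch σ G) := by
  intro S hS
  have h1 : DI {orc Z} (fun ρ : List Bool => σ.length ≤ ρ.length ∧
      S (σ ++ ρ.drop σ.length)) := by
    refine DI.and (DI.le (CI.const _) (CI.of_computable Computable.list_length)) ?_
    refine hS.comp_computable (g := fun ρ : List Bool => σ ++ ρ.drop σ.length) ?_
    exact Computable.list_append.comp (Computable.const σ)
      (Primrec.list_drop.to_comp.comp (Computable.const σ.length) Computable.id)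
  rcases h _ h1 with ⟨m, hm, hS1⟩ | ⟨m, hm⟩
  · left
    rw [pre_length] at hm
    rw [gl_pre_patch σ G hm] at hS1
    exact ⟨m, hS1⟩
  · right
    refine ⟨max m σ.length, fun τ hτ hSτ => ?_⟩
    have hlen : σ.length ≤ max m σ.length := le_max_right _ _
    rw [← gl_pre_patch σ G hlen] at hτ
    obtain ⟨r, rfl⟩ := hτ
    have h2 := hm ((pre G (max m σ.length)) ++ r)
      ((pre_prefix G (le_max_left _ _)).trans (List.prefix_append _ _))
    apply h2
    refine ⟨?_, ?_⟩
    · rw [List.length_append, pre_length]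
      omega
    · rw [List.drop_append_of_le_length (by rw [pre_length]; exact hlen), ← List.append_assoc]
      exact hSτ

theorem gen_residual (Z : ℕ → Bool) : ∀ᶠ G in residual (ℕ → Bool), Gen Z G := by
  have h1 : ∀ i, ∀ᶠ G in residual (ℕ → Bool), ∃ m, Dec Z i (pre G m) := by
    intro i
    refine residual_of_dense_open (s := {G : ℕ → Bool | ∃ m, Dec Z i (pre G m)}) ?_ ?_
    · rw [isOpen_iff_mem_nhds]
      rintro G ⟨m, hm⟩
      refine Filter.mem_of_superset ((isOpen_cyl G m).mem_nhds fun _ _ => rfl) ?_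
      intro β hβ
      refine ⟨m, ?_⟩
      have h2 : pre β m = pre G m := (pre_eq_iff β G m).2 hβ
      rw [h2]
      exact hm
    · rw [dense_iff_inter_open]
      rintro U hU ⟨A, hA⟩
      obtain ⟨m, hm⟩ := gl_open hU hA
      obtain ⟨τ, hτ, hd⟩ := dec_dense Z i (pre A m)
      refine ⟨ext τ, hm _ ((Ext_iff_pre A m (ext τ)).1 (Ext_mono hτ (Ext_ext τ))), τ.length, ?_⟩
      have h2 : pre (ext τ) τ.length = τ := Ext_ext τ
      rw [h2]
      exact hd
  exact (eventually_countable_forall.2 h1).mono fun G hG => gen_of_dec hG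

end Pool.Agent.Mart
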