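import Pool.Agent.Lib.MJump.FamSig
import Pool.Agent.Lib.MJump.GenLem

/-!
# Module Forc: forcing for sets of finite Borel rank  (about 200 lines)

PROOFS.
`forc`: induction on `n`.
`n = 0`: table `T` and real `p` as in the proof of `fam_sig` (`T (Nat.pair i c) = 1` iff the cylinder of
`dl c` is contained in `S i`). For `t ≥ p` put
`P (ρ, i) := ∃ m < ρ.length + 1, T (Nat.pair i (encode (pre (bjoin t (ext ρ)) m))) = 1`.
Decidable in `t` (`fam_pre` for the family `ρ ↦ bjoin t (ext ρ)`: `CI {orc t}` of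
`(ρ, n) ↦ (bjoin t (ext ρ) n).toNat` by cases on `n % 2`, `ext ρ k` is a computable function of
`(ρ, k)`; then `DI.bex`). Key remark: if `m ≤ ρ.length` and `G` extends `ρ` (`Ext ρ G`) then
`pre (bjoin t G) m = pre (bjoin t (ext ρ)) m` (bit `j < m` of `bjoin t G` reads `G` at `j / 2 < ρ.length`,
`pre_eq_iff`). Monotonicity: the same remark with `G = ext τ` (`Ext_mono`, `Ext_ext`). Truth: `open_iff`:
`bjoin t G ∈ S i` iff some cylinder of `pre (bjoin t G) m` is inside `S i`; for the direction from left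
to right take `P (pre G m, i)` with the same `m` (`pre_length`, `Ext_pre`).
`n + 1`: write `S i = ⋃ j, (T i j)ᶜ`, apply the induction hypothesis to `k ↦ T k.unpair.1 k.unpair.2`;
get `p`, and for `t ≥ p` the relation `P₀`. Put
`P (ρ, i) := ∃ j < ρ.length, ∀ τ, ρ <+: τ → ¬ P₀ (τ, Nat.pair i j)`.
Decidable in `jump (jmp n t) = jmp (n + 1) t` by `forall_ext_iff` and `di_forall` (`ρ ++ dl s` is a
computable function of `ρ, s`), then `DI.bex`. Monotone: clear (`List.IsPrefix.trans`, lengths).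
Truth, for `G` generic over `jmp (n + 1) t` (so also over `jmp n t`, `Gen.mono` with
`jmp_tr_jmp`): `bjoin t G ∈ S i` iff for some `j`, `bjoin t G ∉ T i j`, i.e. for all `m`,
`¬ P₀ (pre G m, Nat.pair i j)`. If `P (pre G m, i)` with `j`, then `¬ P₀ (pre G m', Nat.pair i j)` for all `m'`
(else `P₀` holds at `pre G (max m m')` by monotonicity, `pre_prefix`). Conversely, if
`¬ P₀ (pre G m, Nat.pair i j)` for all `m`, then genericity applied to `{ρ | P₀ (ρ, Nat.pair i j)}`
gives `m` with `∀ τ ⊇ pre G m, ¬ P₀ (τ, _)`, hence `P (pre G (max m (j + 1)), i)`.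

`name_of_sig`: apply `forc` to `S i = {A | φ A i = true}` and put `Y ρ i true := P (ρ, i)`,
`Y ρ i false := ∀ τ, ρ <+: τ → ¬ P (τ, i)` (for instance `Y ρ i b := (b = true ∧ P (ρ, i)) ∨
(b = false ∧ ∀ τ, ρ <+: τ → ¬ P (τ, i))`). Name: `mono` clear, `cons` clear (`τ = ρ`), `dense` by excluded
middle. Decidable in `jump (jmp n t) = jmp (n + 1) t`. Truth: if `φ (bjoin t G) i = true` then `P (pre G m, i)`
for some `m`; if it is `false`, then `¬ P (pre G m, i)` for all `m` and genericity over `jmp n t` gives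
`m` with `∀ τ ⊇ pre G m, ¬ P (τ, i)`.
-/

set_option autoImplicit false

namespace Pool.Agent.Mart

open Pool.Agent.GammaZero Encodable

private theorem forc_ext_computable : Computable fun q : List Bool × ℕ => ext q.1 q.2 :=
  Computable.option_getD (Computable.list_getElem?.comp Computable.fst Computable.snd)
    (Computable.const false)

private theorem forc_fam (t : ℕ → Bool) :
    CI {orc t} (fun q : List Bool × ℕ => (bjoin t (ext q.1) q.2).toNat) := by
  have h2 : CI {orc t} (fun q : List Bool × ℕ => q.2) := CI.of_computable Computable.snd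
  have h1 : CI {orc t} (fun q : List Bool × ℕ => (ext q.1 (q.2 / 2)).toNat) := by
    have h3 : Computable fun q : List Bool × ℕ => q.2 / 2 :=
      Primrec.nat_div.to_comp.comp Computable.snd (Computable.const 2)
    have h4 : Computable fun q : List Bool × ℕ => ext q.1 (q.2 / 2) :=
      forc_ext_computable.comp (Computable.fst.pair h3)
    exact CI.of_computable ((Primrec.dom_finite Bool.toNat).to_comp.comp h4)
  refine (CI.ite (DI.eq (CI.mod h2 (CI.const 2)) (CI.const 0))
    (ci_orc_comp (TR.refl t) (CI.div h2 (CI.const 2))) h1).congr fun q => ?_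
  unfold bjoin
  split_ifs <;> rfl

private theorem forc_key {t G : ℕ → Bool} {ρ : List Bool} {m : ℕ} (hm : m ≤ ρ.length)
    (hG : Ext ρ G) : pre (bjoin t G) m = pre (bjoin t (ext ρ)) m := by
  rw [pre_eq_iff]
  intro k hk
  have h1 : k / 2 < ρ.length := by omega
  have h2 := (Ext_iff ρ G).1 hG (k / 2) h1
  have h3 := (Ext_iff ρ (ext ρ)).1 (Ext_ext ρ) (k / 2) h1
  rw [h2] at h3
  have h4 : G (k / 2) = ext ρ (k / 2) := Option.some.inj h3
  unfold bjoin
  rw [h4]

private theorem forc_forall {Z : ℕ → Bool} {β : Type} [Primcodable β]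
    {P₀ : List Bool × ℕ → Prop} (hD : DI {orc Z} P₀) {g : β → List Bool} {f : β → ℕ}
    (hg : Computable g) (hf : Computable f) :
    DI {orc (jump Z)} (fun a : β => ∀ τ, g a <+: τ → ¬ P₀ (τ, f a)) := by
  have h1 : DI {orc Z} (fun r : β × ℕ => ¬ P₀ (g r.1 ++ dl r.2, f r.1)) := by
    refine DI.not (hD.comp_computable (g := fun r : β × ℕ => (g r.1 ++ dl r.2, f r.1)) ?_)
    exact (Computable.list_append.comp (hg.comp Computable.fst)
      (dl_computable.comp Computable.snd)).pair (hf.comp Computable.fst)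
  exact (di_forall h1).of_iff fun a => forall_ext_iff

theorem forc (n : ℕ) : ∀ S : ℕ → Set (ℕ → Bool), (∀ i, Sig n (S i)) →
    ∃ p : ℕ → Bool, ∀ t, TR p t → ∃ P : List Bool × ℕ → Prop, DI {orc (jmp n t)} P ∧
      (∀ (ρ τ : List Bool) (i : ℕ), ρ <+: τ → P (ρ, i) → P (τ, i)) ∧
      ∀ G, Gen (jmp n t) G → ∀ i, (bjoin t G ∈ S i ↔ ∃ m, P (pre G m, i)) := by
  induction n with
  | zero =>
    intro S hS
    classical
    obtain ⟨p, hp⟩ := exists_table fun k : ℕ =>
      if {α : ℕ → Bool | Ext (dl k.unpair.2) α} ⊆ S k.unpair.1 then 1 else 0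
    have hT : ∀ (i : ℕ) (l : List Bool),
        ((if {α : ℕ → Bool | Ext (dl (Nat.pair i (encode l)).unpair.2) α} ⊆
          S (Nat.pair i (encode l)).unpair.1 then 1 else 0) = 1) ↔
          {α : ℕ → Bool | Ext l α} ⊆ S i := by
      intro i l
      rw [Nat.unpair_pair]
      simp only [dl_encode]
      by_cases h : {α : ℕ → Bool | Ext l α} ⊆ S i
      · simp [h]
      · simp [h]
    refine ⟨p, fun t ht => ?_⟩
    have hp' := ci_tr hp ht
    have hkey : ∀ (ρ : List Bool) (G : ℕ → Bool), Ext ρ G → ∀ m ≤ ρ.length,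
        pre (bjoin t G) m = pre (bjoin t (ext ρ)) m := fun ρ G hG m hm => forc_key hm hG
    refine ⟨fun q => ∃ m < q.1.length + 1,
      (if {α : ℕ → Bool | Ext (dl (Nat.pair q.2
        (encode (pre (bjoin t (ext q.1)) m))).unpair.2) α} ⊆
        S (Nat.pair q.2 (encode (pre (bjoin t (ext q.1)) m))).unpair.1 then 1 else 0) = 1,
      ?_, ?_, ?_⟩
    · have h1 : CI {orc t} (fun q : (List Bool × ℕ) × ℕ =>
          encode (pre (bjoin t (ext q.1.1)) q.2)) :=
        (fam_pre (F := fun ρ => bjoin t (ext ρ)) (forc_fam t)).comp_computable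
          (g := fun q : (List Bool × ℕ) × ℕ => (q.1.1, q.2))
          ((Computable.fst.comp Computable.fst).pair Computable.snd)
      have h2 : CI {orc t} (fun q : (List Bool × ℕ) × ℕ =>
          Nat.pair q.1.2 (encode (pre (bjoin t (ext q.1.1)) q.2))) :=
        CI.npair (CI.of_computable (Computable.snd.comp Computable.fst)) h1
      have h3 : CI {orc t} (fun q : List Bool × ℕ => q.1.length + 1) :=
        CI.add (CI.of_computable (Computable.list_length.comp Computable.fst)) (CI.const 1)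
      exact DI.bex (DI.eq (CI.comp hp' h2) (CI.const 1)) h3
    · rintro ρ τ i hρτ ⟨m, hm, h⟩
      refine ⟨m, lt_of_lt_of_le hm (Nat.succ_le_succ hρτ.length_le), ?_⟩
      rw [hT] at h ⊢
      show {α : ℕ → Bool | Ext (pre (bjoin t (ext τ)) m) α} ⊆ S i
      rw [hkey ρ (ext τ) (Ext_mono hρτ (Ext_ext τ)) m (Nat.lt_succ_iff.1 hm)]
      exact h
    · intro G _ i
      rw [open_iff (hS i) (bjoin t G)]
      constructor
      · rintro ⟨m, hm⟩
        refine ⟨m, m, by show m < (pre G m).length + 1; rw [pre_length]; omega, ?_⟩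
        rw [hT]
        show {α : ℕ → Bool | Ext (pre (bjoin t (ext (pre G m))) m) α} ⊆ S i
        rw [← hkey (pre G m) G (Ext_pre G m) m (by rw [pre_length])]
        exact hm
      · rintro ⟨m, m', hm', h⟩
        rw [hT] at h
        refine ⟨m', ?_⟩
        rw [hkey (pre G m) G (Ext_pre G m) m' (Nat.lt_succ_iff.1 hm')]
        exact h
  | succ n ih =>
    intro S hS
    have hS' : ∀ i, ∃ T : ℕ → Set (ℕ → Bool), (∀ j, Sig n (T j)) ∧ S i = ⋃ j, (T j)ᶜ :=
      fun i => hS i
    choose T hT hST using hS'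
    obtain ⟨p, hp⟩ := ih (fun k => T k.unpair.1 k.unpair.2) (fun k => hT _ _)
    refine ⟨p, fun t ht => ?_⟩
    obtain ⟨P₀, hD, hmono, htruth⟩ := hp t ht
    refine ⟨fun q => ∃ j < q.1.length, ∀ τ, q.1 <+: τ → ¬ P₀ (τ, Nat.pair q.2 j), ?_, ?_, ?_⟩
    · rw [jmp_succ]
      have h1 : DI {orc (jump (jmp n t))} (fun q : (List Bool × ℕ) × ℕ =>
          ∀ τ, q.1.1 <+: τ → ¬ P₀ (τ, Nat.pair q.1.2 q.2)) :=
        forc_forall hD (Computable.fst.comp Computable.fst)
          (Primrec₂.natPair.to_comp.comp (Computable.snd.comp Computable.fst) Computable.snd)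
      exact DI.bex h1 (CI.of_computable (Computable.list_length.comp Computable.fst))
    · rintro ρ τ i hρτ ⟨j, hj, h⟩
      exact ⟨j, lt_of_lt_of_le hj hρτ.length_le, fun σ hσ => h σ (hρτ.trans hσ)⟩
    · intro G hG i
      have hG' : Gen (jmp n t) G := hG.mono (jmp_tr_jmp t (Nat.le_succ n))
      have h1 : ∀ j, bjoin t G ∈ T i j ↔ ∃ m, P₀ (pre G m, Nat.pair i j) := by
        intro j
        have h2 := htruth G hG' (Nat.pair i j)
        simp only [Nat.unpair_pair] at h2
        exact h2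
      rw [hST i, Set.mem_iUnion]
      constructor
      · rintro ⟨j, hj⟩
        rw [Set.mem_compl_iff, h1 j] at hj
        have h3 : DI {orc (jmp n t)} (fun ρ : List Bool => P₀ (ρ, Nat.pair i j)) :=
          hD.comp_computable (g := fun ρ : List Bool => (ρ, Nat.pair i j))
            (Computable.id.pair (Computable.const _))
        rcases hG' _ h3 with h4 | ⟨m, hm⟩
        · exact absurd h4 hj
        · refine ⟨max m (j + 1), j, ?_, fun τ hτ => hm τ ((pre_prefix G (le_max_left _ _)).trans hτ)⟩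
          show j < (pre G (max m (j + 1))).length
          rw [pre_length]
          exact lt_of_lt_of_le (Nat.lt_succ_self j) (le_max_right _ _)
      · rintro ⟨m, j, _, h⟩
        refine ⟨j, ?_⟩
        rw [Set.mem_compl_iff, h1 j]
        rintro ⟨m', hm'⟩
        exact h _ (pre_prefix G (le_max_left m m')) (hmono _ _ _ (pre_prefix G (le_max_right m m')) hm')

theorem name_of_sig {φ : (ℕ → Bool) → (ℕ → Bool)} {n : ℕ}
    (hS : ∀ i, Sig n {A | φ A i = true}) :
    ∃ p : ℕ → Bool, ∀ t, TR p t → ∃ Y : List Bool → ℕ → Bool → Prop, Name Y ∧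
      DI {orc (jmp (n + 1) t)} (fun q : List Bool × ℕ × Bool => Y q.1 q.2.1 q.2.2) ∧
      ∀ G, Gen (jmp n t) G → ∀ i, ∃ m, Y (pre G m) i (φ (bjoin t G) i) := by
  obtain ⟨p, hp⟩ := forc n (fun i => {A | φ A i = true}) hS
  refine ⟨p, fun t ht => ?_⟩
  obtain ⟨P, hD, hmono, htruth⟩ := hp t ht
  refine ⟨fun ρ i b => (b = true ∧ P (ρ, i)) ∨ (b = false ∧ ∀ τ, ρ <+: τ → ¬ P (τ, i)),
    ⟨?_, ?_, ?_⟩, ?_, ?_⟩
  · rintro ρ τ i b hρτ (⟨hb, h⟩ | ⟨hb, h⟩)
    · exact Or.inl ⟨hb, hmono _ _ _ hρτ h⟩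
    · exact Or.inr ⟨hb, fun σ hσ => h σ (hρτ.trans hσ)⟩
  · rintro ρ i ⟨⟨_, h1⟩ | ⟨h1, _⟩, ⟨h2, _⟩ | ⟨_, h2⟩⟩
    · exact Bool.noConfusion h2
    · exact h2 ρ (List.prefix_refl ρ) h1
    · exact Bool.noConfusion h1
    · exact Bool.noConfusion h1
  · intro ρ i
    by_cases h : ∃ τ, ρ <+: τ ∧ P (τ, i)
    · obtain ⟨τ, h1, h2⟩ := h
      exact ⟨τ, true, h1, Or.inl ⟨rfl, h2⟩⟩
    · push Not at h
      exact ⟨ρ, false, List.prefix_refl ρ, Or.inr ⟨rfl, h⟩⟩
  · have hb : Computable fun q : List Bool × ℕ × Bool => q.2.2.toNat :=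
      (Primrec.dom_finite Bool.toNat).to_comp.comp (Computable.snd.comp Computable.snd)
    have h1 : DI {orc (jmp (n + 1) t)} (fun q : List Bool × ℕ × Bool => q.2.2 = true) :=
      (DI.eq (CI.of_computable hb) (CI.const 1)).of_iff fun q => by
        cases q.2.2 <;> simp
    have h2 : DI {orc (jmp (n + 1) t)} (fun q : List Bool × ℕ × Bool => q.2.2 = false) :=
      (DI.eq (CI.of_computable hb) (CI.const 0)).of_iff fun q => by
        cases q.2.2 <;> simp
    have h3 : DI {orc (jmp (n + 1) t)} (fun q : List Bool × ℕ × Bool => P (q.1, q.2.1)) :=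
      di_tr (hD.comp_computable (g := fun q : List Bool × ℕ × Bool => (q.1, q.2.1))
        (Computable.fst.pair (Computable.fst.comp Computable.snd)))
        (jmp_tr_jmp t (Nat.le_succ n))
    have h4 : DI {orc (jmp (n + 1) t)} (fun q : List Bool × ℕ × Bool =>
        ∀ τ, q.1 <+: τ → ¬ P (τ, q.2.1)) := by
      rw [jmp_succ]
      exact forc_forall hD Computable.fst (Computable.fst.comp Computable.snd)
    exact (h1.and h3).or (h2.and h4)
  · intro G hG i
    have h1 : φ (bjoin t G) i = true ↔ ∃ m, P (pre G m, i) := htruth G hG i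
    cases hc : φ (bjoin t G) i with
    | true =>
      obtain ⟨m, hm⟩ := h1.1 hc
      exact ⟨m, Or.inl ⟨rfl, hm⟩⟩
    | false =>
      have h3 : DI {orc (jmp n t)} (fun ρ : List Bool => P (ρ, i)) :=
        hD.comp_computable (g := fun ρ : List Bool => (ρ, i))
          (Computable.id.pair (Computable.const _))
      rcases hG _ h3 with h4 | ⟨m, hm⟩
      · rw [h1.2 h4] at hc
        exact Bool.noConfusion hc
      · exact ⟨m, Or.inr ⟨rfl, hm⟩⟩

end Pool.Agent.Mart
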