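import Pool.Agent.Lib.MJump.Five
import Pool.Agent.Lib.MJump.Forc
import Pool.Agent.Lib.MJump.ConstGen
import Pool.Agent.Lib.MJump.Case1

/-!
# Module Main: assembly  (about 110 lines)

PROOFS.
`sig_measurable`: induction (`IsOpen.measurableSet`, `MeasurableSet.iUnion`, `.compl`).
`dichotomy`. Let `p₁` be the real of `name_of_sig`, `p₂` that of `five_reals`, `C = bjoin p₁ p₂`. For `t ≥ C` let `Y_t` be the
name given by `name_of_sig`. If some `Y_t` is nowhere constant, `five_reals` gives the second alternative (`a j ≥ t ≥ C`). If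
not, `const_of_not_nc` (with `f G = φ (bjoin t G)`, `Z = jmp n t`, and `hinv` with `patch_tr`, `tr_patch`: `bjoin t (patch σ G) ≡ bjoin t G`)
gives the first.
`jump_theorem`. Apply `dichotomy`, which gives `C₀`. In its first alternative apply `case_const` with the base `bjoin C C₀`
(`N = n`; `hφ` from `sig_measurable`, `measurable_pi_iff`, `measurable_to_bool`), and `gen_residual` with
`eventually_countable_forall` for `∀ i, Gen (jmp i B) G`. In the second alternative take `M = m * (n + 3) - 1`, so that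
`M + 1 = m * (n + 3)` and `n + 2 ≤ M`; with the `C'` of the second alternative (its `C` can be taken `≥` any
given real: the statement of `dichotomy` is applied to the given real `C`), for `c ≥ C'`:
`φ (a j) ≤ φ (jmp (M + 1) (a j)) ≤ φ c` by `iter_jmp` (`C ≤ a j`) and `hinv`, so `c ≤ join5 (fun j => φ (a j)) ≤ φ c`
(`join5_tr`).
-/

set_option autoImplicit false

namespace Pool.Agent.Mart

open Pool.Agent.GammaZero Encodable

theorem sig_measurable (n : ℕ) : ∀ S : Set (ℕ → Bool), Sig n S → MeasurableSet S := by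
  induction n with
  | zero =>
    intro S hS
    exact IsOpen.measurableSet hS
  | succ n ih =>
    intro S hS
    obtain ⟨T, hT, rfl⟩ := hS
    exact MeasurableSet.iUnion fun i => (ih (T i) (hT i)).compl

theorem dichotomy {φ : (ℕ → Bool) → (ℕ → Bool)} {n : ℕ} (hS : ∀ i, Sig n {A | φ A i = true})
    (hinv : ∀ A B, Eqv A B → TR (φ A) (φ B)) (C : ℕ → Bool) :
    (∃ C' : ℕ → Bool, TR C C' ∧ ∀ t, TR C' t → ∀ G H, Gen (jmp n t) G → Gen (jmp n t) H →
      TR (φ (bjoin t G)) (φ (bjoin t H))) ∨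
    ∀ M, n + 2 ≤ M → ∃ C' : ℕ → Bool, ∀ c, TR C' c →
      ∃ a : ℕ → ℕ → Bool, (∀ j, Eqv (jmp (M + 1) (a j)) c) ∧ (∀ j, TR C (a j)) ∧
        TR c (join5 fun j => φ (a j)) := by
  obtain ⟨p₁, h₁⟩ := name_of_sig hS
  obtain ⟨p₂, h₂⟩ := five_reals hS hinv
  by_cases hcase : ∃ t : ℕ → Bool, TR (bjoin C (bjoin p₁ p₂)) t ∧
      ∃ Y : List Bool → ℕ → Bool → Prop, Name Y ∧
        DI {orc (jmp (n + 1) t)} (fun q : List Bool × ℕ × Bool => Y q.1 q.2.1 q.2.2) ∧
        (∀ G, Gen (jmp n t) G → ∀ i, ∃ m, Y (pre G m) i (φ (bjoin t G) i)) ∧ NC Y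
  · right
    obtain ⟨t, ht, Y, hY, hYD, hYt, hNC⟩ := hcase
    intro M hM
    have hp₂ : TR p₂ t := (tr_bjoin_right p₁ p₂).trans ((tr_bjoin_right C _).trans ht)
    obtain ⟨C', hC'⟩ := h₂ t hp₂ Y hY hYD hYt hNC M hM
    refine ⟨C', fun c hc => ?_⟩
    obtain ⟨a, ha1, ha2, ha3⟩ := hC' c hc
    exact ⟨a, ha1, fun j => ((tr_bjoin_left C _).trans ht).trans (ha2 j), ha3⟩
  · left
    refine ⟨bjoin C (bjoin p₁ p₂), tr_bjoin_left C _, ?_⟩
    intro t ht G H hG hH
    have hp₁ : TR p₁ t := (tr_bjoin_left p₁ p₂).trans ((tr_bjoin_right C _).trans ht)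
    obtain ⟨Y, hY, hYD, hYt⟩ := h₁ t hp₁
    have hNC : ¬ NC Y := fun hNC => hcase ⟨t, ht, Y, hY, hYD, hYt, hNC⟩
    refine const_of_not_nc hY (f := fun G => φ (bjoin t G)) hYt ?_ hNC hG hH
    intro σ K
    have h3 : TR (bjoin t (patch σ K)) (bjoin t K) :=
      bjoin_tr (tr_bjoin_left t K) ((patch_tr σ K).trans (tr_bjoin_right t K))
    have h4 : TR (bjoin t K) (bjoin t (patch σ K)) :=
      bjoin_tr (tr_bjoin_left t _) ((tr_patch σ K).trans (tr_bjoin_right t _))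
    exact ⟨hinv _ _ ⟨h3, h4⟩, hinv _ _ ⟨h4, h3⟩⟩

theorem jump_theorem {φ : (ℕ → Bool) → (ℕ → Bool)} {n m : ℕ} {C : ℕ → Bool}
    (hS : ∀ i, Sig n {A | φ A i = true}) (hinv : ∀ A B, Eqv A B → TR (φ A) (φ B)) (hm : 1 ≤ m)
    (hC : ∀ A, TR C A → TR (φ A) (φ (jmp m A))) :
    (∃ C' : ℕ → Bool, ∀ A, TR C' A → TR A (φ A)) ∨
    ∃ C' D : ℕ → Bool, ∀ B, TR C' B → TR D (φ B) ∧
      ∀ᶠ G in residual (ℕ → Bool), ∀ i, TR (φ (jmp i (bjoin B G))) D := by
  rcases dichotomy hS hinv C with ⟨C₀, hC₀, hconst⟩ | hM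
  · right
    have hφ : Measurable φ := measurable_pi_iff.2 fun i => measurable_to_bool (by
      have h1 := sig_measurable n _ (hS i)
      exact h1)
    obtain ⟨C', D, h⟩ := case_const hφ hinv hm (fun A hA => hC A (hC₀.trans hA)) hconst
    refine ⟨C', D, fun B hB => ⟨(h B hB).1, ?_⟩⟩
    have h2 : ∀ᶠ G in residual (ℕ → Bool), ∀ i, Gen (jmp i B) G :=
      eventually_countable_forall.2 fun i => gen_residual _
    exact h2.mono fun G hG i => (h B hB).2 G hG i
  · left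
    have h5 : n + 3 ≤ m * (n + 3) := Nat.le_mul_of_pos_left _ hm
    obtain ⟨C', h⟩ := hM (m * (n + 3) - 1) (by omega)
    refine ⟨C', fun c hc => ?_⟩
    obtain ⟨a, ha1, ha2, ha3⟩ := h c hc
    refine ha3.trans (join5_tr fun j _ => ?_)
    refine (iter_jmp hC (n + 3) (ha2 j)).trans (hinv _ _ ?_)
    have h6 := ha1 j
    rw [Nat.sub_add_cancel (by omega)] at h6
    exact h6

end Pool.Agent.Mart
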