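import Pool.Agent.Lib.MJump.JEx

/-!
# Module FamSig: membership of a computable family of reals in sets of finite Borel rank
(about 150 lines)

PROOFS.
`fam_pre`: as `ci_pre` in OC.lean, with the parameter `ρ`: primitive recursion on the length (`CI.natRec`
with `α = List Bool`), step `encode (dl ih ++ [decide ((F ρ y).toNat = 1)])`, using `pre_succ` and
`dl_encode`.
`open_iff`: if `S` is open then `A ∈ S` iff some cylinder `{α | Ext (pre A m) α}` is contained in `S`
(isOpen_pi_iff as in the proof of `cont_pre` in Table.lean: `A ∈ S` gives a finite set `I` of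
coordinates; take `m > max I`; `Ext (pre A m) α` means `α` and `A` agree below `m`, `Ext_iff_pre`;
conversely `Ext_pre`).
`fam_sig`: induction on `n`.
`n = 0`: let `T (Nat.pair i c) = 1` if `{α | Ext (dl c) α} ⊆ S i` and `0` otherwise (classical), and
let `p` be a real computing `T` (`exists_table`). For `Y ≥ p` and `F` computable in `Y`,
`F ρ ∈ S i ↔ ∃ m, T (Nat.pair i (encode (pre (F ρ) m))) = 1` by `open_iff` and `dl_encode`; the
matrix is decidable in `Y` (`fam_pre`, `CI.npair`, `ci_tr`), so `di_ex` gives decidability in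
`jump Y = jmp 1 Y`.
`n + 1`: choose `T i j` with `Sig n (T i j)` and `S i = ⋃ j, (T i j)ᶜ`; apply the induction hypothesis
to the sequence `k ↦ T k.unpair.1 k.unpair.2`, which gives `p`. For `Y ≥ p`, `F`:
`F ρ ∈ S i ↔ ∃ j, ¬ F ρ ∈ T i j`, the matrix is decidable in `jmp (n + 1) Y` (compose with
`Nat.pair i j`: use the form `DI` of the induction hypothesis precomposed with the computable map
`((ρ, i), j) ↦ (ρ, Nat.pair i j)`, `DI.comp_computable`), so `di_ex` and `jmp_succ`.
-/

set_option autoImplicit false

namespace Pool.Agent.Mart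

open Pool.Agent.GammaZero Encodable

theorem fam_pre {Y : ℕ → Bool} {F : List Bool → ℕ → Bool}
    (h : CI {orc Y} (fun q : List Bool × ℕ => (F q.1 q.2).toNat)) :
    CI {orc Y} (fun q : List Bool × ℕ => encode (pre (F q.1) q.2)) := by
  have h1 : CI {orc Y} (fun p : List Bool × ℕ × ℕ =>
      encode (dl p.2.2 ++ [decide ((F p.1 p.2.1).toNat = 1)])) := by
    have h2 : Computable₂ fun (c b : ℕ) => encode (dl c ++ [decide (b = 1)]) := by
      have h3 : Computable fun p : ℕ × ℕ => decide (p.2 = 1) :=
        ((Primrec.eq.comp Primrec.snd (Primrec.const 1)).decide).to_comp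
      have h4 : Computable fun p : ℕ × ℕ => dl p.1 := dl_computable.comp Computable.fst
      exact Computable.encode.comp (Computable.list_append.comp h4
        (Computable.list_cons.comp h3 (Computable.const [])))
    have h5 : CI {orc Y} (fun p : List Bool × ℕ × ℕ => (F p.1 p.2.1).toNat) :=
      h.comp_computable (g := fun p : List Bool × ℕ × ℕ => (p.1, p.2.1))
        (Computable.fst.pair (Computable.fst.comp Computable.snd))
    exact CI.comp₂ (h := fun c b => encode (dl c ++ [decide (b = 1)]))
      h2 (CI.of_computable (Computable.snd.comp Computable.snd)) h5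
  have h2 := CI.natRec (CI.const (O := {orc Y}) (α := List Bool) (encode ([] : List Bool))) h1
  refine h2.congr fun q => ?_
  obtain ⟨ρ, n⟩ := q
  show encode (pre (F ρ) n) = Nat.rec (encode ([] : List Bool)) (fun y ih =>
      encode (dl ih ++ [decide ((F ρ y).toNat = 1)])) n
  induction n with
  | zero => rfl
  | succ n ih =>
    rw [pre_succ]
    show _ = encode (dl (Nat.rec (encode ([] : List Bool)) (fun y ih =>
      encode (dl ih ++ [decide ((F ρ y).toNat = 1)])) n) ++ [decide ((F ρ n).toNat = 1)])
    rw [← ih, dl_encode]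
    cases F ρ n <;> rfl

theorem open_iff {S : Set (ℕ → Bool)} (hS : IsOpen S) (A : ℕ → Bool) :
    A ∈ S ↔ ∃ m, {α : ℕ → Bool | Ext (pre A m) α} ⊆ S := by
  constructor
  · intro hA
    rw [isOpen_pi_iff] at hS
    obtain ⟨I, w, hI, hw⟩ := hS A hA
    refine ⟨I.sup (fun i => i + 1), fun α hα => ?_⟩
    have hα' : Ext (pre A (I.sup (fun i => i + 1))) α := hα
    rw [Ext_iff_pre] at hα'
    apply hw
    intro i hi
    have : i < I.sup (fun i => i + 1) :=
      lt_of_lt_of_le (Nat.lt_succ_self i) (Finset.le_sup (f := fun i => i + 1) hi)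
    rw [hα' i this]
    exact (hI i hi).2
  · rintro ⟨m, hm⟩
    exact hm (Ext_pre A m)

theorem fam_sig (n : ℕ) : ∀ S : ℕ → Set (ℕ → Bool), (∀ i, Sig n (S i)) →
    ∃ p : ℕ → Bool, ∀ Y, TR p Y → ∀ F : List Bool → ℕ → Bool,
      CI {orc Y} (fun q : List Bool × ℕ => (F q.1 q.2).toNat) →
      DI {orc (jmp (n + 1) Y)} (fun q : List Bool × ℕ => F q.1 ∈ S q.2) := by
  induction n with
  | zero =>
    intro S hS
    classical
    let T : ℕ → ℕ := fun c =>
      if {α : ℕ → Bool | Ext (dl c.unpair.2) α} ⊆ S c.unpair.1 then 1 else 0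
    obtain ⟨p, hp⟩ := exists_table T
    refine ⟨p, fun Y hY F hF => ?_⟩
    have h1 : DI {orc Y} (fun q : (List Bool × ℕ) × ℕ =>
        T (Nat.pair q.1.2 (encode (pre (F q.1.1) q.2))) = 1) := by
      refine DI.eq (CI.comp (ci_tr hp hY) (CI.npair (CI.of_computable ?_)
        ((fam_pre hF).comp_computable (g := fun q : (List Bool × ℕ) × ℕ => (q.1.1, q.2)) ?_)))
        (CI.const 1)
      · exact Computable.snd.comp Computable.fst
      · exact (Computable.fst.comp Computable.fst).pair Computable.snd
    rw [jmp_succ, jmp_zero]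
    refine (di_ex h1).of_iff fun q => ?_
    rw [open_iff (hS q.2)]
    refine exists_congr fun m => ?_
    simp only [T, Nat.unpair_pair, dl_encode]
    split_ifs with hc
    · simp only [hc]
    · simp only [hc]
  | succ n ih =>
    intro S hS
    have hS' : ∀ i, ∃ T : ℕ → Set (ℕ → Bool), (∀ j, Sig n (T j)) ∧ S i = ⋃ j, (T j)ᶜ := hS
    choose T hT hST using hS'
    obtain ⟨p, hp⟩ := ih (fun k => T k.unpair.1 k.unpair.2) (fun k => hT _ _)
    refine ⟨p, fun Y hY F hF => ?_⟩
    have h1 := hp Y hY F hF
    have h2 : DI {orc (jmp (n + 1) Y)} (fun q : (List Bool × ℕ) × ℕ => ¬ F q.1.1 ∈ T q.1.2 q.2) := by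
      refine (DI.not (h1.comp_computable
        (g := fun q : (List Bool × ℕ) × ℕ => (q.1.1, Nat.pair q.1.2 q.2)) ?_)).of_iff fun q => ?_
      · have h3 : Computable fun q : (List Bool × ℕ) × ℕ => Nat.pair q.1.2 q.2 :=
          Primrec₂.natPair.to_comp.comp (Computable.snd.comp Computable.fst) Computable.snd
        exact (Computable.fst.comp Computable.fst).pair h3
      · simp only [Nat.unpair_pair]
    rw [jmp_succ]
    refine (di_ex h2).of_iff fun q => ?_
    rw [hST q.2]
    simp only [Set.mem_iUnion, Set.mem_compl_iff]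

end Pool.Agent.Mart
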