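import Pool.Agent.Lib.MJump.Defs

/-!
# Module JEx: one existential quantifier is decidable in the jump  (about 150 lines)

PROOFS.
`halt_index`. Let `g` witness `h` (`CI {orc A} g`, `g = 1` on `R`, `g = 0` off `R`) and let `F` witness
`CI {orc A} g`, so `F (Nat.pair (encode a) s) = g (a, s)` (`encode (a, s) = Nat.pair (encode a) s`).
The partial function `f n = Nat.rfind (fun s => Part.some (decide (1 - F (Nat.pair n s) = 0)))`
is `Nat.RecursiveIn {orc A}` (`Nat.RecursiveIn.rfind`, copy the beginning of the proof of `choice` in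
`Lib/MP_349b57_lc/Codes.lean`), and `(f (encode a)).Dom ↔ ∃ s, R (a, s)`. By `exists_E` and `EE_surj`
(NF.lean) there is `e` with `v ∈ f k ↔ ∃ n, v ∈ EE e (pre A n) k`. `EE e τ k` is
`(Denumerable.ofNat Code e).eval (encode (τ, k))`, and `Code.evaln_complete` / `Code.evaln_sound`
translate this into: some `s` with `res A e k s ≠ 0` (`res_eq`; `s = Nat.pair n t`; see the proof of
`exists_idx` in OC.lean, same computation).

`di_ex`. With `e` from `halt_index`, `(∃ s, R (a, s)) ↔ jump A (Nat.pair e (encode a)) = true`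
(`jump_iff`, `Nat.unpair_pair`), and this is decidable in `jump A`: `DI.eq (ci_orc_comp (TR.refl _)
(CI.npair (CI.const e) ...)) (CI.const 1)`; `encode : α → ℕ` is `Computable.encode`.
`di_forall`: `∀ s, R (a, s)` is `¬ ∃ s, ¬ R (a, s)`: `DI.not`, `di_ex`, `DI.not`.

`tr_jump`: apply `di_ex` to `R (n, s) := (A n).toNat = 1` (`DI.eq (ci_orc_comp ..)`), then `∃ s, R (n, s)`
is `A n = true`; turn `DI` into `CI` of `(A n).toNat` (`DI.ci`, `CI.congr`) and `tr_iff_ci`.
`jump_mono`: `R (n, s) := res A n.unpair.1 n.unpair.2 s ≠ 0` is decidable in `A` (`ci_res`, `CI.app3`,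
`DI.eq`, `DI.not`), hence in `B` (`di_tr`); by `di_ex` `∃ s, R (n, s)`, i.e. `jump A n = true`, is
decidable in `jump B`.
`jmp_mono`, `jmp_tr_jmp`, `tr_jmp`: induction with `jmp_succ`.
`exists_not_tr`: otherwise `c ↦` (an index of `c` relative to `X`, `exists_idx`) is injective from
`ℕ → Bool` to `ℕ` (`U.unique`: an index determines the real), but `ℕ → Bool` is uncountable
(`not_countable`, `Cardinal.mk`, or `Function.Injective.countable` with the instance
`Uncountable (ℕ → Bool)`).
-/

set_option autoImplicit false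

namespace Pool.Agent.Mart

open Pool.Agent.GammaZero Encodable
open Nat.Partrec (Code)

/-- a partial function recursive in `A` and its index -/
theorem rec_index {A : ℕ → Bool} {f : ℕ →. ℕ} (hf : Nat.RecursiveIn {orc A} f) :
    ∃ e, ∀ k, (f k).Dom ↔ ∃ s, res A e k s ≠ 0 := by
  obtain ⟨E, hE, hm, ha⟩ := exists_E hf
  obtain ⟨e, rfl⟩ := EE_surj hE
  refine ⟨e, fun k => ?_⟩
  constructor
  · intro hd
    obtain ⟨v, hv⟩ := Part.dom_iff_mem.1 hd
    obtain ⟨n, hn⟩ := (ha k v).1 hv
    obtain ⟨t, ht⟩ := Code.evaln_complete.1 hn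
    refine ⟨Nat.pair n t, ?_⟩
    rw [res_eq, Nat.unpair_pair]
    have ht' : Code.evaln t (Denumerable.ofNat Code e) (Nat.pair (encode (pre A n)) k) =
      some v := ht
    show encode (Code.evaln t (Denumerable.ofNat Code e) (Nat.pair (encode (pre A n)) k)) ≠ 0
    rw [ht']
    simp
  · rintro ⟨s, hs⟩
    rw [res_eq] at hs
    rcases hr : Code.evaln s.unpair.2 (Denumerable.ofNat Code e)
        (Nat.pair (encode (pre A s.unpair.1)) k) with _ | v
    · rw [hr] at hs
      simp at hs
    · have h1 : v ∈ Code.evaln s.unpair.2 (Denumerable.ofNat Code e)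
          (Nat.pair (encode (pre A s.unpair.1)) k) := by rw [hr]; rfl
      have h2 : v ∈ EE e (pre A s.unpair.1) k := Code.evaln_sound h1
      exact Part.dom_iff_mem.2 ⟨v, (ha k v).2 ⟨_, h2⟩⟩

theorem halt_index {A : ℕ → Bool} {α : Type} [Primcodable α] {R : α × ℕ → Prop}
    (h : DI {orc A} R) : ∃ e, ∀ a : α, (∃ s, R (a, s)) ↔ ∃ s, res A e (encode a) s ≠ 0 := by
  obtain ⟨g, ⟨F, hF, hFe⟩, h1, h2⟩ := h
  have hF' : Nat.RecursiveIn {orc A} (fun n => Part.some (1 - F n)) :=
    rin_comp (F := fun x => 1 - x)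
      (rin_of_computable (Primrec.nat_sub.to_comp.comp (Computable.const 1) Computable.id)) hF
  obtain ⟨e, he⟩ := rec_index (Nat.RecursiveIn.rfind hF')
  refine ⟨e, fun a => ?_⟩
  rw [← he (encode a)]
  have hval : ∀ s, F (Nat.pair (encode a) s) = g (a, s) := fun s => hFe (a, s)
  constructor
  · rintro ⟨s, hs⟩
    classical
    have hex : ∃ s, R (a, s) := ⟨s, hs⟩
    refine Part.dom_iff_mem.2 ⟨Nat.find hex, Nat.mem_rfind.2 ⟨?_, ?_⟩⟩
    · simp only [hval, h1 _ (Nat.find_spec hex)]
      simp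
    · intro m hm
      simp only [hval, h2 _ (Nat.find_min hex hm)]
      simp
  · intro hd
    obtain ⟨s, hs⟩ := Part.dom_iff_mem.1 hd
    refine ⟨s, ?_⟩
    by_contra hc
    have h3 := (Nat.mem_rfind.1 hs).1
    simp only [hval, h2 _ hc] at h3
    simp at h3

theorem di_ex {A : ℕ → Bool} {α : Type} [Primcodable α] {R : α × ℕ → Prop}
    (h : DI {orc A} R) : DI {orc (jump A)} (fun a => ∃ s, R (a, s)) := by
  obtain ⟨e, he⟩ := halt_index h
  have h1 : DI {orc (jump A)} (fun a : α => (jump A (Nat.pair e (encode a))).toNat = 1) :=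
    DI.eq (ci_orc_comp (TR.refl _) (CI.npair (CI.const e) (CI.of_computable Computable.encode)))
      (CI.const 1)
  refine h1.of_iff fun a => ?_
  rw [he a]
  have h2 := jump_iff A (Nat.pair e (encode a))
  rw [Nat.unpair_pair] at h2
  rw [← h2]
  cases jump A (Nat.pair e (encode a)) <;> simp

theorem di_forall {A : ℕ → Bool} {α : Type} [Primcodable α] {R : α × ℕ → Prop}
    (h : DI {orc A} R) : DI {orc (jump A)} (fun a => ∀ s, R (a, s)) := by
  refine (DI.not (di_ex (DI.not h))).of_iff fun a => ?_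
  simp

theorem tr_jump (A : ℕ → Bool) : TR A (jump A) := by
  have h1 : DI {orc A} (fun q : ℕ × ℕ => (A q.1).toNat = 1) :=
    DI.eq (ci_orc_comp (TR.refl A) (CI.of_computable Computable.fst)) (CI.const 1)
  have h2 : DI {orc (jump A)} (fun n : ℕ => (A n).toNat = 1) :=
    (di_ex h1).of_iff fun n => by simp
  rw [tr_iff_ci]
  refine (DI.ci h2).congr fun n => ?_
  cases A n <;> simp

theorem jump_mono {A B : ℕ → Bool} (h : TR A B) : TR (jump A) (jump B) := by
  have h1 : DI {orc A} (fun q : ℕ × ℕ => res A q.1.unpair.1 q.1.unpair.2 q.2 ≠ 0) := by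
    refine DI.not (DI.eq (CI.app3 (ci_res A) (CI.of_computable ?_) (CI.of_computable ?_)
      (CI.of_computable Computable.snd)) (CI.const 0))
    · exact Computable.fst.comp (Computable.unpair.comp Computable.fst)
    · exact Computable.snd.comp (Computable.unpair.comp Computable.fst)
  have h2 := di_ex (di_tr h1 h)
  classical
  rw [tr_iff_ci]
  refine (DI.ci h2).congr fun n => ?_
  have h3 := jump_iff A n
  by_cases hx : ∃ s, res A n.unpair.1 n.unpair.2 s ≠ 0
  · rw [if_pos hx, h3.2 hx]; rfl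
  · rw [if_neg hx]
    have : jump A n = false := by
      cases hj : jump A n
      · rfl
      · exact absurd (h3.1 hj) hx
    rw [this]; rfl

theorem jmp_mono {A B : ℕ → Bool} (h : TR A B) (k : ℕ) : TR (jmp k A) (jmp k B) := by
  induction k with
  | zero => exact h
  | succ k ih => rw [jmp_succ, jmp_succ]; exact jump_mono ih

theorem jmp_tr_jmp (A : ℕ → Bool) {k l : ℕ} (h : k ≤ l) : TR (jmp k A) (jmp l A) := by
  induction l, h using Nat.le_induction with
  | base => exact TR.refl _
  | succ l _ ih => rw [jmp_succ]; exact ih.trans (tr_jump _)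

theorem tr_jmp (A : ℕ → Bool) (k : ℕ) : TR A (jmp k A) :=
  jmp_tr_jmp A (Nat.zero_le k)

theorem exists_not_tr (X : ℕ → Bool) : ∃ c : ℕ → Bool, ¬ TR c X := by
  by_contra hc
  push Not at hc
  have h1 : ∀ c, ∃ e, Idx X e c := fun c => exists_idx (hc c)
  choose e he using h1
  have hinj : Function.Injective e := by
    intro c d hcd
    funext k
    obtain ⟨t, ht⟩ := he c k
    obtain ⟨t', ht'⟩ := he d k
    rw [hcd] at ht
    exact toNat_inj (ht.unique ht')
  have h2 : Countable (ℕ → Bool) := hinj.countable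
  obtain ⟨f, hf⟩ := exists_surjective_nat (ℕ → Bool)
  obtain ⟨n, hn⟩ := hf fun k => !(f k k)
  have h3 := congrFun hn n
  cases hb : f n n <;> simp [hb] at h3

end Pool.Agent.Mart
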