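import Pool.Agent.Lib.MJump.EffDef

/-!
Effective steps are decidable in `c`.
-/

set_option autoImplicit false

namespace Pool.Agent.Mart

open Pool.Agent.GammaZero Encodable

section

variable {ψ : (ℕ → Bool) → (ℕ → Bool)} {x c : ℕ → Bool} {L I : ℕ → ℕ} {α : Type} [Primcodable α]

private theorem ci_val
    (hV : CI {orc c} (fun q : ℕ × ℕ => (ψ (ext (dl q.1)) q.2).toNat))
    {s : α → List Bool} (hs : Computable s) {k : α → ℕ} (hk : CI {orc c} k) :
    CI {orc c} (fun a => (ψ (ext (s a)) (k a)).toNat) := by
  have h1 : CI {orc c} (fun q : α × ℕ => (ψ (ext (dl (encode (s q.1)))) q.2).toNat) :=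
    hV.comp_computable (g := fun q : α × ℕ => (encode (s q.1), q.2))
      ((Computable.encode.comp (hs.comp Computable.fst)).pair Computable.snd)
  have h2 := CI.sub h1 hk
  refine h2.congr fun a => ?_
  show _ = (ψ (ext (dl (encode (s a)))) (k a)).toNat
  rw [dl_encode]

private theorem ci_len {s : α → List Bool} (hs : Computable s) :
    CI {orc c} (fun a => (s a).length) :=
  CI.of_computable (Computable.list_length.comp hs)

private theorem ci_enc {s : α → List Bool} (hs : Computable s) :
    CI {orc c} (fun a => encode (s a)) :=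
  CI.of_computable (Computable.encode.comp hs)

private theorem ci_ext {s : α → List Bool} (hs : Computable s) {k : α → ℕ} (hk : CI {orc c} k) :
    CI {orc c} (fun a => (ext (s a) (k a)).toNat) := by
  have h1 : CI {orc c} (fun q : α × ℕ => (ext (s q.1) q.2).toNat) := by
    refine CI.of_computable ?_
    have h2 : Computable (fun q : α × ℕ => (((s q.1)[q.2]?).getD false)) :=
      Computable.option_getD (Primrec.list_getElem?.to_comp.comp (hs.comp Computable.fst)
        Computable.snd) (Computable.const false)
    have h3 : Computable (fun b : Bool => b.toNat) := (Primrec.dom_bool _).to_comp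
    exact h3.comp h2
  exact CI.sub h1 hk

private theorem prefix_iff_ext (a b : List Bool) :
    a <+: b ↔ a.length < b.length + 1 ∧ ∀ k < a.length, (ext b k).toNat = (ext a k).toNat := by
  constructor
  · rintro ⟨t, rfl⟩
    refine ⟨by simp, fun k hk => ?_⟩
    unfold ext
    rw [List.getElem?_append_left hk]
  · rintro ⟨h1, h2⟩
    rw [List.prefix_iff_eq_take]
    apply List.ext_getElem
    · rw [List.length_take]; omega
    · intro k hk hk'
      rw [List.getElem_take]
      have h3 := toNat_inj (h2 k hk)
      unfold ext at h3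
      rw [List.getElem?_eq_getElem hk, List.getElem?_eq_getElem (by omega)] at h3
      exact h3.symm

private theorem di_prefix {s t : α → List Bool} (hs : Computable s) (ht : Computable t) :
    DI {orc c} (fun a => s a <+: t a) := by
  have h1 : DI {orc c} (fun q : α × ℕ => (ext (t q.1) q.2).toNat = (ext (s q.1) q.2).toNat) :=
    DI.eq (ci_ext (ht.comp Computable.fst) (CI.of_computable Computable.snd))
      (ci_ext (hs.comp Computable.fst) (CI.of_computable Computable.snd))
  refine ((DI.lt (ci_len hs) ((ci_len ht).add (CI.const 1))).and (DI.ball h1 (ci_len hs))).of_iff ?_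
  intro a
  exact prefix_iff_ext _ _

private theorem di_L (hLc : CI {orc c} L) {M : α → ℕ} (hM : CI {orc c} M) {s : α → List Bool}
    (hs : Computable s) : DI {orc c} (fun a => ∀ k < M a, L k < (s a).length + 1) := by
  have h1 : DI {orc c} (fun q : α × ℕ => L q.2 < (s q.1).length + 1) :=
    DI.lt (CI.comp hLc (CI.of_computable Computable.snd))
      ((ci_len (hs.comp Computable.fst)).add (CI.const 1))
  exact DI.ball h1 hM

private theorem di_edep
    (hV : CI {orc c} (fun q : ℕ × ℕ => (ψ (ext (dl q.1)) q.2).toNat)) (hLc : CI {orc c} L)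
    {s t : α → List Bool} (hs : Computable s) (ht : Computable t) {u : α → ℕ}
    (hu : CI {orc c} u) : DI {orc c} (fun a => EDep ψ L (s a) (t a) (u a)) := by
  have h1 : DI {orc c} (fun q : α × ℕ =>
      (ψ (ext (t q.1)) q.2).toNat = (ψ (ext (s q.1)) q.2).toNat) :=
    DI.eq (ci_val hV (ht.comp Computable.fst) (CI.of_computable Computable.snd))
      (ci_val hV (hs.comp Computable.fst) (CI.of_computable Computable.snd))
  have h2 := DI.ball h1 hu
  have h3 : DI {orc c} (fun a => (ψ (ext (t a)) (u a)).toNat = (ψ (ext (s a)) (u a)).toNat) :=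
    DI.eq (ci_val hV ht hu) (ci_val hV hs hu)
  refine ((di_prefix hs ht).and ((DI.lt (ci_len hs) (ci_len ht)).and
    ((di_L hLc (hu.add (CI.const 1)) ht).and (h2.and h3.not)))).of_iff ?_
  intro a
  unfold EDep
  refine and_congr Iff.rfl (and_congr Iff.rfl (and_congr Iff.rfl (and_congr ?_ ?_)))
  · exact forall₂_congr fun k _ => ⟨fun h => congrArg _ h, fun h => toNat_inj h⟩
  · exact not_congr ⟨fun h => congrArg _ h, fun h => toNat_inj h⟩

private theorem di_allU
    (hV : CI {orc c} (fun q : ℕ × ℕ => (ψ (ext (dl q.1)) q.2).toNat)) (hx : TR x c)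
    {e M N : α → ℕ} (he : CI {orc c} e) (hM : CI {orc c} M) (hN : CI {orc c} N)
    {s : α → List Bool} (hs : Computable s) :
    DI {orc c} (fun a => ∀ k < M a, U x (e a) k (N a) (ψ (ext (s a)) k).toNat) := by
  have h := DI.U (x := x) hx (α := α × ℕ) (he.comp_computable Computable.fst)
    (CI.of_computable Computable.snd) (hN.comp_computable Computable.fst)
    (ci_val hV (hs.comp Computable.fst) (CI.of_computable Computable.snd))
  exact DI.ball h hM

private theorem di_efol
    (hV : CI {orc c} (fun q : ℕ × ℕ => (ψ (ext (dl q.1)) q.2).toNat)) (hLc : CI {orc c} L)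
    (hIc : CI {orc c} I) (hx : TR x c)
    {s t : α → List Bool} (hs : Computable s) (ht : Computable t) {M N : α → ℕ}
    (hM : CI {orc c} M) (hN : CI {orc c} N) :
    DI {orc c} (fun a => EFol ψ x L I (s a) (t a) (M a) (N a)) := by
  have h1 : DI {orc c} (fun q : α × ℕ => (ext (t q.1) q.2).toNat = (ext (s q.1) q.2).toNat) :=
    DI.eq (ci_ext (ht.comp Computable.fst) (CI.of_computable Computable.snd))
      (ci_ext (hs.comp Computable.fst) (CI.of_computable Computable.snd))
  have h2 := DI.ball h1 (ci_len ht)
  have h3 := di_allU (x := x) hV hx (CI.comp hIc (ci_enc hs)) hM hN hs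
  have h4 := di_allU (x := x) (α := α × ℕ) hV hx (CI.of_computable Computable.snd)
    (hM.comp_computable Computable.fst) (hN.comp_computable Computable.fst)
    (hs.comp Computable.fst)
  have h5 := DI.ball h4.not (CI.comp hIc (ci_enc hs))
  refine (h2.and ((DI.lt (ci_len hs) ((ci_len ht).add (CI.const 1))).and
    ((di_L hLc hM ht).and (h3.and h5)))).of_iff ?_
  intro a
  unfold EFol Id1
  refine and_congr ?_ Iff.rfl
  have e1 : (t a) = pre (ext (t a)) (t a).length := by
    apply List.ext_getElem
    · rw [pre_length]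
    · intro k hk hk'
      unfold pre ext
      simp [List.getElem?_eq_getElem hk]
  constructor
  · intro h k hk
    have h' := h
    rw [e1] at h'
    conv at h' =>
      rhs
      rw [pre_length]
    rw [pre_eq_iff] at h'
    rw [h' k hk]
  · intro h
    conv_lhs => rw [e1]
    rw [pre_eq_iff]
    intro k hk
    exact toNat_inj (h k hk)

end

theorem di_estep {ψ : (ℕ → Bool) → (ℕ → Bool)} {x c : ℕ → Bool} {L I : ℕ → ℕ}
    (hV : CI {orc c} (fun q : ℕ × ℕ => (ψ (ext (dl q.1)) q.2).toNat)) (hLc : CI {orc c} L)
    (hIc : CI {orc c} I) (hx : TR x c) :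
    DI {orc c} (fun q : (St × Bool) × (St × ℕ × ℕ) =>
      EStep ψ x L I q.1.1 q.1.2 q.2.1 q.2.2.1 q.2.2.2) := by
  have cS : Computable (fun q : (St × Bool) × (St × ℕ × ℕ) => q.1.1) :=
    Computable.fst.comp Computable.fst
  have cb : Computable (fun q : (St × Bool) × (St × ℕ × ℕ) => q.1.2) :=
    Computable.snd.comp Computable.fst
  have cS' : Computable (fun q : (St × Bool) × (St × ℕ × ℕ) => q.2.1) :=
    Computable.fst.comp Computable.snd
  have cu : Computable (fun q : (St × Bool) × (St × ℕ × ℕ) => q.2.2.1) :=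
    Computable.fst.comp (Computable.snd.comp Computable.snd)
  have cv : Computable (fun q : (St × Bool) × (St × ℕ × ℕ) => q.2.2.2) :=
    Computable.snd.comp (Computable.snd.comp Computable.snd)
  have p1 : Computable (fun S : St => S.1) := Computable.fst
  have p2 : Computable (fun S : St => S.2.1) := Computable.fst.comp Computable.snd
  have p3 : Computable (fun S : St => S.2.2.1) :=
    Computable.fst.comp (Computable.snd.comp Computable.snd)
  have p4 : Computable (fun S : St => S.2.2.2) :=
    Computable.snd.comp (Computable.snd.comp Computable.snd)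
  have hu : CI {orc c} (fun q : (St × Bool) × (St × ℕ × ℕ) => q.2.2.1) := CI.of_computable cu
  have hv : CI {orc c} (fun q : (St × Bool) × (St × ℕ × ℕ) => q.2.2.2) := CI.of_computable cv
  have hmin : CI {orc c} (fun q : (St × Bool) × (St × ℕ × ℕ) => min q.2.2.1 q.2.2.2) :=
    CI.comp₂ (h := fun a b => min a b) Primrec.nat_min.to_comp hu hv
  have hmax : CI {orc c} (fun q : (St × Bool) × (St × ℕ × ℕ) => max q.2.2.1 q.2.2.2) :=
    CI.comp₂ (h := fun a b => max a b) Primrec.nat_max.to_comp hu hv
  have hb : CI {orc c} (fun q : (St × Bool) × (St × ℕ × ℕ) => (q.1.2).toNat) := by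
    have h3 : Computable (fun b : Bool => b.toNat) := (Primrec.dom_bool _).to_comp
    exact CI.of_computable (h3.comp cb)
  have hd : CI {orc c} (fun q : (St × Bool) × (St × ℕ × ℕ) =>
      if q.2.2.1 < q.2.2.2 then 1 else 0) := CI.ite (DI.lt hu hv) (CI.const 1) (CI.const 0)
  refine ((di_edep hV hLc (p1.comp cS) (p3.comp cS') hu).and
    ((di_edep hV hLc (p2.comp cS) (p4.comp cS') hv).and
    ((di_efol hV hLc hIc hx (p3.comp cS) (p1.comp cS') hmin hmax).and
    ((di_efol hV hLc hIc hx (p4.comp cS) (p2.comp cS') hmin hmax).and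
      (DI.eq hb hd))))).of_iff ?_
  intro q
  unfold EStep
  refine and_congr Iff.rfl (and_congr Iff.rfl (and_congr Iff.rfl (and_congr Iff.rfl ?_)))
  by_cases h : q.2.2.1 < q.2.2.2
  · rw [if_pos h, decide_eq_true h]
    cases q.1.2 <;> simp
  · rw [if_neg h, decide_eq_false h]
    cases q.1.2 <;> simp

end Pool.Agent.Mart
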