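import Pool.Agent.Lib.MJump.EffEx
import Pool.Agent.Lib.MJump.EffDI

/-!
# Module EffCod: the effective coding lemma  (about 230 lines, mostly copied)

PROOF. By `exists_estep` every `(S, b)` has `(S', u, v)` with `EStep ψ x L I S b S' u v`. Turn `di_estep` into a `DI`
predicate on `ℕ × ℕ` (decode the first number into `St × Bool`, the second into `St × ℕ × ℕ`, both with default
values: `DI.comp_computable` with `Computable.option_getD (Computable.decode ..) (Computable.const ..)`) and apply
`choice` (for numbers which are not codes the default value is used, so existence holds for all numbers). This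
gives `t : ℕ → ℕ` with `CI {orc c} t` such that, for `T S b := (decoded t (Nat.pair (encode S) b.toNat)).1`, `u S b`,
`v S b` the decoded numbers, `EStep ψ x L I S b (T S b) (u S b) (v S b)`, hence `Step ψ x S b (T S b) (u S b) (v S b)` by
`estep_step`. (`Nat.pair (encode S) b.toNat = encode (S, b)`, as in the proof of `coding`, Table.lean.)
From here on copy the proof of `coding` (Table.lean, from `let s : ℕ → St := ...` on) with `z` the given real and
the table computed by `c` itself (`hpc`, `hp` replaced by the `CI {orc c}` statement on `t`): it defines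
`s 0 = ([], [], [], [])`, `s (i + 1) = T (s i) (z i)`, the four reals `α j` as limits, shows
`TR (α j) c` from `TR z c`, and the decoding `TR z (WW x fun j => ψ (α j))` from `decode_lemma`. `hx'` (all
`ψ (ext σ) ≤ x`, needed by `decode_lemma`) is `tr_of_idx` applied to `hI`.
-/

set_option autoImplicit false

namespace Pool.Agent.Mart

open Pool.Agent.GammaZero Encodable

/-- decoding of a phase -/
private def dec2 (m : ℕ) : St × ℕ × ℕ := (decode m : Option (St × ℕ × ℕ)).getD (([], [], [], []), 0, 0)

private theorem dec2_computable : Computable dec2 :=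
  Computable.option_getD Computable.decode (Computable.const _)

private def dec1 (m : ℕ) : St × Bool := (decode m : Option (St × Bool)).getD (([], [], [], []), false)

private theorem dec1_computable : Computable dec1 :=
  Computable.option_getD Computable.decode (Computable.const _)

private theorem dec1_pair (S : St) (b : Bool) : dec1 (Nat.pair (encode S) b.toNat) = (S, b) := by
  have h1 : Nat.pair (encode S) b.toNat = encode (S, b) := by cases b <;> rfl
  unfold dec1
  rw [h1, encodek, Option.getD_some]

private theorem dec2_encode (q : St × ℕ × ℕ) : dec2 (encode q) = q := by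
  unfold dec2
  rw [encodek, Option.getD_some]

private theorem eff_table {ψ : (ℕ → Bool) → (ℕ → Bool)} (hi : Function.Injective ψ)
    {x c : ℕ → Bool} {L I : ℕ → ℕ}
    (hL : ∀ (n : ℕ) (α β : ℕ → Bool), (∀ k < L n, α k = β k) → ψ α n = ψ β n)
    (hI : ∀ σ : List Bool, Idx x (I (encode σ)) (ψ (ext σ)) ∧
      ∀ e < I (encode σ), ¬ Idx x e (ψ (ext σ)))
    (hV : CI {orc c} (fun q : ℕ × ℕ => (ψ (ext (dl q.1)) q.2).toNat)) (hLc : CI {orc c} L)
    (hIc : CI {orc c} I) (hx : TR x c) : ∃ (T : St → Bool → St) (u v : St → Bool → ℕ)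
      (t : ℕ → ℕ), CI {orc c} t ∧
      (∀ (S : St) (b : Bool), Step ψ x S b (T S b) (u S b) (v S b)) ∧
      ∀ (S : St) (b : Bool), t (Nat.pair (encode S) b.toNat) = encode (T S b) := by
  have h1 : DI {orc c} (fun q : ℕ × ℕ => EStep ψ x L I (dec1 q.1).1 (dec1 q.1).2 (dec2 q.2).1
      (dec2 q.2).2.1 (dec2 q.2).2.2) :=
    (di_estep (ψ := ψ) hV hLc hIc hx).comp_computable
      (g := fun q : ℕ × ℕ => (dec1 q.1, dec2 q.2))
      (Computable.pair (dec1_computable.comp Computable.fst)
        (dec2_computable.comp Computable.snd))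
  obtain ⟨t, ht, ht2⟩ := choice h1 (fun n => by
    obtain ⟨S', u, v, h⟩ := exists_estep hi hL hI (dec1 n).1 (dec1 n).2
    refine ⟨encode (S', u, v), ?_⟩
    simp only [dec2_encode]
    exact h)
  refine ⟨fun S b => (dec2 (t (Nat.pair (encode S) b.toNat))).1,
    fun S b => (dec2 (t (Nat.pair (encode S) b.toNat))).2.1,
    fun S b => (dec2 (t (Nat.pair (encode S) b.toNat))).2.2,
    fun n => encode (dec2 (t n)).1, ?_, fun S b => ?_, fun S b => rfl⟩
  · exact CI.computable_comp (h := fun m => encode (dec2 m).1)
      (Computable.encode.comp (Computable.fst.comp dec2_computable)) ht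
  · have h2 := ht2 (Nat.pair (encode S) b.toNat)
    simp only [dec1_pair] at h2
    exact estep_step hL hI h2

theorem eff_coding {ψ : (ℕ → Bool) → (ℕ → Bool)} (hi : Function.Injective ψ)
    {x c : ℕ → Bool} {L I : ℕ → ℕ}
    (hL : ∀ (n : ℕ) (α β : ℕ → Bool), (∀ k < L n, α k = β k) → ψ α n = ψ β n)
    (hI : ∀ σ : List Bool, Idx x (I (encode σ)) (ψ (ext σ)) ∧
      ∀ e < I (encode σ), ¬ Idx x e (ψ (ext σ)))
    (hV : CI {orc c} (fun q : ℕ × ℕ => (ψ (ext (dl q.1)) q.2).toNat)) (hLc : CI {orc c} L)
    (hIc : CI {orc c} I) (hx : TR x c) {z : ℕ → Bool} (hz : TR z c) :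
    ∃ α : ℕ → ℕ → Bool, (∀ j, TR (α j) c) ∧ TR z (WW x fun j => ψ (α j)) := by
  have hx' : ∀ σ : List Bool, TR (ψ (ext σ)) x := fun σ => tr_of_idx (hI σ).1
  obtain ⟨T, u, v, t, hct, hT, ht⟩ := eff_table hi hL hI hV hLc hIc hx
  let s : ℕ → St := fun n => Nat.rec (([], [], [], []) : St) (fun i S => T S (z i)) n
  have hs : ∀ i, Step ψ x (s i) (z i) (s (i + 1)) (u (s i) (z i)) (v (s i) (z i)) :=
    fun i => hT (s i) (z i)
  let cc : ℕ → ℕ → List Bool := fun j i =>
    if j = 0 then (s (2 * i)).1 else if j = 1 then (s (2 * i)).2.1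
      else if j = 2 then (s (2 * i)).2.2.1 else (s (2 * i)).2.2.2
  let α : ℕ → ℕ → Bool := fun j => lim (cc j)
  -- growth
  have e2 : ∀ i, 2 * (i + 1) = 2 * i + 1 + 1 := fun i => by ring
  have g0 : ∀ i, (s (2 * i)).1 <+: (s (2 * (i + 1))).1 ∧
      (s (2 * i)).1.length < (s (2 * (i + 1))).1.length := by
    intro i
    have h1 := (hs (2 * i)).1
    have h2 := (hs (2 * i + 1)).2.2.1
    rw [e2]
    exact ⟨h1.1.trans h2.1, lt_of_lt_of_le h1.2.1 h2.1.length_le⟩
  have g1 : ∀ i, (s (2 * i)).2.1 <+: (s (2 * (i + 1))).2.1 ∧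
      (s (2 * i)).2.1.length < (s (2 * (i + 1))).2.1.length := by
    intro i
    have h1 := (hs (2 * i)).2.1
    have h2 := (hs (2 * i + 1)).2.2.2.1
    rw [e2]
    exact ⟨h1.1.trans h2.1, lt_of_lt_of_le h1.2.1 h2.1.length_le⟩
  have g2 : ∀ i, (s (2 * i)).2.2.1 <+: (s (2 * (i + 1))).2.2.1 ∧
      (s (2 * i)).2.2.1.length < (s (2 * (i + 1))).2.2.1.length := by
    intro i
    have h1 := (hs (2 * i)).2.2.1
    have h2 := (hs (2 * i + 1)).1
    rw [e2]
    exact ⟨h1.1.trans h2.1, lt_of_le_of_lt h1.1.length_le h2.2.1⟩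
  have g3 : ∀ i, (s (2 * i)).2.2.2 <+: (s (2 * (i + 1))).2.2.2 ∧
      (s (2 * i)).2.2.2.length < (s (2 * (i + 1))).2.2.2.length := by
    intro i
    have h1 := (hs (2 * i)).2.2.2.1
    have h2 := (hs (2 * i + 1)).2.1
    rw [e2]
    exact ⟨h1.1.trans h2.1, lt_of_le_of_lt h1.1.length_le h2.2.1⟩
  have m0 : ∀ i, Ext (s (2 * i)).1 (α 0) :=
    fun i => Ext_lim (cc 0) (fun i => (g0 i).1) (fun i => (g0 i).2) i
  have m1 : ∀ i, Ext (s (2 * i)).2.1 (α 1) :=
    fun i => Ext_lim (cc 1) (fun i => (g1 i).1) (fun i => (g1 i).2) i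
  have m2 : ∀ i, Ext (s (2 * i)).2.2.1 (α 2) :=
    fun i => Ext_lim (cc 2) (fun i => (g2 i).1) (fun i => (g2 i).2) i
  have m3 : ∀ i, Ext (s (2 * i)).2.2.2 (α 3) :=
    fun i => Ext_lim (cc 3) (fun i => (g3 i).1) (fun i => (g3 i).2) i
  -- membership at every phase
  have ma : ∀ i, Ext (s i).1 (α (2 * (i % 2))) := by
    intro i
    rcases Nat.mod_two_eq_zero_or_one i with h | h
    · rw [h]
      have h1 := m0 (i / 2)
      have h2 : 2 * (i / 2) = i := by omega
      rw [h2] at h1
      exact h1
    · rw [h]
      have h1 := m2 (i / 2 + 1)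
      have h2 : 2 * (i / 2 + 1) = i + 1 := by omega
      rw [h2] at h1
      exact Ext_mono (hs i).1.1 h1
  have mb : ∀ i, Ext (s i).2.1 (α (2 * (i % 2) + 1)) := by
    intro i
    rcases Nat.mod_two_eq_zero_or_one i with h | h
    · rw [h]
      have h1 := m1 (i / 2)
      have h2 : 2 * (i / 2) = i := by omega
      rw [h2] at h1
      exact h1
    · rw [h]
      have h1 := m3 (i / 2 + 1)
      have h2 : 2 * (i / 2 + 1) = i + 1 := by omega
      rw [h2] at h1
      exact Ext_mono (hs i).2.1.1 h1
  have mc : ∀ i, Ext (s i).2.2.1 (α (2 * ((i + 1) % 2))) := by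
    intro i
    rcases Nat.mod_two_eq_zero_or_one i with h | h
    · have h3 : (i + 1) % 2 = 1 := by omega
      rw [h3]
      have h1 := m2 (i / 2)
      have h2 : 2 * (i / 2) = i := by omega
      rw [h2] at h1
      exact h1
    · have h3 : (i + 1) % 2 = 0 := by omega
      rw [h3]
      have h1 := m0 (i / 2 + 1)
      have h2 : 2 * (i / 2 + 1) = i + 1 := by omega
      rw [h2] at h1
      exact Ext_mono (hs i).2.2.1.1 h1
  have md : ∀ i, Ext (s i).2.2.2 (α (2 * ((i + 1) % 2) + 1)) := by
    intro i
    rcases Nat.mod_two_eq_zero_or_one i with h | h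
    · have h3 : (i + 1) % 2 = 1 := by omega
      rw [h3]
      have h1 := m3 (i / 2)
      have h2 : 2 * (i / 2) = i := by omega
      rw [h2] at h1
      exact h1
    · have h3 : (i + 1) % 2 = 0 := by omega
      rw [h3]
      have h1 := m1 (i / 2 + 1)
      have h2 : 2 * (i / 2 + 1) = i + 1 := by omega
      rw [h2] at h1
      exact Ext_mono (hs i).2.2.2.1.1 h1
  have hmod : ∀ i, (i + 1 + 1) % 2 = i % 2 := fun i => by omega
  refine ⟨α, ?_, ?_⟩
  · -- computability
    intro j
    have hs' : CI {orc c} (fun i => encode (s i)) := by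
      have h1 : CI {orc c} (fun q : ℕ × ℕ × ℕ => t (Nat.pair q.2.2 (z q.2.1).toNat)) :=
        CI.comp hct (CI.npair (CI.of_computable (Computable.snd.comp Computable.snd))
          (ci_orc_comp hz (CI.of_computable (Computable.fst.comp Computable.snd))))
      have h2 := CI.sub (CI.natRec (CI.const (O := {orc c}) (α := ℕ) (encode (s 0))) h1)
        (CI.of_computable Computable.id)
      refine h2.congr fun n => ?_
      show encode (s n) = Nat.rec (encode (s 0)) (fun y ih => t (Nat.pair ih (z y).toNat)) n
      induction n with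
      | zero => rfl
      | succ n ih =>
        show encode (T (s n) (z n)) = t (Nat.pair (Nat.rec (encode (s 0))
          (fun y ih => t (Nat.pair ih (z y).toNat)) n) (z n).toNat)
        rw [← ih, ht]
    have hget : ∀ g : St → List Bool, Computable g →
        CI {orc c} (fun n => (((g (s (2 * (n + 1))))[n]?).getD false).toNat) := by
      intro g hg
      have h1 : Computable₂ fun (m n : ℕ) =>
          (((g ((decode m : Option St).getD default))[n]?).getD false).toNat := by
        have h2 : Computable fun q : ℕ × ℕ => g ((decode q.1 : Option St).getD default) :=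
          hg.comp (Computable.option_getD (Computable.decode.comp Computable.fst)
            (Computable.const default))
        have h3 : Computable fun q : ℕ × ℕ =>
            ((g ((decode q.1 : Option St).getD default))[q.2]?).getD false :=
          Computable.option_getD (Computable.list_getElem?.comp h2 Computable.snd)
            (Computable.const false)
        exact (Primrec.dom_finite Bool.toNat).to_comp.comp h3
      have h4 : CI {orc c} (fun n : ℕ => encode (s (2 * (n + 1)))) :=
        CI.comp hs' (CI.mul (CI.const 2) (CI.add (CI.of_computable Computable.id) (CI.const 1)))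
      refine (CI.comp₂ (h := fun m n =>
        (((g ((decode m : Option St).getD default))[n]?).getD false).toNat) h1 h4
        (CI.of_computable Computable.id)).congr fun n => ?_
      simp only [encodek, Option.getD_some, id]
    rw [tr_iff_ci]
    by_cases h0 : j = 0
    · refine (hget (fun S => S.1) Computable.fst).congr fun n => ?_
      simp only [α, lim, cc, h0, if_true]
    by_cases h1 : j = 1
    · refine (hget (fun S => S.2.1) (Computable.fst.comp Computable.snd)).congr fun n => ?_
      simp only [α, lim, cc, h1, if_true]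
      rfl
    by_cases h2 : j = 2
    · refine (hget (fun S => S.2.2.1)
        (Computable.fst.comp (Computable.snd.comp Computable.snd))).congr fun n => ?_
      simp only [α, lim, cc, h2, if_true]
      rfl
    · refine (hget (fun S => S.2.2.2)
        (Computable.snd.comp (Computable.snd.comp Computable.snd))).congr fun n => ?_
      simp only [α, lim, cc, if_neg h0, if_neg h1, if_neg h2]
  · -- decoding
    refine decode_lemma x (fun j => ψ (α j)) z (fun i => ψ (ext (s i).1))
      (fun i => ψ (ext (s i).2.1)) (fun i => u (s i) (z i)) (fun i => v (s i) (z i))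
      (hx' _) (hx' _) ?_ ?_ ?_ ?_ ?_
    · intro i
      have h1 := mc (i + 1)
      rw [hmod i] at h1
      exact (hs i).1.2.2 _ h1
    · intro i
      have h1 := md (i + 1)
      rw [hmod i] at h1
      exact (hs i).2.1.2.2 _ h1
    · intro i
      exact (hs i).2.2.2.2
    · intro i
      obtain ⟨e, he, h⟩ := (hs i).2.2.1.2
      exact ⟨e, h _ (ma (i + 1)), he⟩
    · intro i
      obtain ⟨e, he, h⟩ := (hs i).2.2.2.1.2
      exact ⟨e, h _ (mb (i + 1)), he⟩

end Pool.Agent.Mart
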