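import Pool.Agent.Lib.MJump.FamSig
import Pool.Agent.Lib.MJump.GenLem

/-!
# Module IdxFn: the least indices are computable in some jump of `t ⊕ G`  (about 120 lines)

PROOF. Let `p` be given by `fam_sig n` for the sets `S i = {A | φ A i = true}`. Given `t ≥ p` and `G`, let
`Y = bjoin t G ≥ p` and `F ρ = bjoin t (patch ρ G)`. `(ρ, k) ↦ (F ρ k).toNat` is computable in `Y`: cases on
`k % 2`; `patch ρ G k` is `ρ[k]` for `k < ρ.length` (a computable function of `(ρ, k)`) and `G k` otherwise. So
`(ρ, i) ↦ φ (F ρ) i = true` is decidable in `jmp (n + 1) Y`, so `(ρ, i) ↦ (φ (F ρ) i).toNat` is computable in it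
(`DI.ci`, `CI.congr`). With `ρ = []` (`patch_nil`), `x := φ (bjoin t G)` is computable in
`jmp (n + 1) Y`. Hence (`DI.U`) `U x e k s (φ (F ρ) k).toNat` is decidable in `jmp (n + 1) Y` as a predicate of
`(ρ, e, k, s)`; by `di_ex` `∃ s, ..` is decidable in `jmp (n + 2) Y`, by `di_forall` `∀ k, ∃ s, ..`, which is
`Idx x e (φ (F ρ))`, is decidable in `jmp (n + 3) Y` (`jmp_succ`); then also
`Q (ρ, e) := Idx x e (φ (F ρ)) ∧ ∀ e' < e, ¬ Idx x e' (φ (F ρ))` (`DI.ball`). For every `ρ` there is `e` with `Q (ρ, e)`: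
`exists_idx` from the hypothesis `h ρ`, and `Nat.find`. Apply `choice` to
`(a, e) ↦ Q (dl a, e)` (`DI.comp_computable`, `dl_computable`) and use `dl_encode`.
-/

set_option autoImplicit false

namespace Pool.Agent.Mart

open Pool.Agent.GammaZero Encodable

private theorem ci_toNat_getD {O : Set (ℕ →. ℕ)} :
    CI O (fun q : List Bool × ℕ => ((q.1[q.2]?).getD false).toNat) := by
  refine CI.of_computable ?_
  have h1 : Computable (fun q : List Bool × ℕ => (q.1[q.2]?).getD false) :=
    Computable.option_getD (Computable.list_getElem?.comp Computable.fst Computable.snd)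
      (Computable.const false)
  have h2 : Computable (fun q : List Bool × ℕ => cond ((q.1[q.2]?).getD false) 1 0) :=
    Computable.cond h1 (Computable.const 1) (Computable.const 0)
  refine h2.of_eq fun q => ?_
  cases (q.1[q.2]?).getD false <;> rfl

private theorem ci_patch {Y G : ℕ → Bool} (hG : TR G Y) :
    CI {orc Y} (fun q : List Bool × ℕ => (patch q.1 G q.2).toNat) := by
  refine (CI.ite (DI.lt (CI.of_computable Computable.snd)
    (CI.of_computable (Computable.list_length.comp Computable.fst))) ci_toNat_getD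
    (ci_orc_comp hG (CI.of_computable Computable.snd))).congr fun q => ?_
  by_cases h : q.2 < q.1.length
  · rw [if_pos h, patch_lt h, List.getElem?_eq_getElem h]
    rfl
  · rw [if_neg h, patch_ge (by omega)]

private theorem ci_F {Y t G : ℕ → Bool} (ht : TR t Y) (hG : TR G Y) :
    CI {orc Y} (fun q : List Bool × ℕ => (bjoin t (patch q.1 G) q.2).toNat) := by
  have hd : CI {orc Y} (fun q : List Bool × ℕ => q.2 / 2) :=
    CI.div (CI.of_computable Computable.snd) (CI.const 2)
  have h1 : CI {orc Y} (fun q : List Bool × ℕ => (patch q.1 G (q.2 / 2)).toNat) :=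
    (ci_patch hG).comp_computable (g := fun q : List Bool × ℕ => (q.1, q.2 / 2))
      (Computable.fst.pair ((Primrec.nat_div.to_comp).comp Computable.snd (Computable.const 2)))
  refine (CI.ite (DI.eq (CI.mod (CI.of_computable Computable.snd) (CI.const 2)) (CI.const 0))
    (ci_orc_comp ht hd) h1).congr fun q => ?_
  unfold bjoin
  split_ifs <;> rfl

theorem index_fn {φ : (ℕ → Bool) → (ℕ → Bool)} {n : ℕ} (hS : ∀ i, Sig n {A | φ A i = true}) :
    ∃ p : ℕ → Bool, ∀ t G : ℕ → Bool, TR p t →
      (∀ ρ : List Bool, TR (φ (bjoin t (patch ρ G))) (φ (bjoin t G))) →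
      TR (φ (bjoin t G)) (jmp (n + 1) (bjoin t G)) ∧
      ∃ I : ℕ → ℕ, CI {orc (jmp (n + 3) (bjoin t G))} I ∧ ∀ ρ : List Bool,
        Idx (φ (bjoin t G)) (I (encode ρ)) (φ (bjoin t (patch ρ G))) ∧
        ∀ e < I (encode ρ), ¬ Idx (φ (bjoin t G)) e (φ (bjoin t (patch ρ G))) := by
  classical
  obtain ⟨p, hp⟩ := fam_sig n (fun i => {A | φ A i = true}) hS
  refine ⟨p, fun t G hpt h => ?_⟩
  have hY : TR p (bjoin t G) := hpt.trans (tr_bjoin_left t G)
  have hF := ci_F (tr_bjoin_left t G) (tr_bjoin_right t G)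
  have hD := hp (bjoin t G) hY (fun ρ => bjoin t (patch ρ G)) hF
  have hC : CI {orc (jmp (n + 1) (bjoin t G))}
      (fun q : List Bool × ℕ => (φ (bjoin t (patch q.1 G)) q.2).toNat) := by
    refine (DI.ci hD).congr fun q => ?_
    show (φ (bjoin t (patch q.1 G)) q.2).toNat =
      if φ (bjoin t (patch q.1 G)) q.2 = true then 1 else 0
    cases φ (bjoin t (patch q.1 G)) q.2 <;> rfl
  have hx : TR (φ (bjoin t G)) (jmp (n + 1) (bjoin t G)) := by
    rw [tr_iff_ci]
    refine (hC.comp_computable (g := fun k : ℕ => (([] : List Bool), k))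
      ((Computable.const []).pair Computable.id)).congr fun k => ?_
    show _ = (φ (bjoin t (patch [] G)) k).toNat
    rw [patch_nil]
  refine ⟨hx, ?_⟩
  have hU : DI {orc (jmp (n + 1) (bjoin t G))} (fun q : ((List Bool × ℕ) × ℕ) × ℕ =>
      U (φ (bjoin t G)) q.1.1.2 q.1.2 q.2 (φ (bjoin t (patch q.1.1.1 G)) q.1.2).toNat) := by
    refine DI.U hx (CI.of_computable ?_) (CI.of_computable ?_) (CI.of_computable ?_)
      (hC.comp_computable (g := fun q : ((List Bool × ℕ) × ℕ) × ℕ => (q.1.1.1, q.1.2)) ?_)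
    · exact Computable.snd.comp (Computable.fst.comp Computable.fst)
    · exact Computable.snd.comp Computable.fst
    · exact Computable.snd
    · exact (Computable.fst.comp (Computable.fst.comp Computable.fst)).pair
        (Computable.snd.comp Computable.fst)
  have hE := di_ex hU
  have hA := di_forall hE
  rw [← jmp_succ, ← jmp_succ] at hA
  have hI : DI {orc (jmp (n + 3) (bjoin t G))} (fun q : List Bool × ℕ =>
      Idx (φ (bjoin t G)) q.2 (φ (bjoin t (patch q.1 G)))) := hA
  have hI2 : DI {orc (jmp (n + 3) (bjoin t G))} (fun q : ℕ × ℕ =>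
      Idx (φ (bjoin t G)) q.2 (φ (bjoin t (patch (dl q.1) G)))) :=
    hI.comp_computable (g := fun q : ℕ × ℕ => (dl q.1, q.2))
      ((dl_computable.comp Computable.fst).pair Computable.snd)
  have hI3 : DI {orc (jmp (n + 3) (bjoin t G))} (fun q : (ℕ × ℕ) × ℕ =>
      ¬ Idx (φ (bjoin t G)) q.2 (φ (bjoin t (patch (dl q.1.1) G)))) :=
    DI.not (hI2.comp_computable (g := fun q : (ℕ × ℕ) × ℕ => (q.1.1, q.2))
      ((Computable.fst.comp Computable.fst).pair Computable.snd))
  have hQ := hI2.and (DI.ball hI3 (CI.of_computable Computable.snd))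
  obtain ⟨c, hc, hcQ⟩ := choice hQ (fun a => by
    have hex := exists_idx (h (dl a))
    exact ⟨Nat.find hex, Nat.find_spec hex, fun k hk => Nat.find_min hex hk⟩)
  refine ⟨c, hc, fun ρ => ?_⟩
  have h1 := hcQ (encode ρ)
  simp only [dl_encode] at h1
  exact h1

end Pool.Agent.Mart
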