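import Pool.Agent.Lib.MJump.Branch

/-!
# Module Psi: the map `e ↦ f (brn w e)` on Cantor space  (about 110 lines)

`f` is a map on reals named by `Y` on the reals generic over `Z` (`ht`).

PROOFS. By `brn_gen`, for every `e` and `i` there is `m` with (1) `Y (pre (brn w e) m) i (f (brn w e) i)`.
`truth`: if `Y (pre G m) i b` and `G` is generic over `Z` then `f G i = b`: else take `m'` from `ht`, at `pre G (max m m')` both
values are decided (`mono`, `pre_prefix`), against `cons`.
`psi_inj`: if `e ≠ e'`, let `i` be the first difference, `σ = stm w e i = stm w e' i` (`stm_congr`), of length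
`bpos w i` (`stm_length`). The two branches extend `σ ++ w i (e i)` and `σ ++ w i (e' i)`, `{e i, e' i} = {false, true}`;
`hB.split i σ` gives `u` at which the values of `f` differ (`truth` at `m = bpos w (i + 1)`, `Ext_brn`:
`pre (brn w e) (bpos w (i + 1)) = stm w e (i + 1)`).
`psi_cont`: the condition for continuity at the coordinate `i`: given `e`, take `m` as in (1), and `l` with `m ≤ bpos w l`
(`hB.pos`: `l = m` works, `l ≤ bpos w l`). If `e'` agrees with `e` below `l`, then `stm w e l = stm w e' l`
(`stm_congr`) so `pre (brn w e') m = pre (brn w e) m` (`Ext_brn`, `Ext_iff`, `pre_eq_iff`), hence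
`f (brn w e') i = f (brn w e) i` by `truth`. So the map is locally constant at each coordinate:
`continuous_pi`, and `{e' | f (brn w e') i = b}` is open (`isOpen_cyl`, `isOpen_iff_forall_mem_open` or
`continuous_discrete`-style; `IsLocallyConstant`).
-/

set_option autoImplicit false

namespace Pool.Agent.Mart

open Pool.Agent.GammaZero Encodable

theorem psi_truth {Z : ℕ → Bool} {Y : List Bool → ℕ → Bool → Prop} (hY : Name Y)
    {f : (ℕ → Bool) → (ℕ → Bool)} (ht : ∀ G, Gen Z G → ∀ i, ∃ m, Y (pre G m) i (f G i))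
    {G : ℕ → Bool} (hG : Gen Z G) {m i : ℕ} {b : Bool} (h : Y (pre G m) i b) : f G i = b := by
  obtain ⟨m', hm'⟩ := ht G hG i
  have h1 : Y (pre G (max m m')) i b := hY.mono _ _ _ _ (pre_prefix G (le_max_left m m')) h
  have h2 : Y (pre G (max m m')) i (f G i) :=
    hY.mono _ _ _ _ (pre_prefix G (le_max_right m m')) hm'
  have h3 := hY.cons (pre G (max m m')) i
  cases hb : b <;> cases hf : f G i
  · rfl
  · rw [hb] at h1
    rw [hf] at h2
    exact absurd ⟨h2, h1⟩ h3
  · rw [hb] at h1
    rw [hf] at h2
    exact absurd ⟨h1, h2⟩ h3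
  · rfl

private theorem psi_ne {Z : ℕ → Bool} {Y : List Bool → ℕ → Bool → Prop} (hY : Name Y)
    {w : ℕ → Bool → List Bool} (hB : Blocks Z Y w) {f : (ℕ → Bool) → (ℕ → Bool)}
    (ht : ∀ G, Gen Z G → ∀ i, ∃ m, Y (pre G m) i (f G i)) {e e' : ℕ → Bool} {i : ℕ}
    (hag : ∀ j < i, e j = e' j) (h0 : e i = false) (h1 : e' i = true) :
    f (brn w e) ≠ f (brn w e') := by
  intro heq
  have hst : stm w e i = stm w e' i := stm_congr hag
  have hl : (stm w e i).length = bpos w i := stm_length hB.len e i
  have he : Ext (stm w e i ++ w i false) (brn w e) := by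
    have := Ext_brn hB.len hB.pos e (i + 1)
    rw [← h0]
    exact this
  have he' : Ext (stm w e i ++ w i true) (brn w e') := by
    have := Ext_brn hB.len hB.pos e' (i + 1)
    rw [← h1, hst]
    exact this
  unfold Ext at he he'
  obtain ⟨u, _, hu⟩ := hB.split i (stm w e i) hl
  have key : ∀ b b' : Bool, Y (stm w e i ++ w i false) u b → Y (stm w e i ++ w i true) u b' →
      b = b' := by
    intro b b' hb hb'
    rw [← he] at hb
    rw [← he'] at hb'
    have e1 := psi_truth hY ht (brn_gen hB e) hb
    have e2 := psi_truth hY ht (brn_gen hB e') hb'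
    rw [← e1, ← e2, heq]
  rcases hu with ⟨ha, hb⟩ | ⟨ha, hb⟩
  · exact absurd (key _ _ ha hb) (by simp)
  · exact absurd (key _ _ ha hb) (by simp)

theorem psi_inj {Z : ℕ → Bool} {Y : List Bool → ℕ → Bool → Prop} (hY : Name Y)
    {w : ℕ → Bool → List Bool} (hB : Blocks Z Y w) {f : (ℕ → Bool) → (ℕ → Bool)}
    (ht : ∀ G, Gen Z G → ∀ i, ∃ m, Y (pre G m) i (f G i)) :
    Function.Injective (fun e => f (brn w e)) := by
  classical
  intro e e' heq
  have heq' : f (brn w e) = f (brn w e') := heq
  by_contra hne
  have hex : ∃ i, e i ≠ e' i := by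
    by_contra hcon
    push Not at hcon
    exact hne (funext hcon)
  have hsp := Nat.find_spec hex
  have hmin : ∀ j < Nat.find hex, e j = e' j := fun j hj => not_not.1 (Nat.find_min hex hj)
  cases h0 : e (Nat.find hex) <;> cases h1 : e' (Nat.find hex)
  · exact hsp (h0.trans h1.symm)
  · exact psi_ne hY hB ht hmin h0 h1 heq'
  · exact psi_ne hY hB ht (fun j hj => (hmin j hj).symm) h1 h0 heq'.symm
  · exact hsp (h0.trans h1.symm)

theorem psi_cont {Z : ℕ → Bool} {Y : List Bool → ℕ → Bool → Prop} (hY : Name Y)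
    {w : ℕ → Bool → List Bool} (hB : Blocks Z Y w) {f : (ℕ → Bool) → (ℕ → Bool)}
    (ht : ∀ G, Gen Z G → ∀ i, ∃ m, Y (pre G m) i (f G i)) :
    Continuous (fun e => f (brn w e)) := by
  refine continuous_pi fun i => ?_
  apply IsLocallyConstant.continuous
  rw [IsLocallyConstant.iff_exists_open]
  intro e
  obtain ⟨m, hm⟩ := ht _ (brn_gen hB e) i
  have hml : m ≤ bpos w m := by
    have : ∀ k, k ≤ bpos w k := by
      intro k
      induction k with
      | zero => exact Nat.zero_le _
      | succ k ih =>
        rw [bpos_succ]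
        have := hB.pos k
        omega
    exact this m
  refine ⟨{e' : ℕ → Bool | ∀ k < m, e' k = e k}, isOpen_cyl e m, fun k _ => rfl, ?_⟩
  intro e' he'
  have hst : stm w e' m = stm w e m := stm_congr he'
  have h1 : Ext (stm w e m) (brn w e) := Ext_brn hB.len hB.pos e m
  have h2 : Ext (stm w e m) (brn w e') := by
    rw [← hst]
    exact Ext_brn hB.len hB.pos e' m
  have hl : (stm w e m).length = bpos w m := stm_length hB.len e m
  have hp : pre (brn w e') m = pre (brn w e) m := by
    rw [pre_eq_iff]
    intro k hk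
    rw [Ext_iff] at h1 h2
    have hk' : k < (stm w e m).length := by omega
    have a1 := h1 k hk'
    have a2 := h2 k hk'
    rw [a1] at a2
    exact (Option.some.inj a2).symm
  rw [← hp] at hm
  exact psi_truth hY ht (brn_gen hB e') hm

end Pool.Agent.Mart
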