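import Pool.Agent.Lib.MJump.Inv
import Pool.Agent.Lib.MJump.Psi
import Pool.Agent.Lib.MJump.IdxFn
import Pool.Agent.Lib.MJump.EffCod

/-!
# Module Five: five reals with a given jump whose values compute it  (about 200 lines)

This is the case nowhere constant. `t` is fixed, `Y` names `G ↦ φ (bjoin t G)` on the reals generic over `jmp n t`.
`M ≥ n + 2`.

PROOF. By `blocks_exist` with `Z = jmp M t` (`Y` is decidable in `jmp (n + 1) t ≤ jmp (M + 1) t = jump (jmp M t)`) get
`w`, computable in `jmp (M + 1) t`. Let `f G = φ (bjoin t G)` and `ψ e = f (brn w e)`. By `psi_cont`, `psi_inj` (`ht`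
for `Z = jmp M t` follows from `ht` by `Gen.mono`, `n ≤ M`) `ψ` is continuous and injective. By `unif_cont` (Cont.lean)
there is `L` with: `ψ α n = ψ β n` if `α, β` agree below `L n`. Let `p₁` be a real computing the table
`m ↦ Nat.pair (L m) (ψ (ext (dl m.unpair.2)) m.unpair.1).toNat` (`exists_table`, as in the proof of `cont_param`), let
`p₂` be the real of `index_fn`, and `C' = bjoin (bjoin (jmp (M + 1) t) p₁) ..` (`p₂ ≤ t` is assumed). Let
`c ≥ C'`.
Put `ψ_c α = ψ (bjoin c α) = φ (bjoin t (brn w (bjoin c α)))`, `G₀ = brn w (bjoin c (ext []))`, `x = φ (bjoin t G₀) = ψ_c (ext [])`.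
Check the hypotheses of `eff_coding` for `ψ_c, x, c, z = c`:
- injective: `bjoin c α = bjoin c β → α = β` (read odd positions) and `psi_inj`.
- `hL`: if `α, β` agree below `L n` then `bjoin c α, bjoin c β` agree below `L n` (`j / 2 ≤ j`).
- `hV`: `ψ_c (ext σ) k = ψ (ext (pre (bjoin c (ext σ)) (L k))) k` is read off the table (as in `cont_param`);
  `(n, k) ↦ encode (pre (bjoin c (ext (dl n))) (L k))` is computable in `c` (`fam_pre` for the family
  `σ ↦ bjoin c (ext σ)`, and `DI`/`CI` composition).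
- `hLc`: the table.
- `hI`, `hIc`: by `brn_patch`, `brn w (bjoin c (ext σ)) = patch (ρ σ) G₀` with
  `ρ σ = stm w (bjoin c (ext σ)) (2 * σ.length)`, and `encode (ρ (dl n))` is computable in `c` (`ci_stm`). By `hinv` and
  `patch_tr`, `tr_patch` the hypothesis of `index_fn` (with `G = G₀`) holds, which gives `I₀`, computable in
  `jmp (n + 3) (bjoin t G₀) ≤ jmp (M + 1) (bjoin t G₀) ≤ c` (`n + 3 ≤ M + 1`, `jmp_tr_jmp`, `jmp_branch`). Put
  `I a = I₀ (encode (ρ (dl a)))`, so `I (encode σ) = I₀ (encode (ρ σ))`.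
- `hx`: `x ≤ jmp (n + 1) (bjoin t G₀) ≤ c` (first part of `index_fn`).
So there are `α j ≤ c` with `c ≤ WW x (fun j => ψ_c (α j))`. Put `a 0 = bjoin t G₀` and
`a (j + 1) = bjoin t (brn w (bjoin c (α j)))`. `WW x (fun j => ψ_c (α j)) = join5 (fun j => φ (a j))`
(unfold `WW`; the functions agree for every `j`: `j = 0`, `j = (j - 1) + 1`). By `jmp_branch` with `e = bjoin c (α j)`
(`≤ c`): `jmp (M + 1) (a (j + 1)) ≤ c` and `c ≤ bjoin c (α j) ≤ jmp (M + 1) (a (j + 1))`; same for `a 0`
(`ext [] ≤ c`, it is the zero real).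
-/

set_option autoImplicit false

namespace Pool.Agent.Mart

open Pool.Agent.GammaZero Encodable

private theorem ext_comp : Computable (fun q : List Bool × ℕ => (ext q.1 q.2).toNat) := by
  have h1 : Computable (fun q : List Bool × ℕ => (q.1[q.2]?).getD false) :=
    Computable.option_getD (Computable.list_getElem?.comp Computable.fst Computable.snd)
      (Computable.const false)
  have h2 : Computable Bool.toNat := (Primrec.dom_bool Bool.toNat).to_comp
  exact h2.comp h1

private theorem ext_tr (σ : List Bool) (c : ℕ → Bool) : TR (ext σ) c := by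
  rw [tr_iff_ci]
  exact CI.of_computable (ext_comp.comp ((Computable.const σ).pair Computable.id))

private theorem fam_bjoin (c : ℕ → Bool) :
    CI {orc c} (fun q : List Bool × ℕ => (bjoin c (ext q.1) q.2).toNat) := by
  have hsnd : CI {orc c} (fun q : List Bool × ℕ => q.2) := CI.of_computable Computable.snd
  have hdiv : Computable (fun q : List Bool × ℕ => q.2 / 2) :=
    (Primrec.nat_div.comp Primrec.snd (Primrec.const 2)).to_comp
  refine (CI.ite (DI.eq (CI.mod hsnd (CI.const 2)) (CI.const 0))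
    (ci_orc_comp (TR.refl c) (CI.div hsnd (CI.const 2)))
    (CI.of_computable (ext_comp.comp (Computable.fst.pair hdiv)))).congr fun q => ?_
  unfold bjoin
  split_ifs <;> rfl

private theorem bjoin_right_inj {c α β : ℕ → Bool} (h : bjoin c α = bjoin c β) : α = β := by
  funext k
  have h1 := congrFun h (2 * k + 1)
  unfold bjoin at h1
  have h2 : ¬ (2 * k + 1) % 2 = 0 := by omega
  have h3 : (2 * k + 1) / 2 = k := by omega
  rw [if_neg h2, if_neg h2, h3] at h1
  exact h1

theorem five_reals {φ : (ℕ → Bool) → (ℕ → Bool)} {n : ℕ} (hS : ∀ i, Sig n {A | φ A i = true})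
    (hinv : ∀ A B, Eqv A B → TR (φ A) (φ B)) :
    ∃ p : ℕ → Bool, ∀ t, TR p t → ∀ Y : List Bool → ℕ → Bool → Prop, Name Y →
      DI {orc (jmp (n + 1) t)} (fun q : List Bool × ℕ × Bool => Y q.1 q.2.1 q.2.2) →
      (∀ G, Gen (jmp n t) G → ∀ i, ∃ m, Y (pre G m) i (φ (bjoin t G) i)) → NC Y →
      ∀ M, n + 2 ≤ M → ∃ C' : ℕ → Bool, ∀ c, TR C' c →
        ∃ a : ℕ → ℕ → Bool, (∀ j, Eqv (jmp (M + 1) (a j)) c) ∧ (∀ j, TR t (a j)) ∧
          TR c (join5 fun j => φ (a j)) := by
  obtain ⟨p, hp⟩ := index_fn hS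
  refine ⟨p, fun t hpt Y hY hYd ht hNC M hM => ?_⟩
  have hYd' : DI {orc (jump (jmp M t))}
      (fun q : List Bool × ℕ × Bool => Y q.1 q.2.1 q.2.2) := by
    rw [← jmp_succ]
    exact di_tr hYd (jmp_tr_jmp t (by omega))
  obtain ⟨w, hB, hw⟩ := blocks_exist hY hYd' hNC
  rw [← jmp_succ] at hw
  have ht' : ∀ G, Gen (jmp M t) G → ∀ i, ∃ m, Y (pre G m) i ((fun G => φ (bjoin t G)) G i) :=
    fun G hG => ht G (hG.mono (jmp_tr_jmp t (by omega)))
  obtain ⟨ψ, hψ⟩ : ∃ ψ : (ℕ → Bool) → (ℕ → Bool), ψ = fun e => φ (bjoin t (brn w e)) :=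
    ⟨_, rfl⟩
  have hψc : Continuous ψ := by
    rw [hψ]
    exact psi_cont (f := fun G => φ (bjoin t G)) hY hB ht'
  have hψi : Function.Injective ψ := by
    rw [hψ]
    exact psi_inj (f := fun G => φ (bjoin t G)) hY hB ht'
  choose L hL using unif_cont hψc
  obtain ⟨p1, hp1⟩ := exists_table (fun m =>
    Nat.pair (L m) (ψ (ext (dl m.unpair.2)) m.unpair.1).toNat)
  refine ⟨bjoin (jmp (M + 1) t) p1, fun c hc => ?_⟩
  have hJc : TR (jmp (M + 1) t) c := (tr_bjoin_left _ _).trans hc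
  have hp1c := ci_tr hp1 ((tr_bjoin_right (jmp (M + 1) t) p1).trans hc)
  have hwc := ci_tr hw hJc
  have hLc : CI {orc c} L := (CI.left hp1c).congr fun m => by simp only [Nat.unpair_pair]
  -- the base point
  have he0 : TR (bjoin c (ext [])) c := bjoin_tr (TR.refl c) (ext_tr [] c)
  have hbr := fun (e : ℕ → Bool) (he : TR e c) => jmp_branch hY hB hw hJc he
  have hG0 := (hbr _ he0).1
  obtain ⟨G₀, hG₀⟩ : ∃ G₀, G₀ = brn w (bjoin c (ext [])) := ⟨_, rfl⟩
  rw [← hG₀] at hG0
  have hpatch : ∀ ρ : List Bool, TR (φ (bjoin t (patch ρ G₀))) (φ (bjoin t G₀)) := by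
    intro ρ
    apply hinv
    exact ⟨bjoin_tr (tr_bjoin_left t G₀) ((patch_tr ρ G₀).trans (tr_bjoin_right t G₀)),
      bjoin_tr (tr_bjoin_left t (patch ρ G₀))
        ((tr_patch ρ G₀).trans (tr_bjoin_right t (patch ρ G₀)))⟩
  obtain ⟨hx0, I₀, hI₀, hI₀'⟩ := hp t G₀ hpt hpatch
  have hx : TR (φ (bjoin t G₀)) c := (hx0.trans (jmp_tr_jmp _ (by omega))).trans hG0
  have hI₀c : CI {orc c} I₀ := ci_tr hI₀ ((jmp_tr_jmp _ (by omega)).trans hG0)
  -- the map ψ_c
  have hψσ : ∀ σ : List Bool, ψ (bjoin c (ext σ)) =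
      φ (bjoin t (patch (stm w (bjoin c (ext σ)) (2 * σ.length)) G₀)) := by
    intro σ
    rw [hψ, hG₀]
    simp only []
    rw [← brn_patch hB.len hB.pos c σ]
  have hinj : Function.Injective (fun α : ℕ → Bool => ψ (bjoin c α)) :=
    fun α β h => bjoin_right_inj (hψi h)
  have hL' : ∀ (n : ℕ) (α β : ℕ → Bool), (∀ k < L n, α k = β k) →
      (fun α : ℕ → Bool => ψ (bjoin c α)) α n = (fun α : ℕ → Bool => ψ (bjoin c α)) β n := by
    intro n α β h
    refine hL n _ _ fun k hk => ?_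
    unfold bjoin
    split_ifs
    · rfl
    · exact h (k / 2) (lt_of_le_of_lt (Nat.div_le_self k 2) hk)
  have hV : CI {orc c} (fun q : ℕ × ℕ =>
      ((fun α : ℕ → Bool => ψ (bjoin c α)) (ext (dl q.1)) q.2).toNat) := by
    have h1 : CI {orc c} (fun q : ℕ × ℕ => encode (pre (bjoin c (ext (dl q.1))) q.2)) :=
      (fam_pre (F := fun σ => bjoin c (ext σ)) (fam_bjoin c)).comp_computable
        (g := fun q : ℕ × ℕ => ((dl q.1, q.2) : List Bool × ℕ))
        ((dl_computable.comp Computable.fst).pair Computable.snd)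
    have h2 : CI {orc c} (fun q : ℕ × ℕ => L q.2) := hLc.comp_computable Computable.snd
    have h3 : CI {orc c} (fun q : ℕ × ℕ =>
        encode (pre (bjoin c (ext (dl q.1))) (L q.2))) :=
      CI.app2 h1 (CI.of_computable Computable.fst) h2
    have h4 := CI.comp hp1c (CI.npair (CI.of_computable (O := {orc c})
      (Computable.snd (α := ℕ) (β := ℕ))) h3)
    refine (CI.right h4).congr fun q => ?_
    simp only [Nat.unpair_pair, dl_encode]
    congr 1
    apply hL
    intro k hk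
    show bjoin c (ext (dl q.1)) k = ((pre (bjoin c (ext (dl q.1))) (L q.2))[k]?).getD false
    rw [pre_getElem? _ _ k hk]
    rfl
  have hIc : CI {orc c} (fun a : ℕ =>
      I₀ (encode (stm w (bjoin c (ext (dl a))) (2 * (dl a).length)))) :=
    CI.comp hI₀c (ci_stm hwc)
  obtain ⟨α, hα, hz⟩ := eff_coding (ψ := fun α : ℕ → Bool => ψ (bjoin c α)) hinj
    (x := φ (bjoin t G₀)) (c := c) (L := L)
    (I := fun a : ℕ => I₀ (encode (stm w (bjoin c (ext (dl a))) (2 * (dl a).length))))
    hL' (fun σ => by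
      simp only [dl_encode, hψσ σ]
      exact hI₀' _) hV hLc hIc hx (TR.refl c)
  refine ⟨fun j => Nat.casesOn j (bjoin t G₀) (fun i => bjoin t (brn w (bjoin c (α i)))),
    ?_, ?_, ?_⟩
  · intro j
    rcases j with _ | i
    · have h5 := (hbr _ he0).2
      rw [← hG₀] at h5
      exact ⟨hG0, (tr_bjoin_left c (ext [])).trans h5⟩
    · have h6 : TR (bjoin c (α i)) c := bjoin_tr (TR.refl c) (hα i)
      exact ⟨(hbr _ h6).1, (tr_bjoin_left c (α i)).trans (hbr _ h6).2⟩
  · intro j
    rcases j with _ | i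
    · exact tr_bjoin_left _ _
    · exact tr_bjoin_left _ _
  · have h7 : (join5 fun j => φ ((fun j => Nat.casesOn j (bjoin t G₀)
        (fun i => bjoin t (brn w (bjoin c (α i)))) : ℕ → ℕ → Bool) j)) =
        WW (φ (bjoin t G₀)) (fun j => ψ (bjoin c (α j))) := by
      unfold WW
      congr 1
      funext j
      rcases j with _ | i
      · rfl
      · rw [hψ]
        rfl
    rw [h7]
    exact hz

end Pool.Agent.Mart
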