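import Pool.Agent.Lib.MP_d1129e_lc.T1

/-!
Definitions for the jump theorem on Martin's conjecture (MP_d1129e_lc, second result):
Turing jump, genericity, boldface Borel classes of finite rank, names, systems of blocks.
-/

set_option autoImplicit false

namespace Pool.Agent.Mart

open Pool.Agent.GammaZero Encodable

/-- the Turing jump of `A`: bit `n` says whether program `n.unpair.1` with oracle `A` halts on
input `n.unpair.2` -/
noncomputable def jump (A : ℕ → Bool) (n : ℕ) : Bool :=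
  @decide (∃ s, res A n.unpair.1 n.unpair.2 s ≠ 0) (Classical.propDecidable _)

/-- the iterated jump -/
noncomputable def jmp (k : ℕ) (A : ℕ → Bool) : ℕ → Bool := jump^[k] A

theorem jmp_zero (A : ℕ → Bool) : jmp 0 A = A := rfl

theorem jmp_succ (k : ℕ) (A : ℕ → Bool) : jmp (k + 1) A = jump (jmp k A) :=
  Function.iterate_succ_apply' _ _ _

theorem jmp_add (k l : ℕ) (A : ℕ → Bool) : jmp (k + l) A = jmp k (jmp l A) :=
  Function.iterate_add_apply _ _ _ _

theorem jump_iff (A : ℕ → Bool) (n : ℕ) :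
    jump A n = true ↔ ∃ s, res A n.unpair.1 n.unpair.2 s ≠ 0 := by
  unfold jump
  exact @decide_eq_true_iff _ (Classical.propDecidable _)

/-- `G` is 1-generic over `Z` -/
def Gen (Z G : ℕ → Bool) : Prop :=
  ∀ S : List Bool → Prop, DI {orc Z} S →
    (∃ m, S (pre G m)) ∨ ∃ m, ∀ τ, pre G m <+: τ → ¬ S τ

/-- `S` is in the boldface class `Σ⁰_(n+1)` -/
def Sig : ℕ → Set (ℕ → Bool) → Prop
  | 0, S => IsOpen S
  | n + 1, S => ∃ T : ℕ → Set (ℕ → Bool), (∀ i, Sig n (T i)) ∧ S = ⋃ i, (T i)ᶜ

/-- the real `G` with its first bits replaced by `σ` -/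
def patch (σ : List Bool) (G : ℕ → Bool) (n : ℕ) : Bool := (σ[n]?).getD (G n)

/-- a name for a real: `Y ρ n b` means that the string `ρ` decides that bit `n` is `b` -/
structure Name (Y : List Bool → ℕ → Bool → Prop) : Prop where
  mono : ∀ (ρ τ : List Bool) (n : ℕ) (b : Bool), ρ <+: τ → Y ρ n b → Y τ n b
  cons : ∀ (ρ : List Bool) (n : ℕ), ¬ (Y ρ n true ∧ Y ρ n false)
  dense : ∀ (ρ : List Bool) (n : ℕ), ∃ (τ : List Bool) (b : Bool), ρ <+: τ ∧ Y τ n b

/-- the name `Y` is nowhere constant -/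
def NC (Y : List Bool → ℕ → Bool → Prop) : Prop :=
  ∀ σ : List Bool, ∃ (ρ₀ ρ₁ : List Bool) (n : ℕ),
    σ <+: ρ₀ ∧ σ <+: ρ₁ ∧ Y ρ₀ n true ∧ Y ρ₁ n false

/-- the `i`-th set of strings enumerated with oracle `Z` (closed under extensions, decidable in
`Z`) -/
def Wset (Z : ℕ → Bool) (i : ℕ) (ρ : List Bool) : Prop :=
  ∃ k < ρ.length + 1, ∃ s < ρ.length, res Z i (encode (ρ.take k)) s ≠ 0

/-- `ρ` decides the `i`-th set -/
def Dec (Z : ℕ → Bool) (i : ℕ) (ρ : List Bool) : Prop :=
  Wset Z i ρ ∨ ∀ τ, ρ <+: τ → ¬ Wset Z i τ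

/-- after `σ`, the blocks `w₀` and `w₁` give different values to some bit `u < |w₀|` of the name -/
def Split (Y : List Bool → ℕ → Bool → Prop) (σ w₀ w₁ : List Bool) : Prop :=
  ∃ u < w₀.length, (Y (σ ++ w₀) u true ∧ Y (σ ++ w₁) u false) ∨
    (Y (σ ++ w₀) u false ∧ Y (σ ++ w₁) u true)

/-- position of the `i`-th block -/
def bpos (w : ℕ → Bool → List Bool) (i : ℕ) : ℕ := ∑ j ∈ Finset.range i, (w j false).length

theorem bpos_zero (w : ℕ → Bool → List Bool) : bpos w 0 = 0 := rfl

theorem bpos_succ (w : ℕ → Bool → List Bool) (i : ℕ) :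
    bpos w (i + 1) = bpos w i + (w i false).length := Finset.sum_range_succ _ _

/-- a system of blocks: at each level two strings of the same length, which split the name `Y` and
decide the `i`-th set enumerated in `Z`, after every string of the right length -/
structure Blocks (Z : ℕ → Bool) (Y : List Bool → ℕ → Bool → Prop)
    (w : ℕ → Bool → List Bool) : Prop where
  len : ∀ i, (w i true).length = (w i false).length
  pos : ∀ i, 0 < (w i false).length
  split : ∀ (i : ℕ) (σ : List Bool), σ.length = bpos w i → Split Y σ (w i false) (w i true)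
  dec : ∀ (i : ℕ) (σ : List Bool) (b : Bool), σ.length = bpos w i → Dec Z i (σ ++ w i b)

/-- initial strings of the branch `e` -/
def stm (w : ℕ → Bool → List Bool) (e : ℕ → Bool) : ℕ → List Bool
  | 0 => []
  | i + 1 => stm w e i ++ w i (e i)

/-- the branch `e` of the tree of blocks -/
def brn (w : ℕ → Bool → List Bool) (e : ℕ → Bool) : ℕ → Bool := lim (stm w e)

/-- equality of Turing degrees -/
def Eqv (A B : ℕ → Bool) : Prop := TR A B ∧ TR B A

theorem Eqv.symm {A B : ℕ → Bool} (h : Eqv A B) : Eqv B A := ⟨h.2, h.1⟩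

theorem Eqv.trans {A B C : ℕ → Bool} (h : Eqv A B) (h' : Eqv B C) : Eqv A C :=
  ⟨h.1.trans h'.1, h'.2.trans h.2⟩

theorem Eqv.refl (A : ℕ → Bool) : Eqv A A := ⟨TR.refl A, TR.refl A⟩

/-! ### small facts -/

theorem patch_lt {σ : List Bool} {G : ℕ → Bool} {n : ℕ} (h : n < σ.length) :
    patch σ G n = σ[n] := by
  unfold patch
  rw [List.getElem?_eq_getElem h]
  rfl

theorem patch_ge {σ : List Bool} {G : ℕ → Bool} {n : ℕ} (h : σ.length ≤ n) :
    patch σ G n = G n := by
  unfold patch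
  rw [List.getElem?_eq_none h]
  rfl

theorem patch_nil (G : ℕ → Bool) : patch [] G = G := by
  funext n
  exact patch_ge (Nat.zero_le _)

theorem Ext_patch (σ : List Bool) (G : ℕ → Bool) : Ext σ (patch σ G) := by
  rw [Ext_iff]
  intro k hk
  rw [patch_lt hk, List.getElem?_eq_getElem hk]

/-- strings extending `ρ` are the `ρ ++ dl s` -/
theorem forall_ext_iff {ρ : List Bool} {Q : List Bool → Prop} :
    (∀ τ, ρ <+: τ → Q τ) ↔ ∀ s, Q (ρ ++ dl s) := by
  constructor
  · intro h s
    exact h _ (List.prefix_append _ _)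
  · rintro h τ ⟨r, rfl⟩
    have := h (encode r)
    rw [dl_encode] at this
    exact this

end Pool.Agent.Mart
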