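import Pool.Agent.Lib.MJump.GenLem

/-!
# Module BlockLem: existence of a block  (about 130 lines, pure combinatorics of strings)

PROOFS.
`Split_mono`: if `w₀ <+: v₀`, `w₁ <+: v₁` then `Split Y σ w₀ w₁ → Split Y σ v₀ v₁` (`hY.mono`, and
`w₀.length ≤ v₀.length`; the bound on `u` in `Split` refers to `w₀`).
`split_list`: for every finite list `L` of strings there are `w₀ w₁` with `w₁.length = w₀.length` and
`Split Y σ w₀ w₁` for all `σ ∈ L`. Induction on `L`. For `σ :: L` take `w₀ w₁` for `L`. By `hNC` at `σ ++ w₀` there are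
`v₀ v₁ n` with `Y (σ ++ w₀ ++ v₀) n true` and `Y (σ ++ w₀ ++ v₁) n false`. By `hY.dense` at `σ ++ w₁` and `n` there are
`v b` with `Y (σ ++ w₁ ++ v) n b`. If `b = true` use the new pair `(w₀ ++ v₁, w₁ ++ v)` (values `false`, `true`), if
`b = false` use `(w₀ ++ v₀, w₁ ++ v)` (values `true`, `false`). Pad both with `false`s
(`List.replicate`) to one common length which is larger than `n`; then `u = n` works for `σ`, and the other
`σ' ∈ L` are kept by `Split_mono`.
`decide_list`: for every finite list `L` of strings, every `w` and `Z`, `i` there is `w' ⊇ w` with `Dec Z i (σ ++ w')`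
for all `σ ∈ L`: induction on `L` with `dec_dense` and `Dec_mono`.
`block_exists`: let `L` be the list of all strings of length `N` (finite: `List.finite_length_eq Bool N`,
`Set.Finite.toFinset.toList`). Take `w₀ w₁` from `split_list`, extend each by `decide_list`, pad to a common
length. `0 < w₀.length` because some `σ` of length `N` exists (`List.replicate N false`) and `Split` gives
`u < w₀.length`.
-/

set_option autoImplicit false

namespace Pool.Agent.Mart

open Pool.Agent.GammaZero Encodable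

private theorem bl_app {σ w v : List Bool} (h : w <+: v) : σ ++ w <+: σ ++ v :=
  (List.prefix_append_right_inj σ).2 h

private theorem bl_pad (a c : List Bool) (n : ℕ) :
    ∃ A C : List Bool, a <+: A ∧ c <+: C ∧ C.length = A.length ∧ n < A.length := by
  refine ⟨a ++ List.replicate (c.length + n + 1) false, c ++ List.replicate (a.length + n + 1) false,
    List.prefix_append _ _, List.prefix_append _ _, ?_, ?_⟩
  · simp only [List.length_append, List.length_replicate]
    omega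
  · simp only [List.length_append, List.length_replicate]
    omega

theorem Split_mono {Y : List Bool → ℕ → Bool → Prop} (hY : Name Y) {σ w₀ w₁ v₀ v₁ : List Bool}
    (h₀ : w₀ <+: v₀) (h₁ : w₁ <+: v₁) (h : Split Y σ w₀ w₁) : Split Y σ v₀ v₁ := by
  obtain ⟨u, hu, h⟩ := h
  refine ⟨u, lt_of_lt_of_le hu h₀.length_le, ?_⟩
  rcases h with ⟨h2, h3⟩ | ⟨h2, h3⟩
  · exact Or.inl ⟨hY.mono _ _ _ _ (bl_app h₀) h2, hY.mono _ _ _ _ (bl_app h₁) h3⟩
  · exact Or.inr ⟨hY.mono _ _ _ _ (bl_app h₀) h2, hY.mono _ _ _ _ (bl_app h₁) h3⟩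

private theorem bl_split_list {Y : List Bool → ℕ → Bool → Prop} (hY : Name Y) (hNC : NC Y)
    (L : List (List Bool)) : ∃ w₀ w₁ : List Bool, w₁.length = w₀.length ∧ ∀ σ ∈ L, Split Y σ w₀ w₁ := by
  induction L with
  | nil => exact ⟨[], [], rfl, fun σ hσ => absurd hσ List.not_mem_nil⟩
  | cons σ L ih =>
    obtain ⟨w₀, w₁, -, h⟩ := ih
    obtain ⟨ρ₀, ρ₁, n, ⟨v₀, rfl⟩, ⟨v₁, rfl⟩, hY₀, hY₁⟩ := hNC (σ ++ w₀)
    obtain ⟨τ, b, ⟨v, rfl⟩, hYτ⟩ := hY.dense (σ ++ w₁) n
    cases b with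
    | true =>
      obtain ⟨A, C, hA, hC, hl, hn⟩ := bl_pad (w₀ ++ v₁) (w₁ ++ v) n
      refine ⟨A, C, hl, ?_⟩
      intro σ' hσ'
      rcases List.mem_cons.1 hσ' with rfl | hσ'
      · refine ⟨n, hn, Or.inr ⟨hY.mono _ _ _ _ ?_ hY₁, hY.mono _ _ _ _ ?_ hYτ⟩⟩
        · rw [List.append_assoc]; exact bl_app hA
        · rw [List.append_assoc]; exact bl_app hC
      · exact Split_mono hY ((List.prefix_append _ _).trans hA) ((List.prefix_append _ _).trans hC) (h σ' hσ')
    | false =>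
      obtain ⟨A, C, hA, hC, hl, hn⟩ := bl_pad (w₀ ++ v₀) (w₁ ++ v) n
      refine ⟨A, C, hl, ?_⟩
      intro σ' hσ'
      rcases List.mem_cons.1 hσ' with rfl | hσ'
      · refine ⟨n, hn, Or.inl ⟨hY.mono _ _ _ _ ?_ hY₀, hY.mono _ _ _ _ ?_ hYτ⟩⟩
        · rw [List.append_assoc]; exact bl_app hA
        · rw [List.append_assoc]; exact bl_app hC
      · exact Split_mono hY ((List.prefix_append _ _).trans hA) ((List.prefix_append _ _).trans hC) (h σ' hσ')

private theorem bl_decide_list (Z : ℕ → Bool) (i : ℕ) (L : List (List Bool)) (w : List Bool) :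
    ∃ w' : List Bool, w <+: w' ∧ ∀ σ ∈ L, Dec Z i (σ ++ w') := by
  induction L with
  | nil => exact ⟨w, List.prefix_rfl, fun σ hσ => absurd hσ List.not_mem_nil⟩
  | cons σ L ih =>
    obtain ⟨w', hw, h⟩ := ih
    obtain ⟨τ, ⟨v, rfl⟩, hτ⟩ := dec_dense Z i (σ ++ w')
    refine ⟨w' ++ v, hw.trans (List.prefix_append _ _), ?_⟩
    intro σ' hσ'
    rcases List.mem_cons.1 hσ' with rfl | hσ'
    · rw [← List.append_assoc]; exact hτ
    · exact Dec_mono (bl_app (List.prefix_append _ _)) (h σ' hσ')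

theorem block_exists (Z : ℕ → Bool) {Y : List Bool → ℕ → Bool → Prop} (hY : Name Y)
    (hNC : NC Y) (N i : ℕ) :
    ∃ w₀ w₁ : List Bool, w₁.length = w₀.length ∧ 0 < w₀.length ∧
      ∀ σ : List Bool, σ.length = N →
        Split Y σ w₀ w₁ ∧ Dec Z i (σ ++ w₀) ∧ Dec Z i (σ ++ w₁) := by
  have hfin : {l : List Bool | l.length = N}.Finite := List.finite_length_eq Bool N
  have hmem : ∀ σ : List Bool, σ.length = N → σ ∈ hfin.toFinset.toList := by
    intro σ hσ
    rw [Finset.mem_toList, Set.Finite.mem_toFinset]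
    exact hσ
  obtain ⟨w₀, w₁, -, hs⟩ := bl_split_list hY hNC hfin.toFinset.toList
  obtain ⟨v₀, hv₀, hd₀⟩ := bl_decide_list Z i hfin.toFinset.toList w₀
  obtain ⟨v₁, hv₁, hd₁⟩ := bl_decide_list Z i hfin.toFinset.toList w₁
  obtain ⟨A, C, hA, hC, hl, hn⟩ := bl_pad v₀ v₁ 0
  refine ⟨A, C, hl, hn, ?_⟩
  intro σ hσ
  refine ⟨Split_mono hY (hv₀.trans hA) (hv₁.trans hC) (hs σ (hmem σ hσ)), ?_, ?_⟩
  · exact Dec_mono (bl_app hA) (hd₀ σ (hmem σ hσ))
  · exact Dec_mono (bl_app hC) (hd₁ σ (hmem σ hσ))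

end Pool.Agent.Mart
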