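import Pool.Agent.Lib.MJump.BlockLem

/-!
# Module BlockSys: a system of blocks computable in the jump  (about 180 lines)

PROOFS.
`bs N c` is the string of the first `N` binary digits of `c`; it is computable in `(N, c)` (`List.map` over
`List.range`: `Primrec.list_map`, `Primrec.list_range`), and every string of length `N` is `bs N c` for some
`c < 2 ^ N` (use `enc`, `bt`, `enc_lt`, `bt_enc` in Lib/MP_349b57_lc/Codes.lean, namespace
`Pool.Agent.GammaZero`, with `b q = ((σ[q]?).getD false).toNat`).
`di_Wset`: `(i, ρ) ↦ Wset Z i ρ` is decidable in `Z`: `DI.bex` twice over `res Z i (encode (ρ.take k)) s ≠ 0`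
(`ci_res`, `CI.app3`; `ρ.take k` is computable).
`di_Dec`: `Dec Z i ρ` is decidable in `jump Z` (`forall_ext_iff`, `di_forall`, `tr_jump` for the first part).
`di_Split`: `Split Y σ w₀ w₁` is decidable in any oracle in which `Y` is (`DI.bex` over `u < w₀.length`).
`blocks_exist`: the condition on `a = Nat.pair N i` and `n = Nat.pair (encode w₀) (encode w₁)`
`P (a, n) := w₁.length = w₀.length ∧ 0 < w₀.length ∧ ∀ c < 2 ^ N, Split Y (bs N c) w₀ w₁ ∧
Dec Z i (bs N c ++ w₀) ∧ Dec Z i (bs N c ++ w₁)` (with `w₀ = dl n.unpair.1`, `w₁ = dl n.unpair.2`,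
`N = a.unpair.1`, `i = a.unpair.2`) is decidable in `jump Z` and satisfiable for every `a` (`block_exists`), so
`choice` gives `c : ℕ → ℕ` computable in `jump Z` with `P (a, c a)`. Define the positions by
`N₀ = 0`, `N_(i+1) = N_i + (dl (c (Nat.pair N_i i)).unpair.1).length` (computable in `jump Z`, `CI.natRec`) and
`w i false = dl (c (Nat.pair N_i i)).unpair.1`, `w i true = dl (c (Nat.pair N_i i)).unpair.2`; then `bpos w i = N_i`
by induction (`bpos_succ`), and `Blocks Z Y w` is the meaning of `P`.
-/

set_option autoImplicit false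

namespace Pool.Agent.Mart

open Pool.Agent.GammaZero Encodable

/-- the first `N` binary digits of `c` -/
private def bs (N c : ℕ) : List Bool := (List.range N).map fun q => decide (bt c q = 1)

private theorem bs_length (N c : ℕ) : (bs N c).length = N := by simp [bs]

private theorem bs_surj (σ : List Bool) : ∃ c < 2 ^ σ.length, bs σ.length c = σ := by
  refine ⟨enc (fun q => ((σ[q]?).getD false).toNat) σ.length, enc_lt _ _, ?_⟩
  apply List.ext_getElem
  · simp [bs]
  · intro i h1 h2
    have hi : i < σ.length := h2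
    simp only [bs, List.getElem_map, List.getElem_range]
    rw [bt_enc _ hi, List.getElem?_eq_getElem hi]
    cases σ[i] <;> simp

private theorem bs_computable : Computable₂ bs := by
  have h : Primrec fun r : (ℕ × ℕ) × ℕ => r.1.2 / 2 ^ r.2 % 2 :=
    Primrec.nat_mod.comp (Primrec.nat_div.comp (Primrec.snd.comp Primrec.fst)
      (primrec_pow.comp (Primrec.const 2) Primrec.snd)) (Primrec.const 2)
  have h2 : Primrec fun r : (ℕ × ℕ) × ℕ => decide (bt r.1.2 r.2 = 1) :=
    (Primrec.eq.comp h (Primrec.const 1)).decide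
  have h3 : Primrec fun p : ℕ × ℕ => bs p.1 p.2 :=
    Primrec.list_map (Primrec.list_range.comp Primrec.fst) h2.to₂
  exact h3.to_comp.to₂

private theorem di_Wset (Z : ℕ → Bool) :
    DI {orc Z} (fun q : ℕ × List Bool => Wset Z q.1 q.2) := by
  have h1 : DI {orc Z} (fun r : ((ℕ × List Bool) × ℕ) × ℕ =>
      res Z r.1.1.1 (encode (r.1.1.2.take r.1.2)) r.2 ≠ 0) := by
    refine DI.not (DI.eq (CI.app3 (ci_res Z) (CI.of_computable ?_) (CI.of_computable ?_)
      (CI.of_computable Computable.snd)) (CI.const 0))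
    · exact Computable.fst.comp (Computable.fst.comp Computable.fst)
    · refine Computable.encode.comp ?_
      have : Primrec fun r : ((ℕ × List Bool) × ℕ) × ℕ => r.1.1.2.take r.1.2 :=
        Primrec.list_take.comp (Primrec.snd.comp Primrec.fst)
          (Primrec.snd.comp (Primrec.fst.comp Primrec.fst))
      exact this.to_comp
  have h2 : DI {orc Z} (fun r : (ℕ × List Bool) × ℕ =>
      ∃ s < r.1.2.length, res Z r.1.1 (encode (r.1.2.take r.2)) s ≠ 0) :=
    DI.bex h1 (CI.of_computable (Computable.list_length.comp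
      (Computable.snd.comp Computable.fst)))
  exact DI.bex h2 (CI.of_computable (Computable.succ.comp
    (Computable.list_length.comp Computable.snd)))

private theorem di_Dec (Z : ℕ → Bool) :
    DI {orc (jump Z)} (fun q : ℕ × List Bool => Dec Z q.1 q.2) := by
  have h1 : DI {orc Z} (fun r : (ℕ × List Bool) × ℕ => ¬ Wset Z r.1.1 (r.1.2 ++ dl r.2)) := by
    refine DI.not ((di_Wset Z).comp_computable (g := fun r : (ℕ × List Bool) × ℕ =>
      (r.1.1, r.1.2 ++ dl r.2)) ?_)
    exact (Computable.fst.comp Computable.fst).pair (Computable.list_append.comp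
      (Computable.snd.comp Computable.fst) (dl_computable.comp Computable.snd))
  refine ((di_tr (di_Wset Z) (tr_jump Z)).or (di_forall h1)).of_iff fun a => ?_
  unfold Dec
  rw [forall_ext_iff (ρ := a.2) (Q := fun τ => ¬ Wset Z a.1 τ)]

private theorem di_Split {X : ℕ → Bool} {Y : List Bool → ℕ → Bool → Prop}
    (hYd : DI {orc X} (fun q : List Bool × ℕ × Bool => Y q.1 q.2.1 q.2.2)) :
    DI {orc X} (fun q : List Bool × List Bool × List Bool => Split Y q.1 q.2.1 q.2.2) := by
  have hc0 : Computable fun r : (List Bool × List Bool × List Bool) × ℕ => r.1.1 ++ r.1.2.1 :=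
    Computable.list_append.comp (Computable.fst.comp Computable.fst)
      (Computable.fst.comp (Computable.snd.comp Computable.fst))
  have hc1 : Computable fun r : (List Bool × List Bool × List Bool) × ℕ => r.1.1 ++ r.1.2.2 :=
    Computable.list_append.comp (Computable.fst.comp Computable.fst)
      (Computable.snd.comp (Computable.snd.comp Computable.fst))
  have h0 : ∀ b : Bool, DI {orc X} (fun r : (List Bool × List Bool × List Bool) × ℕ =>
      Y (r.1.1 ++ r.1.2.1) r.2 b) := fun b =>
    hYd.comp_computable (g := fun r : (List Bool × List Bool × List Bool) × ℕ =>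
      (r.1.1 ++ r.1.2.1, r.2, b)) (hc0.pair (Computable.snd.pair (Computable.const b)))
  have h1 : ∀ b : Bool, DI {orc X} (fun r : (List Bool × List Bool × List Bool) × ℕ =>
      Y (r.1.1 ++ r.1.2.2) r.2 b) := fun b =>
    hYd.comp_computable (g := fun r : (List Bool × List Bool × List Bool) × ℕ =>
      (r.1.1 ++ r.1.2.2, r.2, b)) (hc1.pair (Computable.snd.pair (Computable.const b)))
  exact DI.bex (((h0 true).and (h1 false)).or ((h0 false).and (h1 true)))
    (CI.of_computable (Computable.list_length.comp (Computable.fst.comp Computable.snd)))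

theorem blocks_exist {Z : ℕ → Bool} {Y : List Bool → ℕ → Bool → Prop} (hY : Name Y)
    (hYd : DI {orc (jump Z)} (fun q : List Bool × ℕ × Bool => Y q.1 q.2.1 q.2.2))
    (hNC : NC Y) :
    ∃ w : ℕ → Bool → List Bool, Blocks Z Y w ∧
      CI {orc (jump Z)} (fun q : ℕ × Bool => encode (w q.1 q.2)) := by
  let P : ℕ × ℕ → Prop := fun p =>
    (dl p.2.unpair.2).length = (dl p.2.unpair.1).length ∧ 0 < (dl p.2.unpair.1).length ∧
    ∀ c < 2 ^ p.1.unpair.1,
      Split Y (bs p.1.unpair.1 c) (dl p.2.unpair.1) (dl p.2.unpair.2) ∧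
      Dec Z p.1.unpair.2 (bs p.1.unpair.1 c ++ dl p.2.unpair.1) ∧
      Dec Z p.1.unpair.2 (bs p.1.unpair.1 c ++ dl p.2.unpair.2)
  have c0 : Computable fun p : ℕ × ℕ => dl p.2.unpair.1 :=
    dl_computable.comp (Computable.fst.comp (Computable.unpair.comp Computable.snd))
  have c1 : Computable fun p : ℕ × ℕ => dl p.2.unpair.2 :=
    dl_computable.comp (Computable.snd.comp (Computable.unpair.comp Computable.snd))
  have cN : Computable fun p : ℕ × ℕ => p.1.unpair.1 :=
    Computable.fst.comp (Computable.unpair.comp Computable.fst)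
  have ci : Computable fun p : ℕ × ℕ => p.1.unpair.2 :=
    Computable.snd.comp (Computable.unpair.comp Computable.fst)
  have cb : Computable fun r : (ℕ × ℕ) × ℕ => bs r.1.1.unpair.1 r.2 :=
    bs_computable.comp (cN.comp Computable.fst) Computable.snd
  have hP : DI {orc (jump Z)} P := by
    refine DI.and (DI.eq (CI.of_computable (Computable.list_length.comp c1))
      (CI.of_computable (Computable.list_length.comp c0))) (DI.and (DI.lt (CI.const 0)
      (CI.of_computable (Computable.list_length.comp c0))) ?_)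
    have hS : DI {orc (jump Z)} (fun r : (ℕ × ℕ) × ℕ =>
        Split Y (bs r.1.1.unpair.1 r.2) (dl r.1.2.unpair.1) (dl r.1.2.unpair.2)) :=
      (di_Split hYd).comp_computable (g := fun r : (ℕ × ℕ) × ℕ =>
        (bs r.1.1.unpair.1 r.2, dl r.1.2.unpair.1, dl r.1.2.unpair.2))
        (cb.pair ((c0.comp Computable.fst).pair (c1.comp Computable.fst)))
    have hD0 : DI {orc (jump Z)} (fun r : (ℕ × ℕ) × ℕ =>
        Dec Z r.1.1.unpair.2 (bs r.1.1.unpair.1 r.2 ++ dl r.1.2.unpair.1)) :=
      (di_Dec Z).comp_computable (g := fun r : (ℕ × ℕ) × ℕ =>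
        (r.1.1.unpair.2, bs r.1.1.unpair.1 r.2 ++ dl r.1.2.unpair.1))
        ((ci.comp Computable.fst).pair (Computable.list_append.comp cb (c0.comp Computable.fst)))
    have hD1 : DI {orc (jump Z)} (fun r : (ℕ × ℕ) × ℕ =>
        Dec Z r.1.1.unpair.2 (bs r.1.1.unpair.1 r.2 ++ dl r.1.2.unpair.2)) :=
      (di_Dec Z).comp_computable (g := fun r : (ℕ × ℕ) × ℕ =>
        (r.1.1.unpair.2, bs r.1.1.unpair.1 r.2 ++ dl r.1.2.unpair.2))
        ((ci.comp Computable.fst).pair (Computable.list_append.comp cb (c1.comp Computable.fst)))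
    exact DI.ball (hS.and (hD0.and hD1)) (CI.pow (CI.const 2) (CI.of_computable cN))
  have hex : ∀ a, ∃ n, P (a, n) := by
    intro a
    obtain ⟨w₀, w₁, h1, h2, h3⟩ := block_exists Z hY hNC a.unpair.1 a.unpair.2
    refine ⟨Nat.pair (encode w₀) (encode w₁), ?_⟩
    simp only [P, Nat.unpair_pair, dl_encode]
    exact ⟨h1, h2, fun c _ => h3 _ (bs_length _ _)⟩
  obtain ⟨c, hc, hcP⟩ := choice hP hex
  let N : ℕ → ℕ := fun n => Nat.rec 0
    (fun i Ni => Ni + (dl (c (Nat.pair Ni i)).unpair.1).length) n
  have hN0 : N 0 = 0 := rfl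
  have hN1 : ∀ i, N (i + 1) = N i + (dl (c (Nat.pair (N i) i)).unpair.1).length := fun _ => rfl
  have hN : CI {orc (jump Z)} N := by
    have h1 : CI {orc (jump Z)} (fun p : ℕ × ℕ × ℕ =>
        p.2.2 + (dl (c (Nat.pair p.2.2 p.2.1)).unpair.1).length) := by
      refine CI.add (CI.of_computable (Computable.snd.comp Computable.snd)) ?_
      have h2 : CI {orc (jump Z)} (fun p : ℕ × ℕ × ℕ => (c (Nat.pair p.2.2 p.2.1)).unpair.1) :=
        CI.left (CI.comp hc (CI.npair (CI.of_computable (Computable.snd.comp Computable.snd))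
          (CI.of_computable (Computable.fst.comp Computable.snd))))
      exact CI.computable_comp (h := fun n => (dl n).length)
        (Computable.list_length.comp dl_computable) h2
    exact CI.sub (CI.natRec (CI.const (O := {orc (jump Z)}) (α := ℕ) 0) h1)
      (CI.of_computable Computable.id)
  let w : ℕ → Bool → List Bool := fun i b =>
    if b = true then dl (c (Nat.pair (N i) i)).unpair.2 else dl (c (Nat.pair (N i) i)).unpair.1
  have hwt : ∀ i, w i true = dl (c (Nat.pair (N i) i)).unpair.2 := fun i => if_pos rfl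
  have hwf : ∀ i, w i false = dl (c (Nat.pair (N i) i)).unpair.1 := fun i =>
    if_neg Bool.false_ne_true
  have hpos : ∀ i, bpos w i = N i := by
    intro i
    induction i with
    | zero => rfl
    | succ i ih => rw [bpos_succ, ih, hN1, hwf]
  have hspec : ∀ i, (w i true).length = (w i false).length ∧ 0 < (w i false).length ∧
      ∀ σ : List Bool, σ.length = bpos w i → Split Y σ (w i false) (w i true) ∧
        Dec Z i (σ ++ w i false) ∧ Dec Z i (σ ++ w i true) := by
    intro i
    have h := hcP (Nat.pair (N i) i)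
    simp only [P, Nat.unpair_pair] at h
    obtain ⟨h1, h2, h3⟩ := h
    rw [hwt, hwf]
    refine ⟨h1, h2, fun σ hσ => ?_⟩
    obtain ⟨d, hd, hdσ⟩ := bs_surj σ
    rw [hσ, hpos] at hd hdσ
    have h4 := h3 d hd
    rw [hdσ] at h4
    exact h4
  refine ⟨w, ⟨fun i => (hspec i).1, fun i => (hspec i).2.1, fun i σ hσ => ((hspec i).2.2 σ hσ).1,
    fun i σ b hσ => ?_⟩, ?_⟩
  · cases b
    · exact ((hspec i).2.2 σ hσ).2.1
    · exact ((hspec i).2.2 σ hσ).2.2
  · have h1 : CI {orc (jump Z)} (fun q : ℕ × Bool => c (Nat.pair (N q.1) q.1)) :=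
      CI.comp hc (CI.npair (CI.comp hN (CI.of_computable Computable.fst))
        (CI.of_computable Computable.fst))
    have h2 : Computable fun n : ℕ => encode (dl n) := Computable.encode.comp dl_computable
    have h3 : DI {orc (jump Z)} (fun q : ℕ × Bool => (encode q.2) = encode true) :=
      DI.eq (CI.of_computable (Computable.encode.comp Computable.snd)) (CI.const _)
    have h4 : DI {orc (jump Z)} (fun q : ℕ × Bool => q.2 = true) :=
      h3.of_iff fun a => ⟨fun h => by rw [h], fun h => Encodable.encode_injective h⟩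
    refine (CI.ite h4 (CI.computable_comp h2 (CI.right h1))
      (CI.computable_comp h2 (CI.left h1))).congr fun q => ?_
    obtain ⟨i, b⟩ := q
    cases b
    · simp only [hwf]
      rfl
    · simp only [hwt]
      rfl

end Pool.Agent.Mart
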