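import Pool.Agent.Lib.MJump.GenLem

/-!
# Module Branch: the branches of a tree of blocks  (about 250 lines)

`hlen`, `hpos`: the two blocks of each level have the same positive length.

PROOFS.
`stm_length`: induction (`bpos_succ`, `hlen`). `stm_congr`: induction.
`Ext_brn`: `Ext_lim` (Table.lean): `stm w e i <+: stm w e (i + 1)` and the length grows by `hpos`.
`brn_inj_step`: if `e, e'` agree below `i` and differ at `i` then both branches start with the same
`σ = stm w e i` of length `bpos w i`, followed by `w i (e i)`, `w i (e' i)`: this is just `Ext_brn` at `i + 1`; no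
separate statement needed.
`brn_patch`: `bjoin c (ext σ)` and `bjoin c (ext [])` agree at all `j ≥ 2 * σ.length` (at odd `j = 2 k + 1` the
value is `ext σ k = false` for `k ≥ σ.length`, `ext_ge`; at even `j` it is `c (j / 2)`). General lemma (prove it
first, private): if `e j = e' j` for all `j ≥ i` then
`brn w e = patch (stm w e i) (brn w e')`: below `bpos w i` by `Ext_brn` and `patch_lt`; for `n ≥ bpos w i` show
`brn w e n = brn w e' n`: for every `l ≥ i`, `stm w e l = stm w e i ++ r` and `stm w e' l = stm w e' i ++ r` with the
same `r` (induction on `l`), and `stm w e i`, `stm w e' i` have the same length `bpos w i`; choose `l` with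
`n < bpos w l` and use `Ext_brn`, `Ext_iff`.
`brn_tr`: `stm w e (i)` is computed from `e` by primitive recursion with oracle `c` (`CI.natRec`, step
`encode (dl ih ++ dl (W (i, e i)))`, where `W` is the given `CI` function; to feed the Boolean `e i` use cases
`CI.ite` on `(e i).toNat = 1` between `encode (w i true)` and `encode (w i false)`), and
`brn w e n = ((stm w e (n + 1))[n]?).getD false` (`lim`). In the same way `ci_stm` for the family
`e_σ = bjoin c (ext σ)`: primitive recursion with parameter `σ`; `(σ, j) ↦ (bjoin c (ext σ) j).toNat` is computable in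
`c` (cases on `j % 2`; `ext σ k` is a computable function of `(σ, k)`).
`tr_brn`: decode: `e i = true` iff the part of `brn w e` from `bpos w i` to `bpos w (i + 1)` is `w i true`
(`hne : w i false ≠ w i true`). `bpos w i` is computable in `c` (primitive recursion), hence so is the string
`(pre (brn w e) (bpos w (i + 1))).drop (bpos w i)` (`ci_pre`), and one compares its code with `encode (w i true)`
(`stm w e (i + 1) = stm w e i ++ w i (e i)`, `Ext_brn`, `List.drop_left'`).
`brn_gen`: `gen_of_dec` with `m = bpos w (i + 1)`: `pre (brn w e) (bpos w (i + 1)) = stm w e i ++ w i (e i)` and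
`hB.dec`.
-/

set_option autoImplicit false

namespace Pool.Agent.Mart

open Pool.Agent.GammaZero Encodable

variable {w : ℕ → Bool → List Bool}

theorem stm_length (hlen : ∀ i, (w i true).length = (w i false).length) (e : ℕ → Bool) (i : ℕ) :
    (stm w e i).length = bpos w i := by
  induction i with
  | zero => rfl
  | succ i ih =>
    show (stm w e i ++ w i (e i)).length = _
    rw [List.length_append, ih, bpos_succ]
    congr 1
    cases e i with
    | true => exact hlen i
    | false => rfl

theorem stm_congr {e e' : ℕ → Bool} {i : ℕ} (h : ∀ j < i, e j = e' j) :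
    stm w e i = stm w e' i := by
  induction i with
  | zero => rfl
  | succ i ih =>
    show stm w e i ++ w i (e i) = stm w e' i ++ w i (e' i)
    rw [ih fun j hj => h j (Nat.lt_succ_of_lt hj), h i (Nat.lt_succ_self i)]

theorem Ext_brn (hlen : ∀ i, (w i true).length = (w i false).length)
    (hpos : ∀ i, 0 < (w i false).length) (e : ℕ → Bool) (i : ℕ) :
    Ext (stm w e i) (brn w e) := by
  have hp : ∀ i, 0 < (w i (e i)).length := by
    intro i
    cases e i with
    | true => rw [hlen]; exact hpos i
    | false => exact hpos i
  refine Ext_lim (stm w e) (fun i => List.prefix_append _ _) (fun i => ?_) i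
  show (stm w e i).length < (stm w e i ++ w i (e i)).length
  rw [List.length_append]
  have := hp i
  omega

private theorem br_le_bpos (hpos : ∀ i, 0 < (w i false).length) (i : ℕ) : i ≤ bpos w i := by
  induction i with
  | zero => exact Nat.zero_le _
  | succ i ih =>
    rw [bpos_succ]
    have := hpos i
    omega

private theorem br_common {e e' : ℕ → Bool} {i : ℕ} (h : ∀ j, i ≤ j → e j = e' j) (l : ℕ) :
    ∃ r, stm w e (i + l) = stm w e i ++ r ∧ stm w e' (i + l) = stm w e' i ++ r := by
  induction l with
  | zero => exact ⟨[], (List.append_nil _).symm, (List.append_nil _).symm⟩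
  | succ l ih =>
    obtain ⟨r, h1, h2⟩ := ih
    refine ⟨r ++ w (i + l) (e (i + l)), ?_, ?_⟩
    · show stm w e (i + l) ++ w (i + l) (e (i + l)) = _
      rw [h1, List.append_assoc]
    · show stm w e' (i + l) ++ w (i + l) (e' (i + l)) = _
      rw [h2, List.append_assoc, h (i + l) (Nat.le_add_right _ _)]

private theorem br_tail (hlen : ∀ i, (w i true).length = (w i false).length)
    (hpos : ∀ i, 0 < (w i false).length) {e e' : ℕ → Bool} {i : ℕ}
    (h : ∀ j, i ≤ j → e j = e' j) : brn w e = patch (stm w e i) (brn w e') := by
  funext n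
  rcases Nat.lt_or_ge n (stm w e i).length with hn | hn
  · rw [patch_lt hn]
    have h1 := (Ext_iff _ _).1 (Ext_brn hlen hpos e i) n hn
    rw [List.getElem?_eq_getElem hn] at h1
    exact (Option.some.inj h1).symm
  · rw [patch_ge hn]
    obtain ⟨r, h1, h2⟩ := br_common (w := w) h (n + 1)
    have hl : n < bpos w (i + (n + 1)) := by
      have := br_le_bpos (w := w) hpos (i + (n + 1))
      omega
    have h3 := (Ext_iff _ _).1 (Ext_brn hlen hpos e (i + (n + 1))) n
      (by rw [stm_length hlen]; exact hl)
    have h4 := (Ext_iff _ _).1 (Ext_brn hlen hpos e' (i + (n + 1))) n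
      (by rw [stm_length hlen]; exact hl)
    have hn' : (stm w e' i).length ≤ n := by
      rw [stm_length hlen] at hn ⊢
      exact hn
    rw [h1, List.getElem?_append_right hn, stm_length hlen] at h3
    rw [h2, List.getElem?_append_right hn', stm_length hlen] at h4
    rw [h3] at h4
    exact Option.some.inj h4

theorem brn_patch (hlen : ∀ i, (w i true).length = (w i false).length)
    (hpos : ∀ i, 0 < (w i false).length) (c : ℕ → Bool) (σ : List Bool) :
    brn w (bjoin c (ext σ)) =
      patch (stm w (bjoin c (ext σ)) (2 * σ.length)) (brn w (bjoin c (ext []))) := by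
  refine br_tail hlen hpos fun j hj => ?_
  unfold bjoin
  by_cases hj2 : j % 2 = 0
  · rw [if_pos hj2, if_pos hj2]
  · rw [if_neg hj2, if_neg hj2, ext_ge σ _ (by omega), ext_ge [] _ (Nat.zero_le _)]

private theorem br_ci_blk {O : Set (ℕ →. ℕ)} {α : Type} [Primcodable α]
    (hw : CI O (fun q : ℕ × Bool => encode (w q.1 q.2))) (b : Bool) {k : α → ℕ}
    (hk : CI O k) : CI O (fun a => encode (w (k a) b)) := by
  have h1 : CI O (fun n : ℕ => encode (w n b)) :=
    hw.comp_computable (g := fun n : ℕ => (n, b)) (Computable.id.pair (Computable.const b))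
  exact CI.comp h1 hk

private theorem br_app : Computable₂ fun c d : ℕ => encode (dl c ++ dl d) :=
  Computable.encode.comp (Computable.list_append.comp (dl_computable.comp Computable.fst)
    (dl_computable.comp Computable.snd))

private theorem br_get : Computable₂ fun c n : ℕ => (((dl c)[n]?).getD false).toNat :=
  (Primrec.dom_finite Bool.toNat).to_comp.comp (Computable.option_getD
    (Computable.list_getElem?.comp (dl_computable.comp Computable.fst) Computable.snd)
    (Computable.const false))

private theorem br_ci_stm {O : Set (ℕ →. ℕ)} {α : Type} [Primcodable α]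
    (hw : CI O (fun q : ℕ × Bool => encode (w q.1 q.2))) {E : α → ℕ → Bool}
    (hE : CI O (fun p : α × ℕ => (E p.1 p.2).toNat)) :
    CI O (fun p : α × ℕ => encode (stm w (E p.1) p.2)) := by
  have h1 : CI O (fun p : α × ℕ × ℕ =>
      encode (dl p.2.2 ++ dl (if (E p.1 p.2.1).toNat = 1 then encode (w p.2.1 true)
        else encode (w p.2.1 false)))) := by
    have hy : CI O (fun p : α × ℕ × ℕ => p.2.1) :=
      CI.of_computable (Computable.fst.comp Computable.snd)
    refine CI.comp₂ (h := fun c d : ℕ => encode (dl c ++ dl d)) br_app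
      (f := fun p : α × ℕ × ℕ => p.2.2)
      (g := fun p : α × ℕ × ℕ => if (E p.1 p.2.1).toNat = 1 then encode (w p.2.1 true)
        else encode (w p.2.1 false))
      (CI.of_computable (Computable.snd.comp Computable.snd)) ?_
    refine CI.ite (DI.eq ?_ (CI.const 1)) (br_ci_blk hw true hy) (br_ci_blk hw false hy)
    exact hE.comp_computable (g := fun p : α × ℕ × ℕ => (p.1, p.2.1))
      (Computable.fst.pair (Computable.fst.comp Computable.snd))
  have h2 := CI.natRec (CI.const (O := O) (α := α) (encode ([] : List Bool))) h1
  refine h2.congr ?_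
  rintro ⟨a, n⟩
  show encode (stm w (E a) n) = Nat.rec (encode ([] : List Bool)) (fun y ih =>
      encode (dl ih ++ dl (if (E a y).toNat = 1 then encode (w y true)
        else encode (w y false)))) n
  induction n with
  | zero => rfl
  | succ n ih =>
    show _ = encode (dl (Nat.rec (encode ([] : List Bool)) (fun y ih =>
      encode (dl ih ++ dl (if (E a y).toNat = 1 then encode (w y true)
        else encode (w y false)))) n) ++ dl (if (E a n).toNat = 1 then encode (w n true)
        else encode (w n false)))
    rw [← ih, dl_encode]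
    show encode (stm w (E a) n ++ w n (E a n)) = _
    cases E a n with
    | true => rw [if_pos (by rfl), dl_encode]
    | false => rw [if_neg (by simp), dl_encode]

theorem brn_tr {c e : ℕ → Bool} (hw : CI {orc c} (fun q : ℕ × Bool => encode (w q.1 q.2)))
    (he : TR e c) : TR (brn w e) c := by
  rw [tr_iff_ci]
  have h1 : CI {orc c} (fun p : ℕ × ℕ => encode (stm w e p.2)) :=
    br_ci_stm (α := ℕ) (E := fun _ => e) hw
      (ci_orc_comp he (CI.of_computable Computable.snd))
  have h2 : CI {orc c} (fun n : ℕ => encode (stm w e (n + 1))) :=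
    h1.comp_computable (g := fun n : ℕ => (n, n + 1)) (Computable.id.pair Computable.succ)
  refine (CI.comp₂ (h := fun s n : ℕ => (((dl s)[n]?).getD false).toNat) br_get h2
    (CI.of_computable Computable.id)).congr fun n => ?_
  show (brn w e n).toNat = (((dl (encode (stm w e (n + 1))))[n]?).getD false).toNat
  rw [dl_encode]
  rfl

theorem ci_stm {c : ℕ → Bool} (hw : CI {orc c} (fun q : ℕ × Bool => encode (w q.1 q.2))) :
    CI {orc c} (fun n : ℕ => encode (stm w (bjoin c (ext (dl n))) (2 * (dl n).length))) := by
  have hE : CI {orc c} (fun p : ℕ × ℕ => (bjoin c (ext (dl p.1)) p.2).toNat) := by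
    have hd : CI {orc c} (fun p : ℕ × ℕ => p.2 / 2) :=
      CI.div (CI.of_computable Computable.snd) (CI.const 2)
    have h2 : CI {orc c} (fun p : ℕ × ℕ => (((dl p.1)[p.2 / 2]?).getD false).toNat) :=
      CI.comp₂ (h := fun s n : ℕ => (((dl s)[n]?).getD false).toNat) br_get
        (f := fun p : ℕ × ℕ => p.1) (g := fun p : ℕ × ℕ => p.2 / 2)
        (CI.of_computable Computable.fst) hd
    refine (CI.ite (DI.eq (CI.mod (CI.of_computable Computable.snd) (CI.const 2)) (CI.const 0))
      (ci_orc_comp (TR.refl c) hd) h2).congr ?_
    rintro ⟨n, j⟩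
    unfold bjoin
    show (if j % 2 = 0 then c (j / 2) else ext (dl n) (j / 2)).toNat =
      if j % 2 = 0 then (c (j / 2)).toNat else (((dl n)[j / 2]?).getD false).toNat
    split_ifs <;> rfl
  have h1 := br_ci_stm (α := ℕ) (E := fun n => bjoin c (ext (dl n))) hw hE
  refine CI.sub h1 (CI.of_computable ?_)
  exact (Primrec.nat_mul.to_comp).comp (Computable.const 2)
    (Computable.list_length.comp dl_computable)

private theorem br_ci_bpos {O : Set (ℕ →. ℕ)}
    (hw : CI O (fun q : ℕ × Bool => encode (w q.1 q.2))) : CI O (bpos w) := by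
  have h1 : CI O (fun p : ℕ × ℕ => (dl (encode (w p.2 false))).length) :=
    CI.computable_comp (h := fun s : ℕ => (dl s).length)
      (Computable.list_length.comp dl_computable)
      (br_ci_blk hw false (CI.of_computable Computable.snd))
  refine (CI.bsum h1 (CI.of_computable Computable.id)).congr fun n => ?_
  unfold bpos
  exact Finset.sum_congr rfl fun k _ => by rw [dl_encode]

private theorem br_drop : Computable₂ fun s k : ℕ => encode ((dl s).drop k) :=
  Computable.encode.comp (Primrec.list_drop.to_comp.comp Computable.snd
    (dl_computable.comp Computable.fst))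

private theorem br_pre (hlen : ∀ i, (w i true).length = (w i false).length)
    (hpos : ∀ i, 0 < (w i false).length) (e : ℕ → Bool) (i : ℕ) :
    pre (brn w e) (bpos w i) = stm w e i := by
  have h1 : pre (brn w e) (stm w e i).length = stm w e i := Ext_brn hlen hpos e i
  rw [stm_length hlen] at h1
  exact h1

theorem tr_brn (hlen : ∀ i, (w i true).length = (w i false).length)
    (hpos : ∀ i, 0 < (w i false).length) (hne : ∀ i, w i false ≠ w i true)
    {c e : ℕ → Bool} (hw : CI {orc c} (fun q : ℕ × Bool => encode (w q.1 q.2)))
    (he : TR (brn w e) c) : TR e c := by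
  rw [tr_iff_ci]
  have hb := br_ci_bpos hw
  have hb1 : CI {orc c} (fun i : ℕ => bpos w (i + 1)) :=
    CI.comp hb (CI.of_computable Computable.succ)
  have h1 : CI {orc c} (fun i : ℕ => encode (pre (brn w e) (bpos w (i + 1)))) :=
    CI.comp (ci_tr (ci_pre (brn w e)) he) hb1
  have h2 : CI {orc c} (fun i : ℕ =>
      encode ((dl (encode (pre (brn w e) (bpos w (i + 1))))).drop (bpos w i))) :=
    CI.comp₂ (h := fun s k : ℕ => encode ((dl s).drop k)) br_drop h1 hb
  have h3 : CI {orc c} (fun i : ℕ => encode (w i true)) :=
    br_ci_blk hw true (CI.of_computable Computable.id)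
  refine (CI.ite (DI.eq h2 h3) (CI.const 1) (CI.const 0)).congr fun i => ?_
  have h4 : encode ((dl (encode (pre (brn w e) (bpos w (i + 1))))).drop (bpos w i)) =
      encode (w i (e i)) := by
    rw [dl_encode, br_pre hlen hpos]
    show encode ((stm w e i ++ w i (e i)).drop (bpos w i)) = _
    rw [← stm_length (w := w) hlen e i, List.drop_left]
  rw [h4]
  cases h5 : e i with
  | true => rw [if_pos rfl]; rfl
  | false =>
    rw [if_neg fun h6 => hne i (Encodable.encode_injective h6)]
    rfl

theorem brn_gen {Z : ℕ → Bool} {Y : List Bool → ℕ → Bool → Prop} (hB : Blocks Z Y w)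
    (e : ℕ → Bool) : Gen Z (brn w e) := by
  refine gen_of_dec fun i => ⟨bpos w (i + 1), ?_⟩
  rw [br_pre hB.len hB.pos]
  exact hB.dec i (stm w e i) (e i) (stm_length hB.len e i)

end Pool.Agent.Mart
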