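import Pool.Agent.Lib.MJump.Defs

/-!
Definition of an effective step of the coding (used in EffStep and EffCod).
-/

set_option autoImplicit false

namespace Pool.Agent.Mart

open Pool.Agent.GammaZero Encodable

/-- first half of an effective step: departure from `ext a` to the string `a'` with first difference
at `u` -/
def EDep (ψ : (ℕ → Bool) → (ℕ → Bool)) (L : ℕ → ℕ) (a a' : List Bool) (u : ℕ) : Prop :=
  a <+: a' ∧ a.length < a'.length ∧ (∀ k < u + 1, L k < a'.length + 1) ∧
    (∀ k < u, ψ (ext a') k = ψ (ext a) k) ∧ ψ (ext a') u ≠ ψ (ext a) u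

/-- second half of an effective step: `c'` follows `ext c` and the index of `ψ (ext c)` is
identified -/
def EFol (ψ : (ℕ → Bool) → (ℕ → Bool)) (x : ℕ → Bool) (L I : ℕ → ℕ) (c c' : List Bool)
    (M N : ℕ) : Prop :=
  c' = pre (ext c) c'.length ∧ c.length < c'.length + 1 ∧ (∀ k < M, L k < c'.length + 1) ∧
    Id1 x M N (ψ (ext c)) (I (encode c))

/-- an effective step -/
def EStep (ψ : (ℕ → Bool) → (ℕ → Bool)) (x : ℕ → Bool) (L I : ℕ → ℕ) (S : St) (b : Bool)
    (S' : St) (u v : ℕ) : Prop :=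
  EDep ψ L S.1 S'.2.2.1 u ∧ EDep ψ L S.2.1 S'.2.2.2 v ∧
    EFol ψ x L I S.2.2.1 S'.1 (min u v) (max u v) ∧
    EFol ψ x L I S.2.2.2 S'.2.1 (min u v) (max u v) ∧ b = decide (u < v)

end Pool.Agent.Mart
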