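import Pool.Agent.Lib.MJump.EffDef

/-!
# Module EffEx: effective steps exist and are steps  (about 200 lines)

`L` is a modulus of continuity for `ψ` (`hL`), `I (encode σ)` is the least index of `ψ (ext σ)` relative to
`x` (`hI`).

PROOFS.
`estep_step`: compare with the definition of `Step` (Table.lean). If `Ext a' α` then `α` and `ext a'` agree below
`a'.length` (`Ext_iff`, `Ext_ext`), and `L k ≤ a'.length` for `k ≤ u`, so `ψ α k = ψ (ext a') k` for `k ≤ u` by `hL`:
the first two clauses. For the third: `c <+: c' = pre (ext c) c'.length` by `prefix_pre (Ext_ext c)`;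
`ext c' = ext c` by `ext_pre_ext`; `Idx x (I (encode c)) (ψ (ext c'))` by `hI`; and if `Ext c' α`, then `ψ α` and
`ψ (ext c)` agree below `min u v`, and `Id1 x M N Y e` depends only on the values of `Y` below `M`.
`exists_estep`: follow the proof of `exists_step` (Table.lean), with the following two changes.
(1) `depart_eff`: for every `a` and `K` there are `a'` and `u ≥ K` with `EDep ψ L a a' u`. Let `m` be larger than
`a.length` and all `L k`, `k < K`, and `β = Function.update (ext a) m true`. `β` and `ext a` agree below `m`, so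
`ψ β k = ψ (ext a) k` for `k < K` by `hL`; `β ≠ ext a` (`ext_ge`), so `ψ β ≠ ψ (ext a)` (`hi`); let `u` be the first
difference (`Nat.find`), `u ≥ K`. Let `l` be larger than `m`, and all `L k`, `k ≤ u`, and `a' = pre β l`; then
`ext a' = β` because `β` is zero beyond `m` (`pre_getElem?`, `pre_getElem?_none`), `a <+: a'` (`pre_prefix`-like, as
`β` extends `a`: `prefix_pre`).
(2) Following: `exists_id (hx c)` gives `e M0` with `Idx x e (ψ (ext c))` and the identification property. This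
`e` is `I (encode c)`: both are indices of `y = ψ (ext c)`; `I (encode c) ≤ e` by minimality; if
`I (encode c) < e` then for large `M`, `N` the second part of `Id1 x M N y e` contradicts
`Idx x (I (encode c)) y` (`exists_steps`, `U.mono`). Then `c' = pre (ext c) l` with `l` larger than `c.length` and
all `L k`, `k < min u v`.
-/

set_option autoImplicit false

namespace Pool.Agent.Mart

open Pool.Agent.GammaZero Encodable

private theorem ext_agree {σ : List Bool} {α : ℕ → Bool} (h : Ext σ α) {j : ℕ}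
    (hj : j < σ.length) : α j = ext σ j := by
  have h1 := (Ext_iff σ α).1 h j hj
  unfold ext
  rw [h1]
  rfl

private theorem agree_below {ψ : (ℕ → Bool) → (ℕ → Bool)} {L : ℕ → ℕ}
    (hL : ∀ (n : ℕ) (α β : ℕ → Bool), (∀ k < L n, α k = β k) → ψ α n = ψ β n)
    {σ : List Bool} {M : ℕ} (hM : ∀ k < M, L k < σ.length + 1) {α : ℕ → Bool} (h : Ext σ α)
    (k : ℕ) (hk : k < M) : ψ α k = ψ (ext σ) k := by
  refine hL k α (ext σ) fun j hj => ext_agree h ?_
  have := hM k hk
  omega

private theorem dep_step {ψ : (ℕ → Bool) → (ℕ → Bool)} {L : ℕ → ℕ}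
    (hL : ∀ (n : ℕ) (α β : ℕ → Bool), (∀ k < L n, α k = β k) → ψ α n = ψ β n)
    {a a' : List Bool} {u : ℕ} (h : EDep ψ L a a' u) :
    a <+: a' ∧ a.length < a'.length ∧
      ∀ α, Ext a' α → (∀ k < u, ψ α k = ψ (ext a) k) ∧ ψ α u ≠ ψ (ext a) u := by
  obtain ⟨h1, h2, h3, h4, h5⟩ := h
  refine ⟨h1, h2, fun α hα => ⟨fun k hk => ?_, ?_⟩⟩
  · rw [agree_below hL h3 hα k (by omega)]
    exact h4 k hk
  · rw [agree_below hL h3 hα u (by omega)]
    exact h5

private theorem id1_congr {x : ℕ → Bool} {M N : ℕ} {Y Z : ℕ → Bool} {e : ℕ}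
    (hYZ : ∀ k < M, Y k = Z k) (h : Id1 x M N Z e) : Id1 x M N Y e := by
  refine ⟨fun k hk => ?_, fun e' he' hcon => h.2 e' he' fun k hk => ?_⟩
  · rw [hYZ k hk]
    exact h.1 k hk
  · rw [← hYZ k hk]
    exact hcon k hk

private theorem fol_step {ψ : (ℕ → Bool) → (ℕ → Bool)} {x : ℕ → Bool} {L I : ℕ → ℕ}
    (hL : ∀ (n : ℕ) (α β : ℕ → Bool), (∀ k < L n, α k = β k) → ψ α n = ψ β n)
    (hI : ∀ σ : List Bool, Idx x (I (encode σ)) (ψ (ext σ)) ∧
      ∀ e < I (encode σ), ¬ Idx x e (ψ (ext σ)))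
    {c c' : List Bool} {M N : ℕ} (h : EFol ψ x L I c c' M N) :
    c <+: c' ∧ ∃ e, Idx x e (ψ (ext c')) ∧ ∀ α, Ext c' α → Id1 x M N (ψ α) e := by
  obtain ⟨h1, h2, h3, h4⟩ := h
  have hext : ext c' = ext c := by
    rw [h1]
    exact ext_pre_ext c (by omega)
  refine ⟨?_, I (encode c), ?_, fun α hα => ?_⟩
  · rw [h1]
    exact prefix_pre (Ext_ext c) (by omega)
  · rw [hext]
    exact (hI c).1
  · refine id1_congr (fun k hk => ?_) h4
    rw [agree_below hL h3 hα k hk, hext]

private theorem depart_eff {ψ : (ℕ → Bool) → (ℕ → Bool)} (hi : Function.Injective ψ)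
    {L : ℕ → ℕ} (hL : ∀ (n : ℕ) (α β : ℕ → Bool), (∀ k < L n, α k = β k) → ψ α n = ψ β n)
    (a : List Bool) (K : ℕ) : ∃ (a' : List Bool) (u : ℕ), K ≤ u ∧ EDep ψ L a a' u := by
  classical
  obtain ⟨m, hm1, hm2⟩ : ∃ m, a.length ≤ m ∧ ∀ k < K, L k ≤ m := by
    refine ⟨max a.length ((Finset.range K).sup L), le_max_left _ _, fun k hk => ?_⟩
    exact le_trans (Finset.le_sup (Finset.mem_range.2 hk)) (le_max_right _ _)
  have hβlt : ∀ k < m, Function.update (ext a) m true k = ext a k :=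
    fun k hk => Function.update_of_ne (ne_of_lt hk) _ _
  have hβgt : ∀ k, m < k → Function.update (ext a) m true k = false := by
    intro k hk
    rw [Function.update_of_ne (ne_of_gt hk)]
    exact ext_ge _ _ (by omega)
  have hβm : Function.update (ext a) m true m = true := Function.update_self _ _ _
  generalize Function.update (ext a) m true = β at hβlt hβgt hβm
  have hne : ∃ u, ψ β u ≠ ψ (ext a) u := by
    by_contra hcon
    push Not at hcon
    have h1 := congrFun (hi (funext hcon)) m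
    rw [hβm, ext_ge _ _ hm1] at h1
    cases h1
  obtain ⟨l, hl1, hl2⟩ : ∃ l, m < l ∧ ∀ k < Nat.find hne + 1, L k ≤ l := by
    refine ⟨max (m + 1) ((Finset.range (Nat.find hne + 1)).sup L),
      lt_of_lt_of_le (Nat.lt_succ_self m) (le_max_left _ _), fun k hk => ?_⟩
    exact le_trans (Finset.le_sup (Finset.mem_range.2 hk)) (le_max_right _ _)
  have haβ : Ext a β := by
    rw [Ext_iff]
    intro k hk
    rw [hβlt k (by omega)]
    exact (Ext_iff a _).1 (Ext_ext a) k hk
  have hextβ : ext (pre β l) = β := by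
    funext k
    rcases Nat.lt_or_ge k l with hk | hk
    · show ((pre β l)[k]?).getD false = _
      rw [pre_getElem? _ _ _ hk]
      rfl
    · rw [ext_ge _ _ (by rw [pre_length]; exact hk), hβgt k (by omega)]
  refine ⟨pre β l, Nat.find hne, ?_, prefix_pre haβ (by omega), ?_, ?_, ?_, ?_⟩
  · by_contra hK
    push Not at hK
    apply Nat.find_spec hne
    refine hL _ _ _ fun j hj => hβlt j ?_
    have := hm2 _ hK
    omega
  · rw [pre_length]
    omega
  · intro k hk
    rw [pre_length]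
    have := hl2 k hk
    omega
  · intro k hk
    rw [hextβ]
    exact not_not.1 (Nat.find_min hne hk)
  · rw [hextβ]
    exact Nat.find_spec hne

private theorem id_eff {ψ : (ℕ → Bool) → (ℕ → Bool)} {x : ℕ → Bool} {I : ℕ → ℕ}
    (hI : ∀ σ : List Bool, Idx x (I (encode σ)) (ψ (ext σ)) ∧
      ∀ e < I (encode σ), ¬ Idx x e (ψ (ext σ))) (c : List Bool) :
    ∃ M0, ∀ M ≥ M0, ∃ N0, ∀ N ≥ N0, Id1 x M N (ψ (ext c)) (I (encode c)) := by
  classical
  have h1 : ∀ e' < I (encode c), ∃ k, ∀ t, ¬ U x e' k t (ψ (ext c) k).toNat := by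
    intro e' he'
    have h2 := (hI c).2 e' he'
    unfold Idx at h2
    push Not at h2
    exact h2
  choose! kk hkk using h1
  refine ⟨(Finset.range (I (encode c))).sup (fun e => kk e + 1), fun M hM => ?_⟩
  obtain ⟨t, ht⟩ := exists_steps (hI c).1 M
  refine ⟨t, fun N hN => ⟨fun k hk => (ht k (le_of_lt hk)).mono hN, ?_⟩⟩
  intro e' he' hcon
  have h2 : kk e' < M := lt_of_lt_of_le (lt_of_lt_of_le (Nat.lt_succ_self _)
    (Finset.le_sup (f := fun e => kk e + 1) (Finset.mem_range.2 he'))) hM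
  exact hkk e' he' _ (hcon _ h2)

private theorem follow_eff {ψ : (ℕ → Bool) → (ℕ → Bool)} {x : ℕ → Bool} {L I : ℕ → ℕ}
    (c : List Bool) {M N : ℕ} (h : Id1 x M N (ψ (ext c)) (I (encode c))) :
    ∃ c', EFol ψ x L I c c' M N := by
  obtain ⟨l, hl1, hl2⟩ : ∃ l, c.length ≤ l ∧ ∀ k < M, L k ≤ l := by
    refine ⟨max c.length ((Finset.range M).sup L), le_max_left _ _, fun k hk => ?_⟩
    exact le_trans (Finset.le_sup (Finset.mem_range.2 hk)) (le_max_right _ _)
  refine ⟨pre (ext c) l, ?_, ?_, ?_, h⟩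
  · rw [pre_length]
  · rw [pre_length]
    omega
  · intro k hk
    rw [pre_length]
    have := hl2 k hk
    omega

theorem estep_step {ψ : (ℕ → Bool) → (ℕ → Bool)} {x : ℕ → Bool} {L I : ℕ → ℕ}
    (hL : ∀ (n : ℕ) (α β : ℕ → Bool), (∀ k < L n, α k = β k) → ψ α n = ψ β n)
    (hI : ∀ σ : List Bool, Idx x (I (encode σ)) (ψ (ext σ)) ∧
      ∀ e < I (encode σ), ¬ Idx x e (ψ (ext σ)))
    {S S' : St} {b : Bool} {u v : ℕ} (h : EStep ψ x L I S b S' u v) : Step ψ x S b S' u v := by
  obtain ⟨h1, h2, h3, h4, h5⟩ := h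
  exact ⟨dep_step hL h1, dep_step hL h2, fol_step hL hI h3, fol_step hL hI h4, h5⟩

theorem exists_estep {ψ : (ℕ → Bool) → (ℕ → Bool)} (hi : Function.Injective ψ) {x : ℕ → Bool}
    {L I : ℕ → ℕ}
    (hL : ∀ (n : ℕ) (α β : ℕ → Bool), (∀ k < L n, α k = β k) → ψ α n = ψ β n)
    (hI : ∀ σ : List Bool, Idx x (I (encode σ)) (ψ (ext σ)) ∧
      ∀ e < I (encode σ), ¬ Idx x e (ψ (ext σ)))
    (S : St) (b : Bool) : ∃ S' u v, EStep ψ x L I S b S' u v := by
  obtain ⟨a, b', c, d⟩ := S
  obtain ⟨M1, hM1⟩ := id_eff hI c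
  obtain ⟨M2, hM2⟩ := id_eff hI d
  cases b with
  | true =>
    obtain ⟨a', u, ha3, ha⟩ := depart_eff hi hL a (max M1 M2)
    obtain ⟨N1, hN1⟩ := hM1 u (le_trans (le_max_left _ _) ha3)
    obtain ⟨N2, hN2⟩ := hM2 u (le_trans (le_max_right _ _) ha3)
    obtain ⟨b'', v, hb3, hb⟩ := depart_eff hi hL b' (max (max N1 N2) (u + 1))
    have huv : u < v := lt_of_lt_of_le (Nat.lt_succ_self u) (le_trans (le_max_right _ _) hb3)
    have hmin : min u v = u := min_eq_left (le_of_lt huv)
    have hmax : max u v = v := max_eq_right (le_of_lt huv)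
    have hv1 : N1 ≤ v := le_trans (le_trans (le_max_left _ _) (le_max_left _ _)) hb3
    have hv2 : N2 ≤ v := le_trans (le_trans (le_max_right _ _) (le_max_left _ _)) hb3
    obtain ⟨c', hc'⟩ := follow_eff (L := L) c (hN1 v hv1)
    obtain ⟨d', hd'⟩ := follow_eff (L := L) d (hN2 v hv2)
    refine ⟨(c', d', a', b''), u, v, ha, hb, ?_, ?_, (decide_eq_true huv).symm⟩
    · rw [hmin, hmax]; exact hc'
    · rw [hmin, hmax]; exact hd'
  | false =>
    obtain ⟨b'', v, hb3, hb⟩ := depart_eff hi hL b' (max M1 M2)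
    obtain ⟨N1, hN1⟩ := hM1 v (le_trans (le_max_left _ _) hb3)
    obtain ⟨N2, hN2⟩ := hM2 v (le_trans (le_max_right _ _) hb3)
    obtain ⟨a', u, ha3, ha⟩ := depart_eff hi hL a (max (max N1 N2) (v + 1))
    have huv : v < u := lt_of_lt_of_le (Nat.lt_succ_self v) (le_trans (le_max_right _ _) ha3)
    have hmin : min u v = v := min_eq_right (le_of_lt huv)
    have hmax : max u v = u := max_eq_left (le_of_lt huv)
    have hv1 : N1 ≤ u := le_trans (le_trans (le_max_left _ _) (le_max_left _ _)) ha3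
    have hv2 : N2 ≤ u := le_trans (le_trans (le_max_right _ _) (le_max_left _ _)) ha3
    obtain ⟨c', hc'⟩ := follow_eff (L := L) c (hN1 u hv1)
    obtain ⟨d', hd'⟩ := follow_eff (L := L) d (hN2 u hv2)
    refine ⟨(c', d', a', b''), u, v, ha, hb, ?_, ?_, (decide_eq_false (by omega)).symm⟩
    · rw [hmin, hmax]; exact hc'
    · rw [hmin, hmax]; exact hd'

end Pool.Agent.Mart
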