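import Pool.Agent.Lib.MJump.GenLem

/-!
# Module GJ: the jump of the join with a generic real  (about 130 lines)

PROOFS.
`jump_bjoin`. For `n : ℕ` and a string `ρ` put
`S (n, ρ) := ∃ s < ρ.length, res (bjoin X (ext ρ)) n.unpair.1 n.unpair.2 s ≠ 0`, decidable in `X`
(`res z e k s = evN (pair (pair s.2 e) (pair (encode (pre z s.1)) k))` and
`(ρ, m) ↦ encode (pre (bjoin X (ext ρ)) m)` is computable in `X`: as `fam_pre`/`ci_pre`, primitive recursion; or
use that `pre (bjoin X (ext ρ)) m` is a list of computable bits; `evN_computable`; `DI.bex`).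
Remark: `res z e k s` reads only `z` below `s.unpair.1 ≤ s`, so if `s < ρ.length` and `G` extends `ρ`,
then `res (bjoin X (ext ρ)) e k s = res (bjoin X G) e k s` (bit `j < s` of the join reads `G` at
`j / 2 < ρ.length`). Hence: `jump (bjoin X G) n = true ↔ ∃ m, S (n, pre G m)` (for `→` take
`m = s + 1`).
By genericity, for each `n` there is `m` with `S (n, pre G m) ∨ ∀ τ, pre G m <+: τ → ¬ S (n, τ)`. This condition
on `(n, m)` is decidable in `bjoin (jump X) G`: `S (n, pre G m)` is decidable in `bjoin X G ≤ bjoin (jump X) G`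
(`tr_jump`, `bjoin_tr`, `ci_pre`), and `∀ τ, ρ <+: τ → ¬ S (n, τ)` is decidable in `jump X` as a
predicate of `(n, ρ)` (`forall_ext_iff`, `di_forall`), composed with `ρ = pre G m` (`ci_pre`; compose through
the encoding of `ρ`: `DI.app2` with `dl`). `choice` gives `m : ℕ → ℕ` computable in
`bjoin (jump X) G`; then `jump (bjoin X G) n = true ↔ S (n, pre G (m n))` (if the second alternative holds
for `m n` then no `S (n, pre G m')`, since `S (n, ·)` is closed under extensions: use the remark), which is
decidable in `bjoin (jump X) G`.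
`jmp_bjoin`: show `TR (jmp i (bjoin t G)) (bjoin (jmp i t) G)` for `i ≤ M + 1` by induction on `i`:
`jmp (i+1) (bjoin t G) = jump (jmp i (bjoin t G)) ≤ jump (bjoin (jmp i t) G) ≤ bjoin (jump (jmp i t)) G`
by `jump_mono`, `jump_bjoin` and `Gen.mono` (`jmp i t ≤ jmp M t` as `i ≤ M`, `jmp_tr_jmp`).
`bjoin_jmp`: `bjoin_tr`, `jmp_mono` with `tr_bjoin_left`, and `G ≤ bjoin t G ≤ jmp M (bjoin t G)`.
-/

set_option autoImplicit false

namespace Pool.Agent.Mart

open Pool.Agent.GammaZero Encodable

/-- initial segments of a computable family of reals -/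
private theorem fampre {O : Set (ℕ →. ℕ)} {α : Type} [Primcodable α] {R : α → ℕ → Bool}
    (hR : CI O (fun p : α × ℕ => (R p.1 p.2).toNat)) :
    CI O (fun p : α × ℕ => encode (pre (R p.1) p.2)) := by
  have h1 : CI O (fun p : α × ℕ × ℕ =>
      encode (dl p.2.2 ++ [decide ((R p.1 p.2.1).toNat = 1)])) := by
    have h2 : Computable₂ fun (c b : ℕ) => encode (dl c ++ [decide (b = 1)]) := by
      have h3 : Computable fun p : ℕ × ℕ => decide (p.2 = 1) :=
        ((Primrec.eq.comp Primrec.snd (Primrec.const 1)).decide).to_comp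
      have h4 : Computable fun p : ℕ × ℕ => dl p.1 := dl_computable.comp Computable.fst
      exact Computable.encode.comp (Computable.list_append.comp h4
        (Computable.list_cons.comp h3 (Computable.const [])))
    have h5 : CI O (fun p : α × ℕ × ℕ => (R p.1 p.2.1).toNat) :=
      hR.comp_computable (g := fun p : α × ℕ × ℕ => (p.1, p.2.1))
        (Computable.fst.pair (Computable.fst.comp Computable.snd))
    exact CI.comp₂ (h := fun c b => encode (dl c ++ [decide (b = 1)]))
      h2 (CI.of_computable (Computable.snd.comp Computable.snd)) h5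
  have h2 := CI.natRec (CI.const (O := O) (α := α) (encode ([] : List Bool))) h1
  refine h2.congr fun p => ?_
  obtain ⟨a, n⟩ := p
  show encode (pre (R a) n) = Nat.rec (encode ([] : List Bool)) (fun y ih =>
      encode (dl ih ++ [decide ((R a y).toNat = 1)])) n
  induction n with
  | zero => rfl
  | succ n ih =>
    rw [pre_succ]
    show _ = encode (dl (Nat.rec (encode ([] : List Bool)) (fun y ih =>
      encode (dl ih ++ [decide ((R a y).toNat = 1)])) n) ++ [decide ((R a n).toNat = 1)])
    rw [← ih, dl_encode]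
    cases R a n <;> rfl

/-- bits of the eventually zero real, as numbers -/
private def extn (p : List Bool × ℕ) : ℕ := (ext p.1 p.2).toNat

private theorem ext_comp : Computable extn := by
  have h1 : Computable fun p : List Bool × ℕ => (p.1[p.2]? : Option Bool) :=
    Computable.list_getElem?
  have h2 : Computable fun p : List Bool × ℕ => ext p.1 p.2 :=
    Computable.option_getD h1 (Computable.const false)
  exact (Primrec.dom_finite Bool.toNat).to_comp.comp h2

private theorem ext_agree {ρ : List Bool} {G : ℕ → Bool} (h : Ext ρ G) {k : ℕ}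
    (hk : k < ρ.length) : ext ρ k = G k := by
  unfold ext
  rw [(Ext_iff ρ G).1 h k hk]
  rfl

private theorem res_congr {z z' : ℕ → Bool} (e k s : ℕ) (h : ∀ j < s.unpair.1, z j = z' j) :
    res z e k s = res z' e k s := by
  unfold res
  rw [(pre_eq_iff z z' _).2 h]

private theorem res_join {X G : ℕ → Bool} {ρ : List Bool} (h : Ext ρ G) (e k : ℕ) {s : ℕ}
    (hs : s < ρ.length) : res (bjoin X (ext ρ)) e k s = res (bjoin X G) e k s := by
  refine res_congr e k s fun j hj => ?_
  have h1 := Nat.unpair_left_le s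
  unfold bjoin
  split_ifs
  · rfl
  · exact ext_agree h (by omega)

/-- program `n.1` with oracle `X ⊕ ρ` halts on `n.2` -/
private def SS (X : ℕ → Bool) (p : ℕ × List Bool) : Prop :=
  ∃ s < p.2.length, res (bjoin X (ext p.2)) p.1.unpair.1 p.1.unpair.2 s ≠ 0

private theorem di_SS (X : ℕ → Bool) : DI {orc X} (SS X) := by
  have h1 : CI {orc X} (fun p : (ℕ × List Bool) × ℕ => (bjoin X (ext p.1.2) p.2).toNat) := by
    have hd : Computable (fun p : (ℕ × List Bool) × ℕ => p.2 / 2) :=
      Primrec.nat_div.to_comp.comp Computable.snd (Computable.const 2)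
    have hp : Computable (fun p : (ℕ × List Bool) × ℕ => (p.1.2, p.2 / 2)) :=
      (Computable.snd.comp Computable.fst).pair hd
    have he : Computable (fun p : (ℕ × List Bool) × ℕ => extn (p.1.2, p.2 / 2)) :=
      ext_comp.comp hp
    have h2 : DI {orc X} (fun p : (ℕ × List Bool) × ℕ => p.2 % 2 = 0) :=
      DI.eq (CI.mod (CI.of_computable Computable.snd) (CI.const 2)) (CI.const 0)
    have h3 : CI {orc X} (fun p : (ℕ × List Bool) × ℕ => (X (p.2 / 2)).toNat) :=
      ci_orc_comp (TR.refl X) (CI.div (CI.of_computable Computable.snd) (CI.const 2))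
    refine (CI.ite h2 h3 (CI.of_computable he)).congr fun p => ?_
    unfold bjoin
    split_ifs <;> rfl
  have h2 := fampre (O := {orc X}) (α := ℕ × List Bool) (R := fun p => bjoin X (ext p.2)) h1
  have h3 : CI {orc X} (fun p : (ℕ × List Bool) × ℕ =>
      res (bjoin X (ext p.1.2)) p.1.1.unpair.1 p.1.1.unpair.2 p.2) := by
    unfold res
    refine CI.computable_comp evN_computable (CI.npair (CI.npair (CI.of_computable ?_)
      (CI.of_computable ?_)) (CI.npair ?_ (CI.of_computable ?_)))
    · exact Computable.snd.comp (Computable.unpair.comp Computable.snd)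
    · exact Computable.fst.comp (Computable.unpair.comp (Computable.fst.comp Computable.fst))
    · exact h2.comp_computable (g := fun p : (ℕ × List Bool) × ℕ => (p.1, p.2.unpair.1))
        (Computable.fst.pair (Computable.fst.comp (Computable.unpair.comp Computable.snd)))
    · exact Computable.snd.comp (Computable.unpair.comp (Computable.fst.comp Computable.fst))
  exact DI.bex (DI.not (DI.eq h3 (CI.const 0)))
    (CI.of_computable (Computable.list_length.comp Computable.snd))

private theorem SS_mono {X : ℕ → Bool} {n : ℕ} {ρ τ : List Bool} (h : ρ <+: τ)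
    (hS : SS X (n, ρ)) : SS X (n, τ) := by
  obtain ⟨s, hs, hr⟩ := hS
  have h1 : s < τ.length := lt_of_lt_of_le hs h.length_le
  refine ⟨s, h1, ?_⟩
  have h2 : Ext ρ (ext τ) := Ext_mono h (Ext_ext τ)
  show res (bjoin X (ext τ)) n.unpair.1 n.unpair.2 s ≠ 0
  rw [← res_join h2 _ _ hs]
  exact hr

private theorem jump_iff_SS {X G : ℕ → Bool} (n : ℕ) :
    jump (bjoin X G) n = true ↔ ∃ m, SS X (n, pre G m) := by
  rw [jump_iff]
  constructor
  · rintro ⟨s, hs⟩
    have h1 : s < (pre G (s + 1)).length := by rw [pre_length]; omega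
    refine ⟨s + 1, s, h1, ?_⟩
    show res (bjoin X (ext (pre G (s + 1)))) n.unpair.1 n.unpair.2 s ≠ 0
    rw [res_join (Ext_pre G (s + 1)) _ _ h1]
    exact hs
  · rintro ⟨m, s, hs, hr⟩
    refine ⟨s, ?_⟩
    rw [← res_join (Ext_pre G m) _ _ hs]
    exact hr

theorem jump_bjoin {X G : ℕ → Bool} (h : Gen X G) :
    TR (jump (bjoin X G)) (bjoin (jump X) G) := by
  classical
  have hJ : TR (jump X) (bjoin (jump X) G) := tr_bjoin_left _ _
  have hX : TR X (bjoin (jump X) G) := (tr_jump X).trans hJ
  have hG : TR G (bjoin (jump X) G) := tr_bjoin_right _ _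
  have hpre : CI {orc (bjoin (jump X) G)} (fun n => encode (pre G n)) := ci_tr (ci_pre G) hG
  -- the two conditions as predicates of `(n, c)`
  have hA : DI {orc X} (fun p : ℕ × ℕ => SS X (p.1, dl p.2)) :=
    (di_SS X).comp_computable (g := fun p : ℕ × ℕ => (p.1, dl p.2))
      (Computable.fst.pair (dl_computable.comp Computable.snd))
  have hB0 : DI {orc X} (fun q : (ℕ × ℕ) × ℕ => ¬ SS X (q.1.1, dl q.1.2 ++ dl q.2)) := by
    refine DI.not ((di_SS X).comp_computable
      (g := fun q : (ℕ × ℕ) × ℕ => (q.1.1, dl q.1.2 ++ dl q.2)) ?_)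
    exact (Computable.fst.comp Computable.fst).pair (Computable.list_append.comp
      (dl_computable.comp (Computable.snd.comp Computable.fst))
      (dl_computable.comp Computable.snd))
  have hB : DI {orc (jump X)} (fun p : ℕ × ℕ => ∀ s, ¬ SS X (p.1, dl p.2 ++ dl s)) :=
    di_forall hB0
  have hP : DI {orc (bjoin (jump X) G)} (fun p : ℕ × ℕ =>
      SS X (p.1, dl (encode (pre G p.2))) ∨ ∀ s, ¬ SS X (p.1, dl (encode (pre G p.2)) ++ dl s)) :=
    DI.or (DI.app2 (di_tr hA hX) (CI.of_computable Computable.fst)
        (CI.comp hpre (CI.of_computable Computable.snd)))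
      (DI.app2 (di_tr hB hJ) (CI.of_computable Computable.fst)
        (CI.comp hpre (CI.of_computable Computable.snd)))
  have hex : ∀ n, ∃ m, SS X (n, dl (encode (pre G m))) ∨
      ∀ s, ¬ SS X (n, dl (encode (pre G m)) ++ dl s) := by
    intro n
    have h1 : DI {orc X} (fun ρ : List Bool => SS X (n, ρ)) :=
      (di_SS X).comp_computable (g := fun ρ : List Bool => (n, ρ))
        ((Computable.const n).pair Computable.id)
    rcases h _ h1 with ⟨m, hm⟩ | ⟨m, hm⟩
    · exact ⟨m, Or.inl (by rw [dl_encode]; exact hm)⟩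
    · exact ⟨m, Or.inr fun s => by rw [dl_encode]; exact hm _ (List.prefix_append _ _)⟩
  obtain ⟨c, hc, hcP⟩ := choice hP hex
  have hD : DI {orc (bjoin (jump X) G)} (fun n : ℕ => SS X (n, dl (encode (pre G (c n))))) :=
    DI.app2 (di_tr hA hX) (CI.of_computable Computable.id) (CI.comp hpre hc)
  rw [tr_iff_ci]
  refine (DI.ci hD).congr fun n => ?_
  have h2 : jump (bjoin X G) n = true ↔ SS X (n, dl (encode (pre G (c n)))) := by
    rw [jump_iff_SS]
    constructor
    · rintro ⟨m, hm⟩
      rcases hcP n with h3 | h3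
      · exact h3
      · exfalso
        rw [dl_encode] at h3
        rcases Nat.le_total m (c n) with h4 | h4
        · have h5 := SS_mono (pre_prefix G h4) hm
          apply h3 (encode ([] : List Bool))
          rw [dl_encode, List.append_nil]
          exact h5
        · obtain ⟨r, hr⟩ := pre_prefix G h4
          apply h3 (encode r)
          rw [dl_encode, hr]
          exact hm
    · intro h3
      rw [dl_encode] at h3
      exact ⟨_, h3⟩
  by_cases hS : SS X (n, dl (encode (pre G (c n))))
  · rw [if_pos hS, h2.2 hS]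
    rfl
  · rw [if_neg hS]
    have : jump (bjoin X G) n = false := by
      cases hj : jump (bjoin X G) n
      · rfl
      · exact absurd (h2.1 hj) hS
    rw [this]
    rfl

theorem jmp_bjoin {t G : ℕ → Bool} {M : ℕ} (h : Gen (jmp M t) G) :
    TR (jmp (M + 1) (bjoin t G)) (bjoin (jmp (M + 1) t) G) := by
  have h1 : ∀ i, i ≤ M + 1 → TR (jmp i (bjoin t G)) (bjoin (jmp i t) G) := by
    intro i
    induction i with
    | zero =>
      intro _
      exact TR.refl _
    | succ i ih =>
      intro hi
      rw [jmp_succ, jmp_succ]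
      have h2 := jump_mono (ih (by omega))
      have h3 : Gen (jmp i t) G := h.mono (jmp_tr_jmp t (by omega))
      exact h2.trans (jump_bjoin h3)
  exact h1 _ le_rfl

theorem bjoin_jmp (t G : ℕ → Bool) (M : ℕ) : TR (bjoin (jmp M t) G) (jmp M (bjoin t G)) :=
  bjoin_tr (jmp_mono (tr_bjoin_left t G) M) ((tr_bjoin_right t G).trans (tr_jmp _ M))

end Pool.Agent.Mart
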