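import Pool.Agent.Lib.MJump.GJ
import Pool.Agent.Lib.MJump.BlockSys
import Pool.Agent.Lib.MJump.Branch

/-!
# Module Inv: branches of a tree of blocks and the iterated jump; jump inversion  (about 110 lines)

PROOFS.
`block_ne`: `hB.split` at `σ = List.replicate (bpos w i) false`; if `w i false = w i true` this contradicts `hY.cons`.
`jmp_branch` (`Z = jmp M t`, so `jump Z = jmp (M + 1) t`): let `G = brn w e`, generic over `jmp M t` (`brn_gen`).
First: `jmp (M + 1) (bjoin t G) ≤ bjoin (jmp (M + 1) t) G` (`jmp_bjoin`) `≤ c`, as `jmp (M + 1) t ≤ c` and `G ≤ c` by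
`brn_tr` (`hw` transported to `c` by `ci_tr`). Second: let `d = jmp (M + 1) (bjoin t G)`. By `bjoin_jmp` (with `M + 1`)
`jmp (M + 1) t ≤ d` and `G ≤ d`, so `w` is computable in `d` and `tr_brn` gives `TR e d`.
`jump_inv`: `Y₀ ρ n b := ρ[n]? = some b` is a name (`mono`: `List.IsPrefix` and `getElem?`; `dense`: pad), `NC Y₀` (for
`σ` take `ρ₀ = σ ++ [true]`, `ρ₁ = σ ++ [false]`, `n = σ.length`), decidable in every oracle (it is a computable relation:
equality of `ρ[n]?` and `some b`; for instance through `DI.eq` of codes: `CI.of_computable` of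
`encode (ρ[n]?)` and `encode (some b)`). Apply `blocks_exist` with `Z = jmp M t` (`jmp_succ`) and take `G = brn w c`;
`jmp_branch` with `e = c` gives the equivalence; the last assertion is `tr_brn` with the oracle
`bjoin (jmp (M + 1) t) G` (in which `w` and `G` are computable).
-/

set_option autoImplicit false

namespace Pool.Agent.Mart

open Pool.Agent.GammaZero Encodable

theorem block_ne {Z : ℕ → Bool} {Y : List Bool → ℕ → Bool → Prop} (hY : Name Y)
    {w : ℕ → Bool → List Bool} (hB : Blocks Z Y w) (i : ℕ) : w i false ≠ w i true := by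
  intro heq
  obtain ⟨u, _, h⟩ := hB.split i (List.replicate (bpos w i) false) (by simp)
  rw [← heq] at h
  rcases h with h | h
  · exact hY.cons _ _ h
  · exact hY.cons _ _ ⟨h.2, h.1⟩

theorem jmp_branch {t : ℕ → Bool} {M : ℕ} {Y : List Bool → ℕ → Bool → Prop} (hY : Name Y)
    {w : ℕ → Bool → List Bool} (hB : Blocks (jmp M t) Y w)
    (hw : CI {orc (jmp (M + 1) t)} (fun q : ℕ × Bool => encode (w q.1 q.2)))
    {c e : ℕ → Bool} (hc : TR (jmp (M + 1) t) c) (he : TR e c) :
    TR (jmp (M + 1) (bjoin t (brn w e))) c ∧ TR e (jmp (M + 1) (bjoin t (brn w e))) := by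
  have hG : Gen (jmp M t) (brn w e) := brn_gen hB e
  refine ⟨(jmp_bjoin hG).trans (bjoin_tr hc (brn_tr (ci_tr hw hc) he)), ?_⟩
  have hd := bjoin_jmp t (brn w e) (M + 1)
  have h1 : TR (jmp (M + 1) t) (jmp (M + 1) (bjoin t (brn w e))) :=
    (tr_bjoin_left _ _).trans hd
  have h2 : TR (brn w e) (jmp (M + 1) (bjoin t (brn w e))) := (tr_bjoin_right _ _).trans hd
  exact tr_brn hB.len hB.pos (block_ne hY hB) (ci_tr hw h1) h2

/-- the canonical name of the generic real itself -/
private def Y0 (ρ : List Bool) (n : ℕ) (b : Bool) : Prop := ρ[n]? = some b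

private theorem name_Y0 : Name Y0 where
  mono := by
    rintro ρ τ n b ⟨r, rfl⟩ h
    unfold Y0 at h ⊢
    have hn : n < ρ.length := by
      by_contra hcon
      rw [List.getElem?_eq_none (not_lt.1 hcon)] at h
      exact absurd h (by simp)
    rw [List.getElem?_append_left hn]
    exact h
  cons := by
    rintro ρ n ⟨h1, h2⟩
    unfold Y0 at h1 h2
    rw [h1] at h2
    exact absurd h2 (by simp)
  dense := by
    intro ρ n
    have hn : n < (ρ ++ List.replicate (n + 1) false).length := by
      rw [List.length_append, List.length_replicate]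
      omega
    exact ⟨ρ ++ List.replicate (n + 1) false, (ρ ++ List.replicate (n + 1) false)[n],
      List.prefix_append _ _, List.getElem?_eq_getElem hn⟩

private theorem nc_Y0 : NC Y0 := by
  intro σ
  refine ⟨σ ++ [true], σ ++ [false], σ.length, List.prefix_append _ _, List.prefix_append _ _,
    ?_, ?_⟩
  · unfold Y0
    simp
  · unfold Y0
    simp

private theorem di_Y0 (O : Set (ℕ →. ℕ)) :
    DI O (fun q : List Bool × ℕ × Bool => Y0 q.1 q.2.1 q.2.2) := by
  have h1 : Computable (fun q : List Bool × ℕ × Bool => encode (q.1[q.2.1]?)) :=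
    Computable.encode.comp (Computable.list_getElem?.comp Computable.fst
      (Computable.fst.comp Computable.snd))
  have h2 : Computable (fun q : List Bool × ℕ × Bool => encode (some q.2.2)) :=
    Computable.encode.comp (Computable.option_some.comp (Computable.snd.comp Computable.snd))
  refine (DI.eq (CI.of_computable (O := O) h1) (CI.of_computable (O := O) h2)).of_iff ?_
  intro q
  unfold Y0
  exact encode_inj.symm

theorem jump_inv {t c : ℕ → Bool} {M : ℕ} (hc : TR (jmp (M + 1) t) c) :
    ∃ G, Gen (jmp M t) G ∧ Eqv (jmp (M + 1) (bjoin t G)) c ∧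
      TR c (bjoin (jmp (M + 1) t) G) := by
  obtain ⟨w, hB, hw⟩ := blocks_exist (Z := jmp M t) name_Y0 (di_Y0 _) nc_Y0
  rw [← jmp_succ] at hw
  refine ⟨brn w c, brn_gen hB c, jmp_branch name_Y0 hB hw hc (TR.refl c), ?_⟩
  exact tr_brn hB.len hB.pos (block_ne name_Y0 hB) (ci_tr hw (tr_bjoin_left _ _))
    (tr_bjoin_right _ _)

end Pool.Agent.Mart
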