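import Pool.Agent.Lib.MJump.JEx

/-!
# Module JTrans: the jump characterised by recursive enumerability  (about 130 lines)

`REn A S`: the set `S` is the domain of a partial function recursive in `A`.

PROOFS.
`ren_tr_jump`: if `S` is the domain of `f`, `Nat.RecursiveIn {orc A} f`, then by `rec_index` (module JEx) there is `e` with
`(f k).Dom ↔ ∃ s, res A e k s ≠ 0`, so `S k = true ↔ jump A (Nat.pair e k) = true`, so `S ≤ jump A` (`ci_orc_comp`,
`CI.npair`, `CI.congr`: the two Booleans are equal).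
`ren_jump`: `jump A` is the domain of `k ↦ Nat.rfind (fun s => decide (res A k.unpair.1 k.unpair.2 s ≠ 0))`, recursive in `A`:
`res` is computable in `A` (`ci_res`); see the proof of `choice` for the use of `Nat.RecursiveIn.rfind`.
`eqv_jump_of`: from the two.
`iterate_eqv`: induction on `m`: `J^[m+1] A = J (J^[m] A) ≡ jump (J^[m] A) ≡ jump (jmp m A)` (`jump_mono`,
`Function.iterate_succ_apply'`, `jmp_succ`).
-/

set_option autoImplicit false

namespace Pool.Agent.Mart

open Pool.Agent.GammaZero Encodable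

/-- `S` is recursively enumerable in `A` -/
def REn (A S : ℕ → Bool) : Prop :=
  ∃ f : ℕ →. ℕ, Nat.RecursiveIn {orc A} f ∧ ∀ k, S k = true ↔ (f k).Dom

theorem ren_tr_jump {A S : ℕ → Bool} (h : REn A S) : TR S (jump A) := by
  obtain ⟨f, hf, hS⟩ := h
  obtain ⟨e, he⟩ := rec_index hf
  rw [tr_iff_ci]
  refine (ci_orc_comp (TR.refl (jump A)) (CI.npair (CI.const e)
    (CI.of_computable Computable.id))).congr fun k => ?_
  have h1 : S k = true ↔ jump A (Nat.pair e k) = true := by
    rw [hS k, he k, jump_iff, Nat.unpair_pair]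
  have h2 : S k = jump A (Nat.pair e k) := by
    cases hb : S k
    · cases hc : jump A (Nat.pair e k)
      · rfl
      · rw [h1.2 hc] at hb; cases hb
    · rw [h1.1 hb]
  rw [h2]; rfl

theorem ren_jump (A : ℕ → Bool) : REn A (jump A) := by
  have h1 : DI {orc A} (fun q : ℕ × ℕ => res A q.1.unpair.1 q.1.unpair.2 q.2 ≠ 0) := by
    refine DI.not (DI.eq (CI.app3 (ci_res A) (CI.of_computable ?_) (CI.of_computable ?_)
      (CI.of_computable Computable.snd)) (CI.const 0))
    · exact Computable.fst.comp (Computable.unpair.comp Computable.fst)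
    · exact Computable.snd.comp (Computable.unpair.comp Computable.fst)
  obtain ⟨g, ⟨F, hF, hFe⟩, h1, h2⟩ := h1
  have hF' : Nat.RecursiveIn {orc A} (fun n => Part.some (1 - F n)) :=
    rin_comp (F := fun x => 1 - x)
      (rin_of_computable (Primrec.nat_sub.to_comp.comp (Computable.const 1) Computable.id)) hF
  refine ⟨_, Nat.RecursiveIn.rfind hF', fun k => ?_⟩
  rw [jump_iff]
  have hval : ∀ s, F (Nat.pair k s) = g (k, s) := fun s => hFe (k, s)
  constructor
  · intro hex
    classical
    refine Part.dom_iff_mem.2 ⟨Nat.find hex, Nat.mem_rfind.2 ⟨?_, ?_⟩⟩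
    · have h4 : F (Nat.pair k (Nat.find hex)) = 1 :=
        (hval _).trans (h1 (k, Nat.find hex) (Nat.find_spec hex))
      show true ∈ Part.map _ (Part.some (1 - F (Nat.pair k (Nat.find hex))))
      rw [h4]
      simp
    · intro m hm
      have h4 : F (Nat.pair k m) = 0 := (hval _).trans (h2 (k, m) (Nat.find_min hex hm))
      show false ∈ Part.map _ (Part.some (1 - F (Nat.pair k m)))
      rw [h4]
      simp
  · intro hd
    obtain ⟨s, hs⟩ := Part.dom_iff_mem.1 hd
    refine ⟨s, ?_⟩
    intro hc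
    have h4 : F (Nat.pair k s) = 0 := (hval _).trans (h2 (k, s) (not_not.2 hc))
    have h3 : true ∈ Part.map (fun m => decide (m = 0)) (Part.some (1 - F (Nat.pair k s))) :=
      (Nat.mem_rfind.1 hs).1
    rw [h4] at h3
    simp at h3

theorem eqv_jump_of {A B : ℕ → Bool} (h₁ : ∀ S, REn A S → TR S B)
    (h₂ : ∃ S, REn A S ∧ TR B S) : Eqv B (jump A) := by
  obtain ⟨S, hS, hB⟩ := h₂
  exact ⟨hB.trans (ren_tr_jump hS), h₁ _ (ren_jump A)⟩

theorem iterate_eqv {J : (ℕ → Bool) → (ℕ → Bool)}
    (hJ : ∀ A, (∀ S, REn A S → TR S (J A)) ∧ ∃ S, REn A S ∧ TR (J A) S) (m : ℕ) (A : ℕ → Bool) :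
    Eqv (J^[m] A) (jmp m A) := by
  induction m with
  | zero => exact Eqv.refl A
  | succ m ih =>
    rw [Function.iterate_succ_apply', jmp_succ]
    have h1 := eqv_jump_of (hJ (J^[m] A)).1 (hJ (J^[m] A)).2
    exact h1.trans ⟨jump_mono ih.1, jump_mono ih.2⟩

end Pool.Agent.Mart
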